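import Pool.Agent.Lib.MP_fdd68d_co.Defs

/-!
Matroid side: represented matroids, minors of rank two and three.
-/

namespace Pool.Agent.Lib.MP_fdd68d_co

open Module Set
open scoped Matroid

/-- `v` represents the matroid `M` over the field `K`. -/
def Represents (K : Type*) {α V : Type*} [Field K] [AddCommGroup V] [Module K V]
    (v : α → V) (M : Matroid α) : Prop :=
  ∀ I : Set α, M.Indep I ↔ I ⊆ M.E ∧ LinearIndepOn K v I

/-- `N` is the line with `n` points, `U_{2,n}`. -/
def IsUTwo {α : Type*} (n : ℕ) (N : Matroid α) : Prop :=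
  N.E.ncard = n ∧ ∀ B : Set α, N.IsBase B ↔ B ⊆ N.E ∧ B.ncard = 2

/-- `N` is the cycle matroid of the complete graph on four vertices: six elements, the bases are
all triples except four, any two of which share exactly one element. -/
def IsMKFour {α : Type*} (N : Matroid α) : Prop :=
  ∃ a b c x y z : α, N.E = {a, b, c, x, y, z} ∧ N.E.ncard = 6 ∧ ∀ B : Set α, N.IsBase B ↔
    B ⊆ N.E ∧ B.ncard = 3 ∧ B ≠ {b, c, x} ∧ B ≠ {a, c, y} ∧ B ≠ {a, b, z} ∧ B ≠ {x, y, z}

/-- `N` is the rank-three whirl: six elements, the bases are all triples except three, which are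
the sides of a triangle. -/
def IsWThree {α : Type*} (N : Matroid α) : Prop :=
  ∃ a b c x y z : α, N.E = {a, b, c, x, y, z} ∧ N.E.ncard = 6 ∧ ∀ B : Set α, N.IsBase B ↔
    B ⊆ N.E ∧ B.ncard = 3 ∧ B ≠ {b, c, x} ∧ B ≠ {a, c, y} ∧ B ≠ {a, b, z}

variable {α : Type*} {K V U : Type*} [Field K] [AddCommGroup V] [Module K V]
  [AddCommGroup U] [Module K U]

/-- Independent sets of a minor in terms of a representation. -/
theorem Represents.minor_indep {v : α → V} {M : Matroid α} (hv : Represents K v M) {C E' : Set α}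
    (hC : M.Indep C) (hE' : E' ⊆ M.E) (hdisj : Disjoint E' C) :
    (M ／ C ＼ (M.E \ E')).E = E' ∧ ∀ I, (M ／ C ＼ (M.E \ E')).Indep I ↔
      I ⊆ E' ∧ LinearIndepOn K ((Submodule.span K (v '' C)).mkQ ∘ v) I := by
  have hCv := ((hv C).1 hC).2
  refine ⟨?_, ?_⟩
  · rw [Matroid.delete_ground, Matroid.contract_ground]
    ext e
    simp only [mem_sdiff, not_and, not_not]
    constructor
    · rintro ⟨⟨h1, -⟩, h3⟩
      exact h3 h1
    · intro h
      exact ⟨⟨hE' h, fun hc => disjoint_left.1 hdisj h hc⟩, fun _ => h⟩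
  · intro I
    rw [Matroid.delete_indep_iff, hC.contract_indep_iff, hv]
    constructor
    · rintro ⟨⟨h1, h2, h3⟩, h4⟩
      have hIE : I ⊆ E' := by
        intro e he
        by_contra hcon
        exact disjoint_left.1 h4 he ⟨h2 (mem_union_left _ he), hcon⟩
      refine ⟨hIE, ?_⟩
      rw [hCv.quotient_iff_union h1.symm, union_comm]
      exact h3
    · rintro ⟨h1, h2⟩
      have h3 : Disjoint I C := disjoint_of_subset_left h1 hdisj
      refine ⟨⟨h3, union_subset (h1.trans hE') hC.subset_ground, ?_⟩, ?_⟩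
      · rwa [hCv.quotient_iff_union h3.symm, union_comm] at h2
      · exact disjoint_left.2 fun e he hE => hE.2 (h1 he)

/-- Bases in terms of a representation, once one base is known. -/
theorem isBase_iff_of_rep {N : Matroid α} {u : α → U}
    (hN : ∀ I, N.Indep I ↔ I ⊆ N.E ∧ LinearIndepOn K u I) {B₀ : Set α} (h0 : B₀ ⊆ N.E)
    (h1 : LinearIndepOn K u B₀) (h2 : ∀ e ∈ N.E, u e ∈ Submodule.span K (u '' B₀))
    (hfin : B₀.Finite) (B : Set α) :
    N.IsBase B ↔ B ⊆ N.E ∧ LinearIndepOn K u B ∧ B.ncard = B₀.ncard := by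
  have hB0 : N.IsBase B₀ := by
    refine ((hN B₀).2 ⟨h0, h1⟩).isBase_of_forall_insert ?_
    intro e he hind
    have h3 := ((hN _).1 hind).2
    rw [linearIndepOn_insert he.2] at h3
    exact h3.2 (h2 e he.1)
  constructor
  · intro hB
    exact ⟨hB.subset_ground, ((hN B).1 hB.indep).2, hB.ncard_eq_ncard_of_isBase hB0⟩
  · rintro ⟨h3, h4, h5⟩
    obtain ⟨B', hB', hBB'⟩ := ((hN B).2 ⟨h3, h4⟩).exists_isBase_superset
    have h6 : B'.ncard = B₀.ncard := hB'.ncard_eq_ncard_of_isBase hB0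
    have h7 : B'.Finite := hB0.finite_of_finite hfin hB'
    rw [Set.eq_of_subset_of_ncard_le hBB' (by rw [h5, h6]) h7]
    exact hB'

theorem linearIndepOn_triple {w : Fin 6 → (Fin 3 → K)} {i j k : Fin 6} (hij : i ≠ j) (hik : i ≠ k)
    (hjk : j ≠ k) :
    LinearIndepOn K w ({i, j, k} : Set (Fin 6)) ↔
      (Matrix.of ![w i, w j, w k]).det ≠ 0 := by
  have hinj : Function.Injective (![i, j, k] : Fin 3 → Fin 6) := by
    intro s t hst
    fin_cases s <;> fin_cases t <;> simp_all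
  have hr : ({i, j, k} : Set (Fin 6)) = Set.range (![i, j, k] : Fin 3 → Fin 6) := by
    ext e
    simp only [Set.mem_insert_iff, Set.mem_singleton_iff, Set.mem_range]
    constructor
    · rintro (h | h | h)
      · exact ⟨0, h.symm⟩
      · exact ⟨1, h.symm⟩
      · exact ⟨2, h.symm⟩
    · rintro ⟨t, ht⟩
      fin_cases t
      · exact Or.inl ht.symm
      · exact Or.inr (Or.inl ht.symm)
      · exact Or.inr (Or.inr ht.symm)
  rw [hr, linearIndepOn_range_iff hinj]
  have h1 : w ∘ (![i, j, k] : Fin 3 → Fin 6) = (Matrix.of ![w i, w j, w k]).row := by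
    funext t
    fin_cases t <;> rfl
  rw [h1, Matrix.linearIndependent_rows_iff_isUnit, Matrix.isUnit_iff_isUnit_det, isUnit_iff_ne_zero]

/-- The coordinates of the six points of a long triangle. -/
def sixVec (b1 c1 a2 c2 a3 b3 : K) : Fin 6 → (Fin 3 → K) :=
  ![![1, 0, 0], ![0, 1, 0], ![0, 0, 1], ![0, b1, c1], ![a2, 0, c2], ![a3, b3, 0]]

theorem sixVec_indep {b1 c1 a2 c2 a3 b3 : K} (hb1 : b1 ≠ 0) (hc1 : c1 ≠ 0) (ha2 : a2 ≠ 0)
    (hc2 : c2 ≠ 0) (ha3 : a3 ≠ 0) (hb3 : b3 ≠ 0) {i j k : Fin 6} (hij : i < j) (hjk : j < k) :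
    LinearIndepOn K (sixVec b1 c1 a2 c2 a3 b3) ({i, j, k} : Set (Fin 6)) ↔
      (¬ (i = 1 ∧ j = 2 ∧ k = 3) ∧ ¬ (i = 0 ∧ j = 2 ∧ k = 4) ∧ ¬ (i = 0 ∧ j = 1 ∧ k = 5) ∧
        (b1 * c2 * a3 + c1 * a2 * b3 = 0 → ¬ (i = 3 ∧ j = 4 ∧ k = 5))) := by
  rw [linearIndepOn_triple hij.ne (hij.trans hjk).ne hjk.ne]
  fin_cases i <;> fin_cases j <;>
    first
    | (exact absurd hij (by decide))
    | (fin_cases k <;>
        first
        | (exact absurd hjk (by decide))
        | (simp [sixVec, Matrix.det_fin_three, *]))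


theorem sixVec_injective {b1 c1 a2 c2 a3 b3 : K} (hb1 : b1 ≠ 0) (hc1 : c1 ≠ 0) (ha2 : a2 ≠ 0)
    (hc2 : c2 ≠ 0) (ha3 : a3 ≠ 0) (hb3 : b3 ≠ 0) :
    Function.Injective (sixVec b1 c1 a2 c2 a3 b3) := by
  intro i j hij
  have h0 := congrFun hij 0
  have h1 := congrFun hij 1
  have h2 := congrFun hij 2
  fin_cases i <;> fin_cases j <;>
    first
    | rfl
    | (exfalso; simp [sixVec, *] at h0 h1 h2; done)
    | (exfalso; simp [sixVec] at h0 h1 h2; simp_all)

theorem exists_sorted_triple {T : Set (Fin 6)} (hT : T.ncard = 3) :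
    ∃ i j k : Fin 6, i < j ∧ j < k ∧ T = {i, j, k} := by
  classical
  have h1 : T.toFinset.card = 3 := by rw [← Set.ncard_eq_toFinset_card']; exact hT
  refine ⟨T.toFinset.orderEmbOfFin h1 0, T.toFinset.orderEmbOfFin h1 1,
    T.toFinset.orderEmbOfFin h1 2, (OrderEmbedding.lt_iff_lt _).2 (by decide),
    (OrderEmbedding.lt_iff_lt _).2 (by decide), ?_⟩
  have h2 := Finset.range_orderEmbOfFin T.toFinset h1
  rw [Set.coe_toFinset] at h2
  ext e
  constructor
  · intro he
    rw [← h2] at he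
    obtain ⟨t, rfl⟩ := he
    fin_cases t
    · exact Or.inl rfl
    · exact Or.inr (Or.inl rfl)
    · exact Or.inr (Or.inr rfl)
  · rintro (h | h | h)
    · rw [← h2]; exact ⟨0, h.symm⟩
    · rw [← h2]; exact ⟨1, h.symm⟩
    · rw [← h2]; exact ⟨2, h.symm⟩

theorem triple_eq_iff {i j k i' j' k' : Fin 6} (h1 : i < j) (h2 : j < k) (h1' : i' < j')
    (h2' : j' < k') : ({i, j, k} : Set (Fin 6)) = {i', j', k'} ↔ i = i' ∧ j = j' ∧ k = k' := by
  constructor
  · intro h
    have m1 : i ∈ ({i', j', k'} : Set (Fin 6)) := by rw [← h]; simp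
    have m2 : j ∈ ({i', j', k'} : Set (Fin 6)) := by rw [← h]; simp
    have m3 : k ∈ ({i', j', k'} : Set (Fin 6)) := by rw [← h]; simp
    simp only [Set.mem_insert_iff, Set.mem_singleton_iff, Fin.ext_iff] at m1 m2 m3
    simp only [Fin.lt_def] at h1 h2 h1' h2'
    refine ⟨Fin.ext ?_, Fin.ext ?_, Fin.ext ?_⟩ <;> omega
  · rintro ⟨rfl, rfl, rfl⟩
    rfl

/-- Three independent points with points on the three connecting lines: `M(K₄)` or the whirl. -/
theorem six_points {N : Matroid α} {u : α → U}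
    (hN : ∀ I, N.Indep I ↔ I ⊆ N.E ∧ LinearIndepOn K u I) {a b c x y z : α}
    (hE : N.E = {a, b, c, x, y, z}) (habc : LinearIndependent K ![u a, u b, u c])
    {b1 c1 a2 c2 a3 b3 : K} (hb1 : b1 ≠ 0) (hc1 : c1 ≠ 0) (ha2 : a2 ≠ 0)
    (hc2 : c2 ≠ 0) (ha3 : a3 ≠ 0) (hb3 : b3 ≠ 0) (hx : u x = b1 • u b + c1 • u c)
    (hy : u y = a2 • u a + c2 • u c) (hz : u z = a3 • u a + b3 • u b) :
    IsMKFour N ∨ IsWThree N := by
  set σ : Fin 6 → α := ![a, b, c, x, y, z] with hσ
  set w := sixVec b1 c1 a2 c2 a3 b3 with hw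
  set e : (Fin 3 → K) →ₗ[K] U := Fintype.linearCombination K ![u a, u b, u c] with he
  have hinj : Function.Injective e := habc.fintypeLinearCombination_injective
  have hval : ∀ i, u (σ i) = e (w i) := by
    intro i
    rw [he, Fintype.linearCombination_apply, Fin.sum_univ_three]
    fin_cases i <;> simp [hσ, hw, sixVec, hx, hy, hz]
  have hcomp : u ∘ σ = e ∘ w := funext hval
  have hσinj : Function.Injective σ := by
    intro i j hij
    apply sixVec_injective hb1 hc1 ha2 hc2 ha3 hb3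
    apply hinj
    rw [← hw, ← hval, ← hval, hij]
  have hind : ∀ T : Set (Fin 6), LinearIndepOn K u (σ '' T) ↔ LinearIndepOn K w T := by
    intro T
    rw [← e.linearIndepOn_iff_of_injOn (v := w) hinj.injOn, ← hcomp]
    exact ⟨fun h => h.comp_of_image hσinj.injOn, fun h => h.image_of_comp⟩
  have hEr : N.E = Set.range σ := by
    rw [hE]
    ext t
    simp only [Set.mem_insert_iff, Set.mem_singleton_iff, Set.mem_range]
    constructor
    · rintro (h | h | h | h | h | h)
      · exact ⟨0, h.symm⟩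
      · exact ⟨1, h.symm⟩
      · exact ⟨2, h.symm⟩
      · exact ⟨3, h.symm⟩
      · exact ⟨4, h.symm⟩
      · exact ⟨5, h.symm⟩
    · rintro ⟨i, rfl⟩
      fin_cases i <;> simp [hσ]
  have hcard : N.E.ncard = 6 := by
    rw [hEr, ← Set.image_univ, Set.ncard_image_of_injective _ hσinj, Set.ncard_univ]
    simp
  have him : ∀ i j k : Fin 6, σ '' {i, j, k} = {σ i, σ j, σ k} := by
    intro i j k
    rw [Set.image_insert_eq, Set.image_insert_eq, Set.image_singleton]
  have h012 : LinearIndepOn K u ({a, b, c} : Set α) := by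
    have : ({a, b, c} : Set α) = σ '' {0, 1, 2} := by rw [him]; rfl
    rw [this, hind, hw, sixVec_indep hb1 hc1 ha2 hc2 ha3 hb3 (by decide) (by decide)]
    simp
  have hncard3 : ∀ T : Set (Fin 6), (σ '' T).ncard = T.ncard := fun T =>
    Set.ncard_image_of_injective T hσinj
  have habc3 : ({a, b, c} : Set α).ncard = 3 := by
    have : ({a, b, c} : Set α) = σ '' {0, 1, 2} := by rw [him]; rfl
    rw [this, hncard3, Set.ncard_eq_toFinset_card']
    rfl
  have hbase : ∀ B : Set α, N.IsBase B ↔ B ⊆ N.E ∧ LinearIndepOn K u B ∧ B.ncard = 3 := by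
    intro B
    rw [← habc3]
    refine isBase_iff_of_rep hN ?_ h012 ?_ (Set.toFinite _) B
    · rw [hE]
      intro t ht
      simp only [Set.mem_insert_iff, Set.mem_singleton_iff] at ht ⊢
      tauto
    · intro t ht
      have ha : u a ∈ Submodule.span K (u '' ({a, b, c} : Set α)) :=
        Submodule.subset_span ⟨a, by simp, rfl⟩
      have hb : u b ∈ Submodule.span K (u '' ({a, b, c} : Set α)) :=
        Submodule.subset_span ⟨b, by simp, rfl⟩
      have hc : u c ∈ Submodule.span K (u '' ({a, b, c} : Set α)) :=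
        Submodule.subset_span ⟨c, by simp, rfl⟩
      rw [hE] at ht
      simp only [Set.mem_insert_iff, Set.mem_singleton_iff] at ht
      rcases ht with h | h | h | h | h | h <;> rw [h]
      · exact ha
      · exact hb
      · exact hc
      · rw [hx]; exact add_mem (Submodule.smul_mem _ _ hb) (Submodule.smul_mem _ _ hc)
      · rw [hy]; exact add_mem (Submodule.smul_mem _ _ ha) (Submodule.smul_mem _ _ hc)
      · rw [hz]; exact add_mem (Submodule.smul_mem _ _ ha) (Submodule.smul_mem _ _ hb)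
  -- description of the bases by index triples
  have hkey : ∀ B : Set α, B ⊆ N.E → B.ncard = 3 → (LinearIndepOn K u B ↔
      (B ≠ {b, c, x} ∧ B ≠ {a, c, y} ∧ B ≠ {a, b, z} ∧
        (b1 * c2 * a3 + c1 * a2 * b3 = 0 → B ≠ {x, y, z}))) := by
    intro B hB hB3
    obtain ⟨T, rfl⟩ : ∃ T, σ '' T = B := by
      rw [hEr] at hB
      exact (Set.subset_range_iff_exists_image_eq).1 hB
    rw [hncard3] at hB3
    obtain ⟨i, j, k, hij, hjk, rfl⟩ := exists_sorted_triple hB3
    have e1 : ({b, c, x} : Set α) = σ '' {1, 2, 3} := by rw [him]; rfl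
    have e2 : ({a, c, y} : Set α) = σ '' {0, 2, 4} := by rw [him]; rfl
    have e3 : ({a, b, z} : Set α) = σ '' {0, 1, 5} := by rw [him]; rfl
    have e4 : ({x, y, z} : Set α) = σ '' {3, 4, 5} := by rw [him]; rfl
    rw [hind, hw, sixVec_indep hb1 hc1 ha2 hc2 ha3 hb3 hij hjk, e1, e2, e3, e4, Ne, Ne, Ne, Ne,
      hσinj.image_injective.eq_iff, hσinj.image_injective.eq_iff, hσinj.image_injective.eq_iff,
      hσinj.image_injective.eq_iff,
      triple_eq_iff hij hjk (by decide) (by decide), triple_eq_iff hij hjk (by decide) (by decide),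
      triple_eq_iff hij hjk (by decide) (by decide), triple_eq_iff hij hjk (by decide) (by decide)]
  by_cases hdet : b1 * c2 * a3 + c1 * a2 * b3 = 0
  · left
    refine ⟨a, b, c, x, y, z, hE, hcard, fun B => ?_⟩
    rw [hbase]
    constructor
    · rintro ⟨h1, h2, h3⟩
      obtain ⟨h4, h5, h6, h7⟩ := (hkey B h1 h3).1 h2
      exact ⟨h1, h3, h4, h5, h6, h7 hdet⟩
    · rintro ⟨h1, h3, h4, h5, h6, h7⟩
      exact ⟨h1, (hkey B h1 h3).2 ⟨h4, h5, h6, fun _ => h7⟩, h3⟩
  · right
    refine ⟨a, b, c, x, y, z, hE, hcard, fun B => ?_⟩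
    rw [hbase]
    constructor
    · rintro ⟨h1, h2, h3⟩
      obtain ⟨h4, h5, h6, -⟩ := (hkey B h1 h3).1 h2
      exact ⟨h1, h3, h4, h5, h6⟩
    · rintro ⟨h1, h3, h4, h5, h6⟩
      exact ⟨h1, (hkey B h1 h3).2 ⟨h4, h5, h6, fun h => absurd h hdet⟩, h3⟩

theorem Represents.exists_indep_span {v : α → V} {M : Matroid α} (hv : Represents K v M)
    {A : Set α} (hA : A ⊆ M.E) :
    ∃ C, C ⊆ A ∧ M.Indep C ∧ Submodule.span K (v '' C) = Submodule.span K (v '' A) := by
  obtain ⟨C, hC⟩ := M.exists_isBasis A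
  refine ⟨C, hC.subset, hC.indep, le_antisymm (Submodule.span_mono (image_mono hC.subset)) ?_⟩
  rw [Submodule.span_le]
  rintro _ ⟨e, he, rfl⟩
  by_contra hcon
  have heC : e ∉ C := fun h => hcon (Submodule.subset_span ⟨e, h, rfl⟩)
  have h1 : M.Indep (insert e C) := by
    rw [hv]
    refine ⟨insert_subset (hA he) (hC.subset.trans hA), ?_⟩
    rw [linearIndepOn_insert heC]
    exact ⟨((hv C).1 hC.indep).2, hcon⟩
  exact heC (hC.mem_of_insert_indep he h1)

theorem mem_sup_span_mkQ (W : Submodule K V) (s t : V) :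
    s ∈ W ⊔ Submodule.span K {t} ↔ ∃ c : K, W.mkQ s = c • W.mkQ t := by
  constructor
  · intro h
    obtain ⟨f, hf, g, hg, rfl⟩ := Submodule.mem_sup.1 h
    obtain ⟨c, rfl⟩ := Submodule.mem_span_singleton.1 hg
    refine ⟨c, ?_⟩
    rw [map_add, map_smul, Submodule.mkQ_apply, (Submodule.Quotient.mk_eq_zero W).2 hf, zero_add]
  · rintro ⟨c, hc⟩
    rw [← map_smul, ← sub_eq_zero, ← map_sub, Submodule.mkQ_apply,
      Submodule.Quotient.mk_eq_zero] at hc
    have h2 : s = (s - c • t) + c • t := by abel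
    rw [h2]
    exact Submodule.add_mem_sup hc (Submodule.smul_mem _ _ (Submodule.mem_span_singleton_self t))

theorem mem_sup_sup_mkQ (W : Submodule K V) (s t t' : V) :
    s ∈ (W ⊔ Submodule.span K {t}) ⊔ (W ⊔ Submodule.span K {t'}) ↔
      ∃ c c' : K, W.mkQ s = c • W.mkQ t + c' • W.mkQ t' := by
  constructor
  · intro h
    obtain ⟨f, hf, g, hg, rfl⟩ := Submodule.mem_sup.1 h
    obtain ⟨c, hc⟩ := (mem_sup_span_mkQ W f t).1 hf
    obtain ⟨c', hc'⟩ := (mem_sup_span_mkQ W g t').1 hg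
    exact ⟨c, c', by rw [map_add, hc, hc']⟩
  · rintro ⟨c, c', hc⟩
    have h2 : s = (s - c' • t') + c' • t' := by abel
    rw [h2]
    refine Submodule.add_mem_sup ?_ (Submodule.mem_sup_right
      (Submodule.smul_mem _ _ (Submodule.mem_span_singleton_self t')))
    rw [mem_sup_span_mkQ]
    exact ⟨c, by rw [map_sub, map_smul, hc]; abel⟩

theorem mem_cov_iff {S : Finset V} {X c : Submodule K V} :
    c ∈ cov S X ↔ ∃ s ∈ S, s ∉ X ∧ X ⊔ Submodule.span K {s} = c := by
  classical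
  unfold cov out
  simp only [Finset.mem_image, Finset.mem_filter, and_assoc]

/-- A long line gives a third point with nonzero coordinates. -/
theorem exists_coeffs {S : Finset V} {W : Submodule K V} {s t : V}
    (h : Long S W (W ⊔ Submodule.span K {s}) (W ⊔ Submodule.span K {t})) :
    ∃ r ∈ S, r ∉ W ∧ ∃ c c' : K, c ≠ 0 ∧ c' ≠ 0 ∧ W.mkQ r = c • W.mkQ s + c' • W.mkQ t := by
  obtain ⟨p, hp, hps, hpt, hle⟩ := h
  obtain ⟨r, hrS, hrW, rfl⟩ := mem_cov_iff.1 hp
  obtain ⟨c, c', hc⟩ := (mem_sup_sup_mkQ W r s t).1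
    (hle (Submodule.mem_sup_right (Submodule.mem_span_singleton_self r)))
  have hr0 : W.mkQ r ≠ 0 := by
    rw [Submodule.mkQ_apply, Ne, Submodule.Quotient.mk_eq_zero]
    exact hrW
  have key : ∀ (s' : V) (d : K), W.mkQ r = d • W.mkQ s' →
      W ⊔ Submodule.span K {r} = W ⊔ Submodule.span K {s'} := by
    intro s' d hd
    have hd0 : d ≠ 0 := by
      rintro rfl
      rw [zero_smul] at hd
      exact hr0 hd
    apply le_antisymm
    · refine sup_le le_sup_left ?_
      rw [Submodule.span_singleton_le_iff_mem, mem_sup_span_mkQ]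
      exact ⟨d, hd⟩
    · refine sup_le le_sup_left ?_
      rw [Submodule.span_singleton_le_iff_mem, mem_sup_span_mkQ]
      exact ⟨d⁻¹, by rw [hd, smul_smul, inv_mul_cancel₀ hd0, one_smul]⟩
  refine ⟨r, hrS, hrW, c, c', ?_, ?_, hc⟩
  · rintro rfl
    rw [zero_smul, zero_add] at hc
    exact hpt (key t c' hc)
  · rintro rfl
    rw [zero_smul, add_zero] at hc
    exact hps (key s c hc)

/-- A long triangle in a contraction gives one of the two rank-three minors. -/
theorem minor_of_not_triFree {v : α → V} {M : Matroid α} (hv : Represents K v M)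
    {S : Finset V} (hS : (S : Set V) = v '' M.E) {X : Finset V} (hX : X ⊆ S)
    (h : ¬ TriFree S (Submodule.span K (X : Set V))) :
    ∃ N : Matroid α, N ≤m M ∧ (IsMKFour N ∨ IsWThree N) := by
  have hXE : v '' (M.E ∩ v ⁻¹' (X : Set V)) = (X : Set V) := by
    ext t
    constructor
    · rintro ⟨e, ⟨-, he⟩, rfl⟩
      exact he
    · intro ht
      have : t ∈ v '' M.E := by rw [← hS]; exact hX ht
      obtain ⟨e, he, rfl⟩ := this
      exact ⟨e, ⟨he, ht⟩, rfl⟩
  obtain ⟨C, hCsub, hC, hspan⟩ := hv.exists_indep_span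
    (A := M.E ∩ v ⁻¹' (X : Set V)) inter_subset_left
  rw [hXE] at hspan
  rw [← hspan] at h
  set W := Submodule.span K (v '' C) with hW
  unfold TriFree at h
  push Not at h
  obtain ⟨p, hp, q, hq, r, hr, hpq, hpr, hqr, hrpq, l1, l2, l3⟩ := h
  obtain ⟨sa, hsaS, hsaW, rfl⟩ := mem_cov_iff.1 hp
  obtain ⟨sb, hsbS, hsbW, rfl⟩ := mem_cov_iff.1 hq
  obtain ⟨sc, hscS, hscW, rfl⟩ := mem_cov_iff.1 hr
  obtain ⟨sz, hszS, hszW, a3, b3, ha3, hb3, hz⟩ := exists_coeffs l1
  obtain ⟨sy, hsyS, hsyW, a2, c2, ha2, hc2, hy⟩ := exists_coeffs l2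
  obtain ⟨sx, hsxS, hsxW, b1, c1, hb1, hc1, hx⟩ := exists_coeffs l3
  have lift : ∀ s ∈ S, s ∉ W → ∃ e ∈ M.E, e ∉ C ∧ v e = s := by
    intro s hs hsW
    have : s ∈ v '' M.E := by rw [← hS]; exact hs
    obtain ⟨e, he, rfl⟩ := this
    exact ⟨e, he, fun heC => hsW (Submodule.subset_span ⟨e, heC, rfl⟩), rfl⟩
  obtain ⟨a, haE, haC, rfl⟩ := lift sa hsaS hsaW
  obtain ⟨b, hbE, hbC, rfl⟩ := lift sb hsbS hsbW
  obtain ⟨c, hcE, hcC, rfl⟩ := lift sc hscS hscW
  obtain ⟨x, hxE, hxC, rfl⟩ := lift sx hsxS hsxW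
  obtain ⟨y, hyE, hyC, rfl⟩ := lift sy hsyS hsyW
  obtain ⟨z, hzE, hzC, rfl⟩ := lift sz hszS hszW
  set E' : Set α := {a, b, c, x, y, z} with hE'
  have hE'E : E' ⊆ M.E := by
    intro t ht
    simp only [hE', Set.mem_insert_iff, Set.mem_singleton_iff] at ht
    rcases ht with h | h | h | h | h | h <;> rw [h] <;> assumption
  have hdisj : Disjoint E' C := by
    rw [disjoint_left]
    intro t ht
    simp only [hE', Set.mem_insert_iff, Set.mem_singleton_iff] at ht
    rcases ht with h | h | h | h | h | h <;> rw [h] <;> assumption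
  obtain ⟨hNE, hNI⟩ := hv.minor_indep hC hE'E hdisj
  refine ⟨M ／ C ＼ (M.E \ E'), Matroid.contract_delete_isMinor _ _ _, ?_⟩
  have habc : LinearIndependent K ![W.mkQ (v a), W.mkQ (v b), W.mkQ (v c)] := by
    rw [Fintype.linearIndependent_iff]
    intro g hg
    rw [Fin.sum_univ_three] at hg
    simp only [Matrix.cons_val_zero, Matrix.cons_val_one, Matrix.cons_val] at hg
    have hg2 : g 2 = 0 := by
      by_contra h0
      apply hrpq
      refine sup_le (le_sup_left.trans le_sup_left) ?_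
      rw [Submodule.span_singleton_le_iff_mem, mem_sup_sup_mkQ]
      refine ⟨-(g 0 / g 2), -(g 1 / g 2), ?_⟩
      have h3 : g 2 • W.mkQ (v c) = -(g 0 • W.mkQ (v a) + g 1 • W.mkQ (v b)) := by
        rw [eq_neg_iff_add_eq_zero, add_comm]; exact hg
      have h4 : W.mkQ (v c) = (g 2)⁻¹ • (g 2 • W.mkQ (v c)) := by
        rw [smul_smul, inv_mul_cancel₀ h0, one_smul]
      rw [h4, h3, smul_neg, smul_add, smul_smul, smul_smul, neg_add, neg_smul, neg_smul,
        div_eq_inv_mul, div_eq_inv_mul]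
    have hg1 : g 1 = 0 := by
      by_contra h0
      rw [hg2, zero_smul, add_zero] at hg
      have h3 : g 1 • W.mkQ (v b) = -(g 0 • W.mkQ (v a)) := by
        rw [eq_neg_iff_add_eq_zero, add_comm]; exact hg
      have h4 : W.mkQ (v b) = -((g 1)⁻¹ * g 0) • W.mkQ (v a) := by
        have : W.mkQ (v b) = (g 1)⁻¹ • (g 1 • W.mkQ (v b)) := by
          rw [smul_smul, inv_mul_cancel₀ h0, one_smul]
        rw [this, h3, smul_neg, smul_smul, neg_smul]
      have hb0 : W.mkQ (v b) ≠ 0 := by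
        rw [Submodule.mkQ_apply, Ne, Submodule.Quotient.mk_eq_zero]
        exact hsbW
      have hd0 : -((g 1)⁻¹ * g 0) ≠ 0 := by
        intro h5
        rw [h5, zero_smul] at h4
        exact hb0 h4
      apply hpq
      apply le_antisymm
      · refine sup_le le_sup_left ?_
        rw [Submodule.span_singleton_le_iff_mem, mem_sup_span_mkQ]
        refine ⟨(-((g 1)⁻¹ * g 0))⁻¹, ?_⟩
        rw [h4, smul_smul, inv_mul_cancel₀ hd0, one_smul]
      · refine sup_le le_sup_left ?_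
        rw [Submodule.span_singleton_le_iff_mem, mem_sup_span_mkQ]
        exact ⟨_, h4⟩
    have hg0 : g 0 = 0 := by
      rw [hg2, hg1, zero_smul, zero_smul, add_zero, add_zero] at hg
      rcases smul_eq_zero.1 hg with h | h
      · exact h
      · exfalso
        rw [Submodule.mkQ_apply, Submodule.Quotient.mk_eq_zero] at h
        exact hsaW h
    intro i
    fin_cases i
    · exact hg0
    · exact hg1
    · exact hg2
  refine six_points (u := W.mkQ ∘ v) (a := a) (b := b) (c := c) (x := x) (y := y) (z := z)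
    ?_ ?_ habc hb1 hc1 ha2 hc2 ha3 hb3 hx hy hz
  · intro I
    rw [hNE]
    exact hNI I
  · rw [hNE]

/-- Many covers of a coline give a long line as a minor. -/
theorem minor_of_cov {v : α → V} {M : Matroid α} (hv : Represents K v M) {S : Finset V}
    (hS : (S : Set V) = v '' M.E) {X : Finset V} (hX : X ⊆ S)
    (hdim : finrank K (V ⧸ Submodule.span K (X : Set V)) = 2) {n : ℕ} (hn2 : 2 ≤ n)
    (hn : n ≤ (cov S (Submodule.span K (X : Set V))).card) :
    ∃ N : Matroid α, N ≤m M ∧ IsUTwo n N := by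
  classical
  have hXE : v '' (M.E ∩ v ⁻¹' (X : Set V)) = (X : Set V) := by
    ext t
    constructor
    · rintro ⟨e, ⟨-, he⟩, rfl⟩
      exact he
    · intro ht
      have : t ∈ v '' M.E := by rw [← hS]; exact hX ht
      obtain ⟨e, he, rfl⟩ := this
      exact ⟨e, ⟨he, ht⟩, rfl⟩
  obtain ⟨C, hCsub, hC, hspan⟩ := hv.exists_indep_span
    (A := M.E ∩ v ⁻¹' (X : Set V)) inter_subset_left
  rw [hXE] at hspan
  rw [← hspan] at hn hdim
  set W := Submodule.span K (v '' C) with hW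
  obtain ⟨T, hT, hTn⟩ := Finset.exists_subset_card_eq hn
  have hrep : ∀ c : T, ∃ e ∈ M.E, e ∉ C ∧ v e ∉ W ∧ W ⊔ Submodule.span K {v e} = c.1 := by
    intro c
    obtain ⟨s, hs, hsW, hsc⟩ := mem_cov_iff.1 (hT c.2)
    have : s ∈ v '' M.E := by rw [← hS]; exact hs
    obtain ⟨e, he, rfl⟩ := this
    exact ⟨e, he, fun heC => hsW (Submodule.subset_span ⟨e, heC, rfl⟩), hsW, hsc⟩
  choose f hfE hfC hfW hfc using hrep
  have hfinj : Function.Injective f := by
    intro c d hcd
    apply Subtype.ext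
    rw [← hfc c, ← hfc d, hcd]
  set E' : Set α := Set.range f with hE'
  have hE'E : E' ⊆ M.E := by rintro _ ⟨c, rfl⟩; exact hfE c
  have hdisj : Disjoint E' C := by
    rw [disjoint_left]
    rintro _ ⟨c, rfl⟩
    exact hfC c
  have hcard : E'.ncard = n := by
    rw [hE', ← Set.image_univ, Set.ncard_image_of_injective _ hfinj, Set.ncard_univ,
      Nat.card_eq_fintype_card, Fintype.card_coe, hTn]
  have hE'fin : E'.Finite := Set.finite_of_ncard_pos (by omega)
  obtain ⟨hNE, hNI⟩ := hv.minor_indep hC hE'E hdisj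
  refine ⟨M ／ C ＼ (M.E \ E'), Matroid.contract_delete_isMinor _ _ _, ?_⟩
  have hpair : ∀ c d : T, c ≠ d → LinearIndepOn K (W.mkQ ∘ v) ({f c, f d} : Set α) := by
    intro c d hcd
    have hne : f c ∉ ({f d} : Set α) := by
      intro h
      exact hcd (hfinj (Set.mem_singleton_iff.1 h))
    rw [linearIndepOn_insert hne]
    constructor
    · rw [linearIndepOn_singleton_iff, Function.comp_apply, Submodule.mkQ_apply, Ne,
        Submodule.Quotient.mk_eq_zero]
      exact hfW d
    · rw [Set.image_singleton, Submodule.mem_span_singleton]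
      rintro ⟨t, ht⟩
      have hc0 : W.mkQ (v (f c)) ≠ 0 := by
        rw [Submodule.mkQ_apply, Ne, Submodule.Quotient.mk_eq_zero]
        exact hfW c
      have ht0 : t ≠ 0 := by
        rintro rfl
        rw [zero_smul] at ht
        exact hc0 ht.symm
      apply hcd
      apply Subtype.ext
      rw [← hfc c, ← hfc d]
      apply le_antisymm
      · refine sup_le le_sup_left ?_
        rw [Submodule.span_singleton_le_iff_mem, mem_sup_span_mkQ]
        exact ⟨t, ht.symm⟩
      · refine sup_le le_sup_left ?_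
        rw [Submodule.span_singleton_le_iff_mem, mem_sup_span_mkQ]
        refine ⟨t⁻¹, ?_⟩
        have ht' : t • W.mkQ (v (f d)) = W.mkQ (v (f c)) := ht
        rw [← ht', smul_smul, inv_mul_cancel₀ ht0, one_smul]
  obtain ⟨c₀, d₀, hcd₀⟩ : ∃ c d : T, c ≠ d := by
    have : 1 < T.card := by omega
    obtain ⟨c, hc, d, hd, hcd⟩ := Finset.one_lt_card.1 this
    exact ⟨⟨c, hc⟩, ⟨d, hd⟩, fun h => hcd (congrArg Subtype.val h)⟩
  have hpc : ({f c₀, f d₀} : Set α).ncard = 2 := Set.ncard_pair (fun h => hcd₀ (hfinj h))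
  refine ⟨by rw [hNE]; exact hcard, fun B => ?_⟩
  rw [isBase_iff_of_rep (u := W.mkQ ∘ v) (B₀ := {f c₀, f d₀}) (by intro I; rw [hNE]; exact hNI I)
    ?_ (hpair c₀ d₀ hcd₀) ?_ (Set.toFinite _) B, hpc, hNE]
  · constructor
    · rintro ⟨h1, -, h3⟩
      exact ⟨h1, h3⟩
    · rintro ⟨h1, h3⟩
      refine ⟨h1, ?_, h3⟩
      obtain ⟨s, t, hst, rfl⟩ := Set.ncard_eq_two.1 h3
      obtain ⟨c, rfl⟩ := h1 (Set.mem_insert _ _)
      obtain ⟨d, rfl⟩ := h1 (Set.mem_insert_of_mem _ rfl)
      exact hpair c d (fun h => hst (by rw [h]))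
  · rw [hNE]
    rintro t (rfl | rfl)
    · exact ⟨c₀, rfl⟩
    · exact ⟨d₀, rfl⟩
  · intro e _
    have hfd : FiniteDimensional K (V ⧸ W) := by
      apply Module.finite_of_finrank_pos
      omega
    have h1 := (hpair c₀ d₀ hcd₀)
    have h2 : Submodule.span K ((W.mkQ ∘ v) '' ({f c₀, f d₀} : Set α)) = ⊤ := by
      apply Submodule.eq_top_of_finrank_eq
      rw [hdim, Set.image_eq_range]
      rw [finrank_span_eq_card h1, Fintype.card_eq_nat_card, Nat.card_coe_set_eq, hpc]
    rw [h2]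
    trivial

end Pool.Agent.Lib.MP_fdd68d_co
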