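import Mathlib

/-!
The existence of a nowhere-zero functional does not depend on the representation of a matroid
over a finite field.
-/

namespace Pool.Agent.Lib.MP_fdd68d_co

open Module Set

universe u v w

variable {K : Type u} [Field K] [Fintype K] {α : Type*}

/-- functionals which do not vanish on the given vectors -/
def nowhereZero {V : Type*} [AddCommGroup V] [Module K V] (v : α → V) (E : Set α) :
    Set (V →ₗ[K] K) := {f | ∀ e ∈ E, f (v e) ≠ 0}

theorem finite_dual {V : Type*} [AddCommGroup V] [Module K V] [FiniteDimensional K V] :
    Finite (V →ₗ[K] K) := by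
  have : Module.Finite K (V →ₗ[K] K) := inferInstance
  exact Module.finite_of_finite K

theorem ncard_nowhereZero_insert {V : Type*} [AddCommGroup V] [Module K V]
    [FiniteDimensional K V] (v : α → V) (E : Set α) (e : α) :
    (nowhereZero (K := K) v E).ncard = (nowhereZero (K := K) v (insert e E)).ncard +
      (nowhereZero (K := K) ((Submodule.span K {v e}).mkQ ∘ v) E).ncard := by
  have hfin : Finite (V →ₗ[K] K) := finite_dual
  set φ : ((V ⧸ Submodule.span K {v e}) →ₗ[K] K) → (V →ₗ[K] K) :=
    fun g => g.comp (Submodule.span K {v e}).mkQ with hφ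
  have hφinj : Function.Injective φ := by
    intro g g' h
    exact (LinearMap.cancel_right (Submodule.mkQ_surjective _)).1 h
  have h1 : nowhereZero (K := K) v E = nowhereZero (K := K) v (insert e E) ∪
      φ '' nowhereZero (K := K) ((Submodule.span K {v e}).mkQ ∘ v) E := by
    ext f
    constructor
    · intro hf
      by_cases h0 : f (v e) = 0
      · right
        refine ⟨(Submodule.span K {v e}).liftQ f ?_, ?_, ?_⟩
        · rw [Submodule.span_singleton_le_iff_mem, LinearMap.mem_ker]
          exact h0
        · intro e' he'
          rw [Function.comp_apply, Submodule.mkQ_apply, Submodule.liftQ_apply]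
          exact hf e' he'
        · exact Submodule.liftQ_mkQ _ _ _
      · left
        rintro e' (rfl | he')
        · exact h0
        · exact hf e' he'
    · rintro (hf | ⟨g, hg, rfl⟩)
      · exact fun e' he' => hf e' (mem_insert_of_mem _ he')
      · exact fun e' he' => hg e' he'
  have h2 : Disjoint (nowhereZero (K := K) v (insert e E))
      (φ '' nowhereZero (K := K) ((Submodule.span K {v e}).mkQ ∘ v) E) := by
    rw [disjoint_left]
    rintro _ hf ⟨g, -, rfl⟩
    apply hf e (mem_insert _ _)
    rw [hφ, LinearMap.comp_apply]
    rw [Submodule.mkQ_apply, (Submodule.Quotient.mk_eq_zero _).2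
      (Submodule.mem_span_singleton_self _), map_zero]
  conv_lhs => rw [h1]
  rw [ncard_union_eq h2 (toFinite _) (toFinite _), ncard_image_of_injective _ hφinj]

theorem ncard_nowhereZero_transfer (E : Finset α) :
    ∀ {V : Type v} [AddCommGroup V] [Module K V] [FiniteDimensional K V]
      {W : Type w} [AddCommGroup W] [Module K W] [FiniteDimensional K W]
      (v : α → V) (w : α → W)
      (_ : ∀ I ⊆ (E : Set α), LinearIndepOn K v I ↔ LinearIndepOn K w I),
      (nowhereZero (K := K) v (E : Set α)).ncard * Fintype.card K ^ finrank K W =
        (nowhereZero (K := K) w (E : Set α)).ncard * Fintype.card K ^ finrank K V := by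
  classical
  induction E using Finset.induction_on with
  | empty =>
    intro V _ _ _ W _ _ _ v w _
    have key : ∀ {X : Type _} [AddCommGroup X] [Module K X] [FiniteDimensional K X] (x : α → X),
        (nowhereZero (K := K) x ((∅ : Finset α) : Set α)).ncard =
          Fintype.card K ^ finrank K X := by
      intro X _ _ _ x
      have h1 : nowhereZero (K := K) x ((∅ : Finset α) : Set α) = Set.univ := by
        ext f
        simp [nowhereZero]
      rw [h1, Set.ncard_univ, ← Nat.card_eq_fintype_card,
        Module.natCard_eq_pow_finrank (K := K) (V := X →ₗ[K] K), Subspace.dual_finrank_eq]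
    have key' : ∀ {X : Type _} [AddCommGroup X] [Module K X] [FiniteDimensional K X] (x : α → X),
        (nowhereZero (K := K) x ((∅ : Finset α) : Set α)).ncard =
          Fintype.card K ^ finrank K X := by
      intro X _ _ _ x
      have h1 : nowhereZero (K := K) x ((∅ : Finset α) : Set α) = Set.univ := by
        ext f
        simp [nowhereZero]
      rw [h1, Set.ncard_univ, ← Nat.card_eq_fintype_card,
        Module.natCard_eq_pow_finrank (K := K) (V := X →ₗ[K] K), Subspace.dual_finrank_eq]
    rw [key v, key' w, mul_comm]
  | insert e E he ih =>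
    intro V _ _ _ W _ _ _ v w hvw
    rw [Finset.coe_insert] at hvw ⊢
    by_cases hve : v e = 0
    · have hwe : w e = 0 := by
        by_contra hwe
        have h1 := (hvw {e} (by simp)).2 ((linearIndepOn_singleton_iff K).2 hwe)
        exact (linearIndepOn_singleton_iff K).1 h1 hve
      have h1 : nowhereZero (K := K) v (insert e (E : Set α)) = ∅ := by
        ext f
        simp only [mem_empty_iff_false, iff_false]
        intro hf
        exact hf e (mem_insert _ _) (by rw [hve, map_zero])
      have h2 : nowhereZero (K := K) w (insert e (E : Set α)) = ∅ := by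
        ext f
        simp only [mem_empty_iff_false, iff_false]
        intro hf
        exact hf e (mem_insert _ _) (by rw [hwe, map_zero])
      rw [h1, h2, ncard_empty, ncard_empty, zero_mul, zero_mul]
    · have hwe : w e ≠ 0 := by
        have h1 := (hvw {e} (by simp)).1 ((linearIndepOn_singleton_iff K).2 hve)
        exact (linearIndepOn_singleton_iff K).1 h1
      have hI1 : ∀ I ⊆ (E : Set α), LinearIndepOn K v I ↔ LinearIndepOn K w I :=
        fun I hI => hvw I (hI.trans (subset_insert _ _))
      have hI2 : ∀ I ⊆ (E : Set α),
          LinearIndepOn K ((Submodule.span K {v e}).mkQ ∘ v) I ↔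
            LinearIndepOn K ((Submodule.span K {w e}).mkQ ∘ w) I := by
        intro I hI
        have hd : Disjoint ({e} : Set α) I := by
          rw [disjoint_singleton_left]
          exact fun h => he (hI h)
        have a1 := ((linearIndepOn_singleton_iff K).2 hve : LinearIndepOn K v {e}).quotient_iff_union hd
        have a2 := ((linearIndepOn_singleton_iff K).2 hwe : LinearIndepOn K w {e}).quotient_iff_union hd
        rw [image_singleton] at a1 a2
        rw [a1, a2]
        exact hvw _ (by
          rw [singleton_union]
          exact insert_subset_insert hI)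
      have e1 := ih v w hI1
      have e2 := ih ((Submodule.span K {v e}).mkQ ∘ v) ((Submodule.span K {w e}).mkQ ∘ w) hI2
      have d1 : finrank K (V ⧸ Submodule.span K {v e}) + 1 = finrank K V := by
        rw [← finrank_span_singleton (K := K) hve, Submodule.finrank_quotient_add_finrank]
      have d2 : finrank K (W ⧸ Submodule.span K {w e}) + 1 = finrank K W := by
        rw [← finrank_span_singleton (K := K) hwe, Submodule.finrank_quotient_add_finrank]
      have s1 := ncard_nowhereZero_insert (K := K) v (E : Set α) e
      have s2 := ncard_nowhereZero_insert (K := K) w (E : Set α) e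
      rw [s1, s2] at e1
      rw [← d1, ← d2, pow_succ, pow_succ] at e1 ⊢
      generalize (nowhereZero (K := K) v (insert e (E : Set α))).ncard = A1 at *
      generalize (nowhereZero (K := K) w (insert e (E : Set α))).ncard = A2 at *
      generalize (nowhereZero (K := K) ((Submodule.span K {v e}).mkQ ∘ v) (E : Set α)).ncard = B1
        at *
      generalize (nowhereZero (K := K) ((Submodule.span K {w e}).mkQ ∘ w) (E : Set α)).ncard = B2
        at *
      generalize Fintype.card K ^ finrank K (V ⧸ Submodule.span K {v e}) = p1 at *
      generalize Fintype.card K ^ finrank K (W ⧸ Submodule.span K {w e}) = p2 at *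
      have e3 : B1 * (p2 * Fintype.card K) = B2 * (p1 * Fintype.card K) := by
        rw [← mul_assoc, ← mul_assoc, e2]
      rw [add_mul, add_mul, e3] at e1
      exact Nat.add_right_cancel e1

/-- The existence of a nowhere-zero functional is a matroid property. -/
theorem nowhereZero_transfer {V : Type v} [AddCommGroup V] [Module K V] [FiniteDimensional K V]
    {W : Type w} [AddCommGroup W] [Module K W] [FiniteDimensional K W] {E : Set α} (hE : E.Finite)
    (v : α → V) (w : α → W) (hvw : ∀ I ⊆ E, LinearIndepOn K v I ↔ LinearIndepOn K w I)
    (h : ∃ g : W →ₗ[K] K, ∀ e ∈ E, g (w e) ≠ 0) : ∃ f : V →ₗ[K] K, ∀ e ∈ E, f (v e) ≠ 0 := by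
  obtain ⟨E, rfl⟩ := hE.exists_finset_coe
  have h1 := ncard_nowhereZero_transfer E v w hvw
  have hfV : Finite (V →ₗ[K] K) := finite_dual
  have hfW : Finite (W →ₗ[K] K) := finite_dual
  obtain ⟨g, hg⟩ := h
  have h2 : 0 < (nowhereZero (K := K) w (E : Set α)).ncard :=
    (Set.ncard_pos (toFinite _)).2 ⟨g, hg⟩
  have h3 : 0 < (nowhereZero (K := K) v (E : Set α)).ncard := by
    have hq : 0 < Fintype.card K := Fintype.card_pos
    have : 0 < (nowhereZero (K := K) v (E : Set α)).ncard * Fintype.card K ^ finrank K W := by
      rw [h1]; positivity
    exact Nat.pos_of_mul_pos_right this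
  obtain ⟨f, hf⟩ := (Set.ncard_pos (toFinite _)).1 h3
  exact ⟨f, hf⟩

end Pool.Agent.Lib.MP_fdd68d_co
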