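import Pool.Agent.Lib.MP_fdd68d_co.Contract
import Pool.Agent.Lib.MP_fdd68d_co.Minors
import Pool.Agent.Lib.MP_fdd68d_co.Transfer

/-!
Tangential 1-blocks and the passage to sets of vectors.
-/

namespace Pool.Agent.Lib.MP_fdd68d_co

open Module Set
open scoped Matroid

/-- The critical exponent over `K` of (the simplification of) `N` is at most one: in some
representation over `K` some hyperplane misses all nonloops of `N`.  (By the theorem of Crapo and
Rota this does not depend on the representation; this is also proved in `Transfer.lean`.) -/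
def CritLeOne (K : Type*) [Field K] {α : Type*} (N : Matroid α) : Prop :=
  ∃ (n : ℕ) (w : α → (Fin n → K)), Represents K w N ∧
    ∃ f : (Fin n → K) →ₗ[K] K, ∀ e, N.IsNonloop e → f (w e) ≠ 0

/-- Tangential 1-blocks over `K`: finite simple matroids, representable over `K`, with critical
exponent greater than one, all of whose proper minors have critical exponent at most one. -/
structure IsTangentialOneBlock (K : Type*) [Field K] {α : Type*} (M : Matroid α) : Prop where
  finite : M.E.Finite
  simple : ∀ e ∈ M.E, ∀ f ∈ M.E, M.Indep {e, f}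
  representable : ∃ (n : ℕ) (v : α → (Fin n → K)), Represents K v M
  block : ¬ CritLeOne K M
  minor : ∀ N : Matroid α, N <m M → CritLeOne K N

/-- The vector configuration of a tangential 1-block without `U_{2,m+1}`, `M(K₄)`, `W³` as
minors. -/
theorem exists_config (K : Type*) [Field K] [Fintype K] {α : Type*} (M : Matroid α)
    (hM : IsTangentialOneBlock K M) {m : ℕ} (hm : 1 ≤ m)
    (hcon : ∀ N : Matroid α, N ≤m M → ¬ IsUTwo (m + 1) N ∧ ¬ IsMKFour N ∧ ¬ IsWThree N) :
    ∃ (n : ℕ) (V : Submodule K (Fin n → K)) (S : Finset V), 1 ≤ finrank K V ∧ Geometry K S ∧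
      Submodule.span K (S : Set V) = ⊤ ∧
      (∀ f : V →ₗ[K] K, ∃ s ∈ S, f s = 0) ∧
      (∀ H : Submodule K V, finrank K (V ⧸ H) = 1 →
        ∃ f : V →ₗ[K] K, ∀ s ∈ S, s ∈ H → f s ≠ 0) ∧
      (∀ X : Finset V, X ⊆ S → TriFree S (Submodule.span K (X : Set V))) ∧
      (∀ X : Finset V, X ⊆ S → finrank K (V ⧸ Submodule.span K (X : Set V)) = 2 →
        (cov S (Submodule.span K (X : Set V))).card ≤ m) := by
  classical
  obtain ⟨n, v₀, hv₀⟩ := hM.representable
  -- a spanning representation
  set V : Submodule K (Fin n → K) := Submodule.span K (v₀ '' M.E) with hV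
  have hmem : ∀ e ∈ M.E, v₀ e ∈ V := fun e he => Submodule.subset_span ⟨e, he, rfl⟩
  set v : α → V := fun e => if he : e ∈ M.E then ⟨v₀ e, hmem e he⟩ else 0 with hvdef
  have hvv : ∀ e ∈ M.E, (v e : Fin n → K) = v₀ e := by
    intro e he
    simp only [hvdef, dif_pos he]
  have hv : Represents K v M := by
    intro I
    rw [hv₀]
    refine and_congr_right fun hI => ?_
    have h1 : LinearIndepOn K v₀ I ↔ LinearIndepOn K (V.subtype ∘ v) I :=
      linearIndepOn_congr fun e he => (hvv e (hI he)).symm
    rw [h1]
    exact V.subtype.linearIndepOn_iff_of_injOn (V.injective_subtype.injOn)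
  set S : Finset V := hM.finite.toFinset.image v with hSdef
  have hS : (S : Set V) = v '' M.E := by
    rw [hSdef, Finset.coe_image, Set.Finite.coe_toFinset]
  have hspan : Submodule.span K (S : Set V) = ⊤ := by
    apply Submodule.map_injective_of_injective V.injective_subtype
    rw [Submodule.map_subtype_top, Submodule.map_span, hS, ← image_comp]
    have h1 : (V.subtype ∘ v) '' M.E = v₀ '' M.E := image_congr fun e he => hvv e he
    rw [h1]
  have hnonloop : ∀ e, M.IsNonloop e → e ∈ M.E := fun e he => he.mem_ground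
  -- no functional avoids all points
  have hblock : ∀ f : V →ₗ[K] K, ∃ s ∈ S, f s = 0 := by
    intro f
    by_contra hno
    push Not at hno
    apply hM.block
    have e : V ≃ₗ[K] (Fin (finrank K V) → K) := LinearEquiv.ofFinrankEq _ _ (by
      rw [finrank_fin_fun])
    refine ⟨finrank K V, e ∘ v, ?_, f.comp e.symm.toLinearMap, ?_⟩
    · intro I
      rw [hv]
      refine and_congr_right fun hI => ?_
      exact (e.toLinearMap.linearIndepOn_iff_of_injOn e.injective.injOn).symm
    · intro a ha
      rw [LinearMap.comp_apply, Function.comp_apply, LinearEquiv.coe_coe, e.symm_apply_apply]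
      apply hno
      rw [← Finset.mem_coe, hS]
      exact ⟨a, hnonloop a ha, rfl⟩
  -- the points in a hyperplane are affine
  have haff : ∀ H : Submodule K V, finrank K (V ⧸ H) = 1 →
      ∃ f : V →ₗ[K] K, ∀ s ∈ S, s ∈ H → f s ≠ 0 := by
    intro H hH
    set E' : Set α := {e ∈ M.E | v e ∈ H} with hE'
    have hE'E : E' ⊆ M.E := fun e he => he.1
    have hne : E' ≠ M.E := by
      intro heq
      have h1 : Submodule.span K (S : Set V) ≤ H := by
        rw [Submodule.span_le, hS]
        rintro _ ⟨e, he, rfl⟩
        rw [← heq] at he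
        exact he.2
      rw [hspan, top_le_iff] at h1
      rw [h1] at hH
      have := Submodule.finrank_quotient_add_finrank (⊤ : Submodule K V)
      rw [finrank_top] at this
      omega
    have hstrict : M ＼ (M.E \ E') <m M := by
      rw [Matroid.isStrictMinor_iff_isMinor_ssubset]
      refine ⟨⟨∅, M.E \ E', by simp⟩, ?_⟩
      rw [Matroid.delete_ground, sdiff_sdiff_cancel_left hE'E]
      exact hE'E.ssubset_of_ne hne
    obtain ⟨m, w, hw, g, hg⟩ := hM.minor _ hstrict
    have hNE : (M ＼ (M.E \ E')).E = E' := by
      rw [Matroid.delete_ground, sdiff_sdiff_cancel_left hE'E]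
    have hIff : ∀ I ⊆ E', LinearIndepOn K v I ↔ LinearIndepOn K w I := by
      intro I hI
      have h1 : M.Indep I ↔ (M ＼ (M.E \ E')).Indep I := by
        rw [Matroid.delete_indep_iff]
        refine ⟨fun h => ⟨h, ?_⟩, fun h => h.1⟩
        rw [disjoint_left]
        exact fun e he h2 => h2.2 (hI he)
      rw [hv, hw, hNE] at h1
      simpa [hI, hI.trans hE'E] using h1
    obtain ⟨f, hf⟩ := nowhereZero_transfer (hM.finite.subset hE'E) v w hIff ⟨g, fun e he => by
      apply hg
      rw [← Matroid.indep_singleton, Matroid.delete_indep_iff]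
      refine ⟨(hM.simple e he.1 e he.1).subset (by simp), ?_⟩
      rw [disjoint_singleton_left]
      exact fun h2 => h2.2 he⟩
    refine ⟨f, fun s hs hsH => ?_⟩
    rw [← Finset.mem_coe, hS] at hs
    obtain ⟨e, he, rfl⟩ := hs
    exact hf e ⟨he, hsH⟩
  -- triangle-free contractions and few covers
  have htf : ∀ X : Finset V, X ⊆ S → TriFree S (Submodule.span K (X : Set V)) := by
    intro X hX
    by_contra hno
    obtain ⟨N, hN, h1⟩ := minor_of_not_triFree hv hS hX hno
    obtain ⟨h2, h3, h4⟩ := hcon N hN
    exact h1.elim h3 h4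
  have hD : ∀ X : Finset V, X ⊆ S → finrank K (V ⧸ Submodule.span K (X : Set V)) = 2 →
      (cov S (Submodule.span K (X : Set V))).card ≤ m := by
    intro X hX hdim
    by_contra hno
    push Not at hno
    obtain ⟨N, hN, h1⟩ := minor_of_cov hv hS hX hdim (n := m + 1) (by omega) hno
    exact (hcon N hN).1 h1
  -- the vectors are nonzero and pairwise independent
  have hgeo : Geometry K S := by
    intro s hs
    rw [← Finset.mem_coe, hS] at hs
    obtain ⟨a, ha, rfl⟩ := hs
    refine ⟨?_, ?_⟩
    · have h1 : M.Indep {a} := (hM.simple a ha a ha).subset (by simp)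
      exact (linearIndepOn_singleton_iff (v := v) K).1 ((hv _).1 h1).2
    · intro t ht hne
      rw [← Finset.mem_coe, hS] at ht
      obtain ⟨b, hb, rfl⟩ := ht
      have h1 := ((hv _).1 (hM.simple b hb a ha)).2
      have hba : b ∉ ({a} : Set α) := by
        intro h
        exact hne (by rw [mem_singleton_iff.1 h])
      rw [linearIndepOn_insert hba, image_singleton] at h1
      exact h1.2
  have hV1 : 1 ≤ finrank K V := by
    obtain ⟨s, hs, -⟩ := hblock 0
    have : Nontrivial V := ⟨⟨s, 0, (hgeo s hs).1⟩⟩
    exact finrank_pos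
  exact ⟨n, V, S, hV1, hgeo, hspan, hblock, haff, htf, hD⟩

end Pool.Agent.Lib.MP_fdd68d_co
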