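import Mathlib

/-!
The polynomial lemma behind the bound for colines of a one-block: a product of at most
`d + q - 2` lines of `AG(2,q)` with `d ≤ q` directions misses a point.
-/

namespace Pool.Agent.Lib.MP_fdd68d_co

open Polynomial

variable {K : Type*} [Field K]

/-- A monic polynomial of degree `n ≤ d + q - 2` with at least `d` distinct roots in the field with
`q ≥ d` elements has a nonzero coefficient in the middle range. -/
theorem exists_middle_coeff [Fintype K] (g : K[X]) (hg : g.Monic) (Z : Finset K)
    (hZ : ∀ z ∈ Z, g.eval z = 0) (hd : Z.card ≤ Fintype.card K)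
    (hn : g.natDegree + 2 ≤ Z.card + Fintype.card K) :
    ∃ a, a ≤ g.natDegree ∧ g.natDegree + 1 ≤ a + Fintype.card K ∧ a + 1 ≤ Fintype.card K ∧
      g.coeff a ≠ 0 := by
  classical
  set q := Fintype.card K with hq
  set n := g.natDegree with hn'
  have hq1 : 1 < q := Fintype.one_lt_card
  by_cases hnq : n + 1 ≤ q
  · refine ⟨n, le_rfl, by omega, hnq, ?_⟩
    rw [hn', coeff_natDegree, hg.leadingCoeff]
    exact one_ne_zero
  by_contra hcon
  push Not at hcon
  have hzero : ∀ a, n + 1 ≤ a + q → a + 1 ≤ q → g.coeff a = 0 := by
    intro a h1 h2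
    exact hcon a (by omega) h1 h2
  obtain ⟨m, hm⟩ : ∃ m, n = m + q := ⟨n - q, by omega⟩
  set h : K[X] := ∑ i ∈ Finset.range (m + 1), C (g.coeff (q + i)) * X ^ (i + 1) +
    ∑ i ∈ Finset.range (m + 1), C (g.coeff i) * X ^ i with hh
  have hcoef : h.coeff (m + 1) = 1 := by
    rw [hh]
    simp only [coeff_add, finsetSum_coeff, coeff_C_mul, coeff_X_pow]
    rw [Finset.sum_eq_single m, Finset.sum_eq_zero]
    · rw [if_pos rfl, add_zero, mul_one, add_comm q m, ← hm, hn', coeff_natDegree,
        hg.leadingCoeff]
    · intro i hi
      rw [Finset.mem_range] at hi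
      rw [if_neg (by omega), mul_zero]
    · intro i _ hi
      rw [if_neg (by omega), mul_zero]
    · intro hi
      exact absurd (Finset.mem_range.2 (Nat.lt_succ_self m)) hi
  have hdeg : h.natDegree ≤ m + 1 := by
    rw [hh]
    refine natDegree_add_le_of_degree_le ?_ ?_
    · refine natDegree_sum_le_of_forall_le _ _ ?_
      intro i hi
      rw [Finset.mem_range] at hi
      exact (natDegree_C_mul_X_pow_le _ _).trans (by omega)
    · refine natDegree_sum_le_of_forall_le _ _ ?_
      intro i hi
      rw [Finset.mem_range] at hi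
      exact (natDegree_C_mul_X_pow_le _ _).trans (by omega)
  have hne : h ≠ 0 := by
    intro h0
    rw [h0, coeff_zero] at hcoef
    exact zero_ne_one hcoef
  have heval : ∀ z ∈ Z, h.eval z = 0 := by
    intro z hz
    have h1 := hZ z hz
    rw [eval_eq_sum_range, ← hn', hm] at h1
    have hsplit : ∑ i ∈ Finset.range (m + q + 1), g.coeff i * z ^ i =
        ∑ i ∈ Finset.range q, g.coeff i * z ^ i +
          ∑ i ∈ Finset.range (m + 1), g.coeff (q + i) * z ^ (q + i) := by
      rw [show m + q + 1 = q + (m + 1) by ring, Finset.sum_range_add]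
    have hlow : ∑ i ∈ Finset.range q, g.coeff i * z ^ i =
        ∑ i ∈ Finset.range (m + 1), g.coeff i * z ^ i := by
      symm
      apply Finset.sum_subset
      · intro i hi
        rw [Finset.mem_range] at hi ⊢
        omega
      · intro i hi hi'
        rw [Finset.mem_range] at hi hi'
        rw [hzero i (by omega) (by omega), zero_mul]
    rw [hsplit, hlow] at h1
    rw [hh, eval_add, eval_finsetSum, eval_finsetSum]
    simp only [eval_mul, eval_C, eval_pow, eval_X]
    rw [← h1, add_comm]
    congr 1
    apply Finset.sum_congr rfl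
    intro i _
    rw [pow_add z q i, hq, FiniteField.pow_card, pow_succ]
    ring
  have hcard : Z.card ≤ h.natDegree := by
    have : Z ⊆ h.roots.toFinset := by
      intro z hz
      rw [Multiset.mem_toFinset, mem_roots hne]
      exact heval z hz
    calc Z.card ≤ h.roots.toFinset.card := Finset.card_le_card this
      _ ≤ Multiset.card h.roots := Multiset.toFinset_card_le _
      _ ≤ h.natDegree := card_roots' h
  omega

/-- The coefficients of the leading form of a product of affine-linear bivariate polynomials. -/
theorem coeff_prod_linear {ι : Type*} (s : Finset ι) (m k : ι → K) (a : ℕ) (ha : a ≤ s.card) :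
    (∏ i ∈ s, (MvPolynomial.X 0 + MvPolynomial.C (m i) * MvPolynomial.X 1 +
      MvPolynomial.C (k i) : MvPolynomial (Fin 2) K)).coeff
        (Finsupp.single 0 a + Finsupp.single 1 (s.card - a)) =
    (∏ i ∈ s, (X + C (m i))).coeff a := by
  classical
  -- substitute `X₀ = T U`, `X₁ = U`
  set φ : MvPolynomial (Fin 2) K →ₐ[K] K[X][X] :=
    MvPolynomial.aeval ![C X * X, X] with hφ
  have key : ∀ (P : MvPolynomial (Fin 2) K) (n : ℕ), a ≤ n →
      ((φ P).coeff n).coeff a = P.coeff (Finsupp.single 0 a + Finsupp.single 1 (n - a)) := by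
    intro P n han
    induction P using MvPolynomial.induction_on' with
    | monomial u c =>
      rw [MvPolynomial.coeff_monomial, hφ, MvPolynomial.aeval_monomial,
        Finsupp.prod_fintype _ _ (fun i => pow_zero _), Fin.prod_univ_two]
      have h1 : (algebraMap K K[X][X]) c = C (C c) := rfl
      simp only [Matrix.cons_val_zero, Matrix.cons_val_one, h1]
      have h5 : (C (C c) * ((C X * X) ^ u 0 * X ^ u 1) : K[X][X]) =
          C (C c) * (C (X ^ u 0) * X ^ (u 0 + u 1)) := by
        rw [mul_pow, pow_add, C_pow]; ring
      rw [h5, coeff_C_mul, coeff_C_mul, coeff_C_mul, coeff_X_pow]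
      by_cases hu : u = Finsupp.single 0 a + Finsupp.single 1 (n - a)
      · have e0 : u 0 = a := by rw [hu]; simp
        have e1 : u 1 = n - a := by rw [hu]; simp
        rw [if_pos hu, e0, e1, if_pos (by omega), mul_one, coeff_X_pow, if_pos rfl, mul_one]
      · rw [if_neg hu]
        by_cases hn : n = u 0 + u 1
        · rw [if_pos hn, mul_one, coeff_X_pow]
          by_cases ha0 : a = u 0
          · exfalso
            apply hu
            ext i
            fin_cases i
            · simp [ha0]
            · simp; omega
          · rw [if_neg ha0, mul_zero]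
        · rw [if_neg hn, mul_zero, coeff_zero, mul_zero]
    | add p r hp hr => rw [map_add, coeff_add, coeff_add, MvPolynomial.coeff_add, hp, hr]
  rw [← key _ _ ha, map_prod]
  have h2 : ∀ i, φ (MvPolynomial.X 0 + MvPolynomial.C (m i) * MvPolynomial.X 1 +
      MvPolynomial.C (k i)) = C (X + C (m i)) * X + C (C (k i)) := by
    intro i
    have h1 : ∀ c, φ (MvPolynomial.C c) = C (C c) := by
      intro c
      rw [hφ, MvPolynomial.aeval_C]
      rfl
    rw [map_add, map_add, map_mul, h1, h1, hφ, MvPolynomial.aeval_X, MvPolynomial.aeval_X]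
    simp only [Matrix.cons_val_zero, Matrix.cons_val_one, C_add]
    ring
  simp only [h2]
  have h3 := coeff_prod_of_natDegree_le (s := s)
    (f := fun i => C (X + C (m i)) * X + C (C (k i))) 1 (by
      intro i _
      refine natDegree_add_le_of_degree_le ?_ ?_
      · refine (natDegree_mul_le).trans ?_
        simp
      · simp)
  rw [mul_one] at h3
  rw [h3]
  congr 1
  apply Finset.prod_congr rfl
  intro i _
  simp

end Pool.Agent.Lib.MP_fdd68d_co
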