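import Pool.Agent.Lib.MP_fdd68d_co.Geo
import Pool.Agent.Lib.MP_fdd68d_co.Jpoly

/-!
The two counting consequences of being a one-block: cocircuits have at least `q` elements and
colines with at most `q` covers have large excess.
-/

namespace Pool.Agent.Lib.MP_fdd68d_co

open Module

variable {K V : Type*} [Field K] [AddCommGroup V] [Module K V]

open Classical in
/-- Lines `α + m β + k = 0` of `AG(2,q)` with at most `q` different slopes `m`, few in number,
do not cover the plane. -/
theorem exists_uncovered [Fintype K] {ι : Type*} (s : Finset ι) (m k : ι → K)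
    (hd : (s.image m).card ≤ Fintype.card K)
    (hn : s.card + 2 ≤ (s.image m).card + Fintype.card K) :
    ∃ α β : K, ∀ i ∈ s, α + m i * β + k i ≠ 0 := by
  set g : Polynomial K := ∏ i ∈ s, (Polynomial.X + Polynomial.C (m i)) with hg
  have hmonic : g.Monic := Polynomial.monic_prod_of_monic _ _
    (fun i _ => Polynomial.monic_X_add_C _)
  have hdeg : g.natDegree = s.card := by
    rw [hg, Polynomial.natDegree_prod_of_monic _ _ (fun i _ => Polynomial.monic_X_add_C _)]
    simp
  set Z : Finset K := (s.image m).image (fun x => -x) with hZ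
  have hZc : Z.card = (s.image m).card :=
    Finset.card_image_of_injective _ neg_injective
  obtain ⟨a, ha1, ha2, ha3, ha4⟩ := exists_middle_coeff g hmonic Z (by
    intro z hz
    rw [hZ, Finset.mem_image] at hz
    obtain ⟨y, hy, rfl⟩ := hz
    rw [Finset.mem_image] at hy
    obtain ⟨i, hi, rfl⟩ := hy
    rw [hg, Polynomial.eval_prod]
    exact Finset.prod_eq_zero hi (by simp)) (by rw [hZc]; exact hd) (by rw [hZc, hdeg]; exact hn)
  rw [hdeg] at ha1 ha2
  set P : MvPolynomial (Fin 2) K := ∏ i ∈ s, (MvPolynomial.X 0 +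
    MvPolynomial.C (m i) * MvPolynomial.X 1 + MvPolynomial.C (k i)) with hP
  set t : Fin 2 →₀ ℕ := Finsupp.single 0 a + Finsupp.single 1 (s.card - a) with ht
  have hcoef : P.coeff t ≠ 0 := by
    rw [hP, ht, coeff_prod_linear s m k a ha1]
    exact ha4
  have htdeg : t.degree = s.card := by
    rw [ht, map_add, Finsupp.degree_single, Finsupp.degree_single]
    omega
  have htot : P.totalDegree = t.degree := by
    apply le_antisymm
    · rw [htdeg, hP]
      refine (MvPolynomial.totalDegree_finsetProd _ _).trans ?_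
      calc ∑ i ∈ s, (MvPolynomial.X 0 + MvPolynomial.C (m i) * MvPolynomial.X 1 +
            MvPolynomial.C (k i) : MvPolynomial (Fin 2) K).totalDegree ≤ ∑ i ∈ s, 1 := by
            refine Finset.sum_le_sum (fun i _ => ?_)
            refine (MvPolynomial.totalDegree_add _ _).trans (max_le ?_ (by simp))
            refine (MvPolynomial.totalDegree_add _ _).trans (max_le (by simp) ?_)
            refine (MvPolynomial.totalDegree_mul _ _).trans (by simp)
        _ = s.card := by simp
    · have := MvPolynomial.le_totalDegree (MvPolynomial.mem_support_iff.2 hcoef)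
      rwa [Finsupp.degree_eq_sum, ← Finsupp.sum_fintype t (fun _ e => e) (fun _ => rfl)]
  obtain ⟨x, -, hx⟩ := MvPolynomial.combinatorial_nullstellensatz_exists_eval_nonzero P t hcoef
    htot (fun _ => Finset.univ) (by
      intro i
      rw [Finset.card_univ]
      fin_cases i
      · simp only [ht, Fin.zero_eta, Finsupp.coe_add, Pi.add_apply, Finsupp.single_eq_same]
        rw [Finsupp.single_eq_of_ne (by decide)]
        omega
      · simp only [ht, Fin.mk_one, Finsupp.coe_add, Pi.add_apply, Finsupp.single_eq_same]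
        rw [Finsupp.single_eq_of_ne (by decide)]
        omega)
  refine ⟨x 0, x 1, ?_⟩
  intro i hi h0
  apply hx
  rw [hP, map_prod]
  exact Finset.prod_eq_zero hi (by simpa using h0)

/-- cocircuits of a one-block. -/
theorem C_hyper [Fintype K] [FiniteDimensional K V] (S : Finset V)
    (hblock : ∀ f : V →ₗ[K] K, ∃ s ∈ S, f s = 0) (H : Submodule K V)
    (hH : finrank K (V ⧸ H) = 1) (haff : ∃ f : V →ₗ[K] K, ∀ s ∈ S, s ∈ H → f s ≠ 0) :
    Fintype.card K ≤ (out S H).card := by
  classical
  obtain ⟨f0, hf0⟩ := haff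
  have e : (V ⧸ H) ≃ₗ[K] K := LinearEquiv.ofFinrankEq _ _ (by rw [hH, finrank_self])
  set X : V →ₗ[K] K := e.toLinearMap.comp H.mkQ with hX
  have hXker : ∀ v, X v = 0 ↔ v ∈ H := by
    intro v
    rw [hX, LinearMap.comp_apply, LinearEquiv.coe_coe, e.map_eq_zero_iff, Submodule.mkQ_apply,
      Submodule.Quotient.mk_eq_zero]
  by_contra hlt
  push Not at hlt
  have himg : ((out S H).image (fun s => -(f0 s / X s))).card < Fintype.card K :=
    lt_of_le_of_lt Finset.card_image_le hlt
  obtain ⟨α, hα⟩ : ∃ α : K, α ∉ (out S H).image (fun s => -(f0 s / X s)) := by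
    by_contra hall
    push Not at hall
    have : (out S H).image (fun s => -(f0 s / X s)) = Finset.univ := by
      ext x; simp only [Finset.mem_univ, iff_true]; exact hall x
    rw [this, Finset.card_univ] at himg
    exact lt_irrefl _ himg
  obtain ⟨s, hsS, hs0⟩ := hblock (f0 + α • X)
  rw [LinearMap.add_apply, LinearMap.smul_apply, smul_eq_mul] at hs0
  by_cases hsH : s ∈ H
  · rw [(hXker s).2 hsH, mul_zero, add_zero] at hs0
    exact hf0 s hsS hsH hs0
  · apply hα
    rw [Finset.mem_image]
    refine ⟨s, mem_out.2 ⟨hsS, hsH⟩, ?_⟩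
    have hXs : X s ≠ 0 := fun h => hsH ((hXker s).1 h)
    field_simp
    linear_combination -hs0

/-- The cover of `F` determined by a vector is determined by the ratio of two functionals. -/
theorem sup_span_eq_iff {F : Submodule K V} (X Y : V →ₗ[K] K)
    (hXY : ∀ v, v ∈ F ↔ X v = 0 ∧ Y v = 0) {s t : V} (hs : X s ≠ 0) (ht : X t ≠ 0) :
    F ⊔ Submodule.span K {s} = F ⊔ Submodule.span K {t} ↔ Y s / X s = Y t / X t := by
  constructor
  · intro h
    have h1 : s ∈ F ⊔ Submodule.span K {t} := by
      rw [← h]; exact Submodule.mem_sup_right (Submodule.mem_span_singleton_self s)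
    obtain ⟨f, hf, w, hw, hfw⟩ := Submodule.mem_sup.1 h1
    obtain ⟨c, rfl⟩ := Submodule.mem_span_singleton.1 hw
    obtain ⟨hfX, hfY⟩ := (hXY f).1 hf
    have hX : X s = c * X t := by rw [← hfw, map_add, map_smul, hfX, zero_add, smul_eq_mul]
    have hY : Y s = c * Y t := by rw [← hfw, map_add, map_smul, hfY, zero_add, smul_eq_mul]
    have hc : c ≠ 0 := by rintro rfl; rw [zero_mul] at hX; exact hs hX
    rw [hX, hY, mul_div_mul_left _ _ hc]
  · intro h
    have key : ∀ {s t : V}, X s ≠ 0 → X t ≠ 0 → Y s / X s = Y t / X t →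
        F ⊔ Submodule.span K {s} ≤ F ⊔ Submodule.span K {t} := by
      intro s t hs ht h
      refine sup_le le_sup_left ?_
      rw [Submodule.span_singleton_le_iff_mem]
      have : s - (X s / X t) • t ∈ F := by
        rw [hXY, map_sub, map_sub, map_smul, map_smul, smul_eq_mul, smul_eq_mul,
          div_mul_cancel₀ _ ht]
        refine ⟨sub_self _, ?_⟩
        rw [div_eq_div_iff hs ht] at h
        field_simp
        linear_combination h
      have h2 : s = (s - (X s / X t) • t) + (X s / X t) • t := by abel
      rw [h2]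
      exact Submodule.add_mem_sup this (Submodule.smul_mem _ _ (Submodule.mem_span_singleton_self t))
    exact le_antisymm (key hs ht h) (key ht hs h.symm)

/-- The main step: a coline with an unused direction. -/
theorem J_aux [Fintype K] (S : Finset V)
    (hblock : ∀ f : V →ₗ[K] K, ∃ s ∈ S, f s = 0) (F : Submodule K V)
    (haff : ∃ f : V →ₗ[K] K, ∀ s ∈ S, s ∈ F → f s ≠ 0)
    (hd : (cov S F).card ≤ Fintype.card K) (X Y : V →ₗ[K] K)
    (hXY : ∀ v, v ∈ F ↔ X v = 0 ∧ Y v = 0) (hX : ∀ s ∈ out S F, X s ≠ 0) :
    (cov S F).card + Fintype.card K ≤ (out S F).card + 1 := by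
  classical
  obtain ⟨f0, hf0⟩ := haff
  have hcard : (cov S F).card = ((out S F).image (fun s => Y s / X s)).card := by
    -- both are the numbers of classes of the same equivalence relation on `out S F`
    unfold cov
    apply le_antisymm
    · refine Finset.card_le_card_of_surjOn
        (fun m => if h : ∃ s ∈ out S F, Y s / X s = m then F ⊔ Submodule.span K {h.choose} else F) ?_
      intro c hc
      rw [Finset.mem_coe, Finset.mem_image] at hc
      obtain ⟨s, hs, rfl⟩ := hc
      refine ⟨Y s / X s, Finset.mem_coe.2 (Finset.mem_image_of_mem _ hs), ?_⟩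
      have hex : ∃ t ∈ out S F, Y t / X t = Y s / X s := ⟨s, hs, rfl⟩
      dsimp only
      rw [dif_pos hex]
      exact (sup_span_eq_iff X Y hXY (hX _ hex.choose_spec.1) (hX s hs)).2 hex.choose_spec.2
    · refine Finset.card_le_card_of_surjOn
        (fun c => if h : ∃ s ∈ out S F, F ⊔ Submodule.span K {s} = c then
          Y h.choose / X h.choose else 0) ?_
      intro m hm
      rw [Finset.mem_coe, Finset.mem_image] at hm
      obtain ⟨s, hs, rfl⟩ := hm
      refine ⟨F ⊔ Submodule.span K {s}, Finset.mem_coe.2 (Finset.mem_image_of_mem _ hs), ?_⟩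
      have hex : ∃ t ∈ out S F, F ⊔ Submodule.span K {t} = F ⊔ Submodule.span K {s} := ⟨s, hs, rfl⟩
      dsimp only
      rw [dif_pos hex]
      exact (sup_span_eq_iff X Y hXY (hX _ hex.choose_spec.1) (hX s hs)).1 hex.choose_spec.2
  by_contra hlt
  push Not at hlt
  obtain ⟨α, β, hαβ⟩ := exists_uncovered (out S F) (fun s => Y s / X s) (fun s => f0 s / X s)
    (by rw [← hcard]; exact hd) (by rw [← hcard]; omega)
  obtain ⟨s, hsS, hs0⟩ := hblock (f0 + α • X + β • Y)
  rw [LinearMap.add_apply, LinearMap.add_apply, LinearMap.smul_apply, LinearMap.smul_apply,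
    smul_eq_mul, smul_eq_mul] at hs0
  by_cases hsF : s ∈ F
  · obtain ⟨h1, h2⟩ := (hXY s).1 hsF
    rw [h1, h2, mul_zero, mul_zero, add_zero, add_zero] at hs0
    exact hf0 s hsS hsF hs0
  · have hsout : s ∈ out S F := mem_out.2 ⟨hsS, hsF⟩
    apply hαβ s hsout
    have hXs := hX s hsout
    field_simp
    linear_combination hs0

/-- J: a coline `F` of a one-block `S` with at most `q` covers. -/
theorem J_coline [Fintype K] [FiniteDimensional K V] (S : Finset V)
    (hblock : ∀ f : V →ₗ[K] K, ∃ s ∈ S, f s = 0) (F : Submodule K V)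
    (hF : finrank K (V ⧸ F) = 2) (haff : ∃ f : V →ₗ[K] K, ∀ s ∈ S, s ∈ F → f s ≠ 0)
    (hd : (cov S F).card ≤ Fintype.card K) :
    (cov S F).card + Fintype.card K ≤ (out S F).card + 1 := by
  classical
  have e : (V ⧸ F) ≃ₗ[K] (Fin 2 → K) := LinearEquiv.ofFinrankEq _ _ (by
    rw [hF, finrank_fin_fun])
  set X : V →ₗ[K] K := (LinearMap.proj 0).comp (e.toLinearMap.comp F.mkQ) with hX
  set Y : V →ₗ[K] K := (LinearMap.proj 1).comp (e.toLinearMap.comp F.mkQ) with hY
  have hXY : ∀ v, v ∈ F ↔ X v = 0 ∧ Y v = 0 := by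
    intro v
    rw [← Submodule.Quotient.mk_eq_zero, ← Submodule.mkQ_apply, ← e.map_eq_zero_iff, funext_iff,
      Fin.forall_fin_two]
    rfl
  -- either `X`, or some `Y + t X` does not vanish on `out S F`
  by_cases hXgood : ∀ s ∈ out S F, X s ≠ 0
  · exact J_aux S hblock F haff hd X Y hXY hXgood
  push Not at hXgood
  obtain ⟨s0, hs0, hs0X⟩ := hXgood
  obtain ⟨t, ht⟩ : ∃ t : K, ∀ s ∈ out S F, (Y + t • X) s ≠ 0 := by
    by_contra hcon
    push Not at hcon
    choose f hf1 hf2 using hcon
    -- `t ↦ F ⊔ span (f t)` is injective and misses `F ⊔ span s0`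
    have hXf : ∀ t, X (f t) ≠ 0 := by
      intro t h0
      have h1 := hf2 t
      rw [LinearMap.add_apply, LinearMap.smul_apply, h0, smul_zero, add_zero] at h1
      exact (mem_out.1 (hf1 t)).2 ((hXY _).2 ⟨h0, h1⟩)
    have hratio : ∀ t, Y (f t) / X (f t) = -t := by
      intro t
      have h1 := hf2 t
      rw [LinearMap.add_apply, LinearMap.smul_apply, smul_eq_mul] at h1
      rw [div_eq_iff (hXf t)]
      linear_combination h1
    set φ : Option K → Submodule K V := fun o => match o with
      | none => F ⊔ Submodule.span K {s0}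
      | some t => F ⊔ Submodule.span K {f t} with hφ
    have hinj : Function.Injective φ := by
      have hne : ∀ t, φ none ≠ φ (some t) := by
        intro t h
        have h1 : f t ∈ F ⊔ Submodule.span K {s0} := by
          change F ⊔ Submodule.span K {s0} = F ⊔ Submodule.span K {f t} at h
          rw [h]; exact Submodule.mem_sup_right (Submodule.mem_span_singleton_self _)
        obtain ⟨g, hg, w, hw, hgw⟩ := Submodule.mem_sup.1 h1
        obtain ⟨c, rfl⟩ := Submodule.mem_span_singleton.1 hw
        apply hXf t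
        rw [← hgw, map_add, map_smul, hs0X, ((hXY g).1 hg).1, smul_zero, add_zero]
      intro a b hab
      match a, b with
      | none, none => rfl
      | none, some t => exact absurd hab (hne t)
      | some t, none => exact absurd hab.symm (hne t)
      | some t, some u =>
        have := (sup_span_eq_iff X Y hXY (hXf t) (hXf u)).1 hab
        rw [hratio, hratio, neg_inj] at this
        rw [this]
    have hsub : Finset.univ.image φ ⊆ cov S F := by
      intro c hc
      rw [Finset.mem_image] at hc
      obtain ⟨o, -, rfl⟩ := hc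
      unfold cov
      rw [Finset.mem_image]
      match o with
      | none => exact ⟨s0, hs0, rfl⟩
      | some t => exact ⟨f t, hf1 t, rfl⟩
    have h1 := Finset.card_le_card hsub
    rw [Finset.card_image_of_injective _ hinj, Finset.card_univ, Fintype.card_option] at h1
    omega
  refine J_aux S hblock F haff hd (Y + t • X) X ?_ ht
  intro v
  rw [hXY, LinearMap.add_apply, LinearMap.smul_apply]
  constructor
  · rintro ⟨h1, h2⟩
    rw [h1, h2, smul_zero, add_zero]
    exact ⟨rfl, rfl⟩
  · rintro ⟨h1, h2⟩
    rw [h2, smul_zero, add_zero] at h1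
    exact ⟨h2, h1⟩

end Pool.Agent.Lib.MP_fdd68d_co
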