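import Pool.Agent.Lib.MP_fdd68d_co.RankThree
import Pool.Agent.Lib.MP_fdd68d_co.J

/-!
Passing to the quotient by a subspace and the main theorem for sets of vectors.
-/

namespace Pool.Agent.Lib.MP_fdd68d_co

set_option linter.unusedSectionVars false

open Module Finset Submodule

variable {K V : Type*} [Field K] [AddCommGroup V] [Module K V]

/-- no two elements of `S` outside `F0` are parallel modulo `F0` -/
def Simp (S : Finset V) (F0 : Submodule K V) : Prop :=
  ∀ s ∈ S, ∀ t ∈ S, s ∉ F0 → t ∉ F0 → s ≠ t → t ∉ F0 ⊔ span K {s}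

open Classical in
/-- the image of `S` in the quotient -/
noncomputable def quo (S : Finset V) (F0 : Submodule K V) : Finset (V ⧸ F0) :=
  (out S F0).image F0.mkQ

lemma mem_quo {S : Finset V} {F0 : Submodule K V} {w : V ⧸ F0} :
    w ∈ quo S F0 ↔ ∃ s ∈ S, s ∉ F0 ∧ F0.mkQ s = w := by
  classical
  rw [quo, mem_image]
  constructor
  · rintro ⟨s, hs, h⟩
    exact ⟨s, (mem_out.1 hs).1, (mem_out.1 hs).2, h⟩
  · rintro ⟨s, h1, h2, h3⟩
    exact ⟨s, mem_out.2 ⟨h1, h2⟩, h3⟩

lemma le_comap_mkQ (F0 : Submodule K V) (X : Submodule K (V ⧸ F0)) : F0 ≤ comap F0.mkQ X := by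
  intro v hv
  rw [mem_comap, mkQ_apply, (Submodule.Quotient.mk_eq_zero F0).2 hv]
  exact X.zero_mem

lemma mem_sup_span_iff {F0 : Submodule K V} {s t : V} :
    t ∈ F0 ⊔ span K {s} ↔ F0.mkQ t ∈ span K {F0.mkQ s} := by
  rw [Submodule.mem_sup, mem_span_singleton]
  constructor
  · rintro ⟨y, hy, z, hz, rfl⟩
    obtain ⟨c, rfl⟩ := mem_span_singleton.1 hz
    refine ⟨c, ?_⟩
    rw [map_add, map_smul, mkQ_apply, mkQ_apply, (Submodule.Quotient.mk_eq_zero F0).2 hy, zero_add]
  · rintro ⟨c, hc⟩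
    refine ⟨t - c • s, ?_, c • s, smul_mem _ _ (mem_span_singleton_self s), by abel⟩
    rw [← Submodule.Quotient.mk_eq_zero, ← mkQ_apply, map_sub, map_smul, hc, sub_self]

lemma comap_mkQ_sup (F0 : Submodule K V) (X Y : Submodule K (V ⧸ F0)) :
    comap F0.mkQ (X ⊔ Y) = comap F0.mkQ X ⊔ comap F0.mkQ Y := by
  apply le_antisymm
  · intro v hv
    rw [mem_comap, Submodule.mem_sup] at hv
    obtain ⟨y, hy, z, hz, hyz⟩ := hv
    obtain ⟨y, rfl⟩ := F0.mkQ_surjective y
    have h1 : v = y + (v - y) := by abel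
    have hy' : y ∈ comap F0.mkQ X := hy
    have hz' : v - y ∈ comap F0.mkQ Y := by
      rw [mem_comap, map_sub, ← hyz, add_sub_cancel_left]
      exact hz
    rw [h1]
    exact Submodule.add_mem_sup hy' hz'
  · exact sup_le (comap_mono le_sup_left) (comap_mono le_sup_right)

lemma comap_mkQ_le {F0 : Submodule K V} {X Y : Submodule K (V ⧸ F0)} :
    comap F0.mkQ X ≤ comap F0.mkQ Y ↔ X ≤ Y := by
  constructor
  · intro h w hw
    obtain ⟨w, rfl⟩ := F0.mkQ_surjective w
    exact h hw
  · intro h; exact comap_mono h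

lemma comap_mkQ_inj (F0 : Submodule K V) :
    Function.Injective (fun X : Submodule K (V ⧸ F0) => comap F0.mkQ X) := by
  intro X Y h
  exact le_antisymm (comap_mkQ_le.1 (le_of_eq h)) (comap_mkQ_le.1 (ge_of_eq h))

lemma comap_mkQ_span (F0 : Submodule K V) (s : V) :
    comap F0.mkQ (span K {F0.mkQ s}) = F0 ⊔ span K {s} := by
  ext t
  rw [mem_comap, ← mem_sup_span_iff]

lemma cov_comap (S : Finset V) (F0 : Submodule K V) (X : Submodule K (V ⧸ F0)) {p : Submodule K V} :
    p ∈ cov S (comap F0.mkQ X) ↔ ∃ p' ∈ cov (quo S F0) X, comap F0.mkQ p' = p := by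
  classical
  constructor
  · intro h
    obtain ⟨s, hs, hsX, rfl⟩ := mem_cov.1 h
    refine ⟨X ⊔ span K {F0.mkQ s}, mem_cov.2 ⟨F0.mkQ s, mem_quo.2 ⟨s, hs, ?_, rfl⟩, ?_, rfl⟩, ?_⟩
    · exact fun h => hsX (le_comap_mkQ F0 X h)
    · exact hsX
    · rw [comap_mkQ_sup, comap_mkQ_span, ← sup_assoc, sup_eq_left.2 (le_comap_mkQ F0 X)]
  · rintro ⟨p', hp', rfl⟩
    obtain ⟨w, hw, hwX, rfl⟩ := mem_cov.1 hp'
    obtain ⟨s, hs, hs0, rfl⟩ := mem_quo.1 hw
    refine mem_cov.2 ⟨s, hs, hwX, ?_⟩
    rw [comap_mkQ_sup, comap_mkQ_span, ← sup_assoc, sup_eq_left.2 (le_comap_mkQ F0 X)]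

lemma card_cov_comap (S : Finset V) (F0 : Submodule K V) (X : Submodule K (V ⧸ F0)) :
    (cov S (comap F0.mkQ X)).card = (cov (quo S F0) X).card := by
  classical
  have : cov S (comap F0.mkQ X) = (cov (quo S F0) X).image (fun Y => comap F0.mkQ Y) := by
    ext p
    rw [cov_comap, mem_image]
  rw [this, card_image_of_injective _ (comap_mkQ_inj F0)]

lemma card_out_comap {S : Finset V} {F0 : Submodule K V} (h : Simp S F0)
    (X : Submodule K (V ⧸ F0)) :
    (out S (comap F0.mkQ X)).card = (out (quo S F0) X).card := by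
  classical
  have h1 : out (quo S F0) X = (out S (comap F0.mkQ X)).image F0.mkQ := by
    ext w
    rw [mem_image, mem_out, mem_quo]
    constructor
    · rintro ⟨⟨s, hs, hs0, rfl⟩, hX⟩
      exact ⟨s, mem_out.2 ⟨hs, hX⟩, rfl⟩
    · rintro ⟨s, hs, rfl⟩
      rw [mem_out] at hs
      exact ⟨⟨s, hs.1, fun h => hs.2 (le_comap_mkQ F0 X h), rfl⟩, hs.2⟩
  rw [h1, card_image_of_injOn]
  intro s hs t ht hst
  rw [mem_coe, mem_out] at hs ht
  by_contra hne
  refine h s hs.1 t ht.1 (fun h => hs.2 (le_comap_mkQ F0 X h))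
    (fun h => ht.2 (le_comap_mkQ F0 X h)) hne ?_
  rw [mem_sup_span_iff, hst]
  exact mem_span_singleton_self _

lemma geometry_quo {S : Finset V} {F0 : Submodule K V} (h : Simp S F0) :
    Geometry K (quo S F0) := by
  intro w hw
  obtain ⟨s, hs, hs0, rfl⟩ := mem_quo.1 hw
  refine ⟨?_, ?_⟩
  · intro h
    exact hs0 ((Submodule.Quotient.mk_eq_zero F0).1 h)
  · intro t ht hne
    obtain ⟨t, htS, ht0, rfl⟩ := mem_quo.1 ht
    intro hmem
    exact h s hs t htS hs0 ht0 (fun hst => hne (by rw [hst])) (mem_sup_span_iff.2 hmem)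

lemma triFree_quo {S : Finset V} {F0 : Submodule K V} {X : Submodule K (V ⧸ F0)}
    (h : TriFree S (comap F0.mkQ X)) : TriFree (quo S F0) X := by
  have hlong : ∀ p q, Long (quo S F0) X p q →
      Long S (comap F0.mkQ X) (comap F0.mkQ p) (comap F0.mkQ q) := by
    rintro p q ⟨r, hr, hrp, hrq, hle⟩
    refine ⟨comap F0.mkQ r, (cov_comap S F0 X).2 ⟨r, hr, rfl⟩,
      fun h => hrp (comap_mkQ_inj F0 h), fun h => hrq (comap_mkQ_inj F0 h), ?_⟩
    rw [← comap_mkQ_sup]
    exact comap_mono hle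
  intro p hp q hq r hr hpq hpr hqr hn hl
  refine h _ ((cov_comap S F0 X).2 ⟨p, hp, rfl⟩) _ ((cov_comap S F0 X).2 ⟨q, hq, rfl⟩) _
    ((cov_comap S F0 X).2 ⟨r, hr, rfl⟩) (fun h => hpq (comap_mkQ_inj F0 h))
    (fun h => hpr (comap_mkQ_inj F0 h)) (fun h => hqr (comap_mkQ_inj F0 h)) ?_
    ⟨hlong _ _ hl.1, hlong _ _ hl.2.1, hlong _ _ hl.2.2⟩
  rw [← comap_mkQ_sup, comap_mkQ_le]
  exact hn

lemma span_quo {S : Finset V} (F0 : Submodule K V) (hspan : span K (S : Set V) = ⊤) :
    span K ((quo S F0 : Finset (V ⧸ F0)) : Set (V ⧸ F0)) = ⊤ := by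
  rw [eq_top_iff]
  intro w _
  obtain ⟨v, rfl⟩ := F0.mkQ_surjective w
  have hv : v ∈ span K (S : Set V) := by rw [hspan]; trivial
  have h1 : F0.mkQ v ∈ map F0.mkQ (span K (S : Set V)) := mem_map_of_mem hv
  rw [map_span] at h1
  refine (span_le.2 ?_) h1
  rintro _ ⟨s, hs, rfl⟩
  by_cases hs0 : s ∈ F0
  · rw [mkQ_apply, (Submodule.Quotient.mk_eq_zero F0).2 hs0]
    exact Submodule.zero_mem _
  · exact subset_span (mem_quo.2 ⟨s, hs, hs0, rfl⟩)

/-- a span of elements of `quo S F0` pulls back to a span of elements of `S` -/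
lemma comap_span_quo {S : Finset V} {X0 : Finset V} (hX0 : X0 ⊆ S)
    (X : Finset (V ⧸ span K (X0 : Set V))) (hX : X ⊆ quo S (span K (X0 : Set V))) :
    ∃ Y : Finset V, Y ⊆ S ∧
      comap (span K (X0 : Set V)).mkQ (span K (X : Set (V ⧸ span K (X0 : Set V)))) =
        span K (Y : Set V) := by
  classical
  induction X using Finset.induction_on with
  | empty =>
    refine ⟨X0, hX0, ?_⟩
    rw [coe_empty, span_empty, comap_bot, ker_mkQ]
  | insert a X _ ih =>
    obtain ⟨Y, hY, hYe⟩ := ih (fun x hx => hX (mem_insert_of_mem hx))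
    obtain ⟨s, hs, _, hsa⟩ := mem_quo.1 (hX (mem_insert_self a X))
    refine ⟨insert s Y, insert_subset hs hY, ?_⟩
    rw [coe_insert, coe_insert, span_insert, span_insert, comap_mkQ_sup, hYe, ← hsa,
      comap_mkQ_span]
    have hle : span K (X0 : Set V) ≤ span K (Y : Set V) := by
      rw [← hYe]; exact le_comap_mkQ _ _
    apply le_antisymm
    · refine sup_le (sup_le (hle.trans le_sup_right) le_sup_left) le_sup_right
    · exact sup_le (le_sup_of_le_left le_sup_right) le_sup_right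

variable [FiniteDimensional K V]

lemma finrank_quo_comap (F0 : Submodule K V) (X : Submodule K (V ⧸ F0)) :
    finrank K (V ⧸ comap F0.mkQ X) = finrank K ((V ⧸ F0) ⧸ X) := by
  have hker : LinearMap.ker (X.mkQ.comp F0.mkQ) = comap F0.mkQ X := by
    rw [LinearMap.ker_comp, ker_mkQ]
  have hsurj : Function.Surjective (X.mkQ.comp F0.mkQ) := by
    rw [LinearMap.coe_comp]
    exact (X.mkQ_surjective).comp (F0.mkQ_surjective)
  have e := (X.mkQ.comp F0.mkQ).quotKerEquivOfSurjective hsurj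
  rw [hker] at e
  exact e.finrank_eq

/-- The main theorem for sets of vectors. -/
theorem vec_main [Fintype K] (S : Finset V) (hspan : span K (S : Set V) = ⊤)
    (hq : 4 ≤ Fintype.card K)
    (hblock : ∀ f : V →ₗ[K] K, ∃ s ∈ S, f s = 0)
    (haff : ∀ H : Submodule K V, finrank K (V ⧸ H) = 1 →
      ∃ f : V →ₗ[K] K, ∀ s ∈ S, s ∈ H → f s ≠ 0)
    (htf : ∀ X : Finset V, X ⊆ S → TriFree S (span K (X : Set V)))
    (hD : ∀ X : Finset V, X ⊆ S → finrank K (V ⧸ span K (X : Set V)) = 2 →
      (cov S (span K (X : Set V))).card ≤ Fintype.card K)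
    (X0 : Finset V) (hX0 : X0 ⊆ S)
    (hr1 : 1 ≤ finrank K (V ⧸ span K (X0 : Set V)))
    (hr4 : finrank K (V ⧸ span K (X0 : Set V)) ≤ 4)
    (hsimp : Simp S (span K (X0 : Set V))) : False := by
  classical
  -- affineness of colines
  have haff2 : ∀ F : Submodule K V, finrank K (V ⧸ F) = 2 →
      ∃ f : V →ₗ[K] K, ∀ s ∈ S, s ∈ F → f s ≠ 0 := by
    intro F hF
    have hlt : F ≠ ⊤ := by
      rintro rfl
      have := Submodule.finrank_quotient_add_finrank (⊤ : Submodule K V)
      rw [finrank_top] at this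
      omega
    obtain ⟨v, -, hv⟩ := SetLike.exists_of_lt (lt_top_iff_ne_top.2 hlt)
    have h1 := finrank_sup_span hv
    have h2 := Submodule.finrank_quotient_add_finrank F
    have h3 := Submodule.finrank_quotient_add_finrank (F ⊔ span K {v})
    obtain ⟨f, hf⟩ := haff (F ⊔ span K {v}) (by omega)
    exact ⟨f, fun s hs hsF => hf s hs (mem_sup_left hsF)⟩
  set F0 : Submodule K V := span K (X0 : Set V) with hF0
  set S' := quo S F0 with hS'
  have hgeo : Geometry K S' := geometry_quo hsimp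
  have hspan' : span K (S' : Set (V ⧸ F0)) = ⊤ := span_quo F0 hspan
  have htf' : ∀ X : Finset (V ⧸ F0), X ⊆ S' → TriFree S' (span K (X : Set (V ⧸ F0))) := by
    intro X hX
    obtain ⟨Y, hY, hYe⟩ := comap_span_quo hX0 X hX
    apply triFree_quo
    change TriFree S (comap (span K (X0 : Set V)).mkQ _)
    rw [hYe]
    exact htf Y hY
  have hD' : ∀ X : Finset (V ⧸ F0), X ⊆ S' → finrank K ((V ⧸ F0) ⧸ span K (X : Set (V ⧸ F0))) = 2 →
      (cov S' (span K (X : Set (V ⧸ F0)))).card ≤ Fintype.card K := by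
    intro X hX hr
    obtain ⟨Y, hY, hYe⟩ := comap_span_quo hX0 X hX
    have hYe' : comap F0.mkQ (span K (X : Set (V ⧸ F0))) = span K (Y : Set V) := hYe
    rw [← card_cov_comap, hYe']
    apply hD Y hY
    rw [← hYe', finrank_quo_comap, hr]
  have hJ' : ∀ X : Finset (V ⧸ F0), X ⊆ S' → finrank K ((V ⧸ F0) ⧸ span K (X : Set (V ⧸ F0))) = 2 →
      (cov S' (span K (X : Set (V ⧸ F0)))).card + Fintype.card K ≤
        (out S' (span K (X : Set (V ⧸ F0)))).card + 1 := by
    intro X hX hr
    have hr' : finrank K (V ⧸ comap F0.mkQ (span K (X : Set (V ⧸ F0)))) = 2 := by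
      rw [finrank_quo_comap, hr]
    have h1 := J_coline S hblock _ hr' (haff2 _ hr') (by
      rw [card_cov_comap]
      exact hD' X hX hr)
    rwa [card_cov_comap, card_out_comap hsimp] at h1
  have hC' : ∀ H : Submodule K (V ⧸ F0), finrank K ((V ⧸ F0) ⧸ H) = 1 →
      Fintype.card K ≤ (out S' H).card := by
    intro H hH
    have hr' : finrank K (V ⧸ comap F0.mkQ H) = 1 := by
      rw [finrank_quo_comap, hH]
    have h1 := C_hyper S hblock _ hr' (haff _ hr')
    rwa [card_out_comap hsimp] at h1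
  have hquot : ∀ X : Submodule K (V ⧸ F0), finrank K ((V ⧸ F0) ⧸ X) + finrank K X =
      finrank K (V ⧸ F0) := fun X => Submodule.finrank_quotient_add_finrank X
  have hone : ∀ x ∈ S', finrank K (span K ({x} : Set (V ⧸ F0))) = 1 :=
    fun x hx => finrank_span_singleton (hgeo x hx).1
  have htwo : ∀ x ∈ S', ∀ y ∈ S', x ≠ y → finrank K (span K ({x, y} : Set (V ⧸ F0))) = 2 := by
    intro x hx y hy hxy
    rw [pair_eq, finrank_sup_span (geom_notMem hgeo hx hy hxy), hone x hx]
  -- the four cases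
  have hcases : finrank K (V ⧸ F0) = 1 ∨ finrank K (V ⧸ F0) = 2 ∨ finrank K (V ⧸ F0) = 3 ∨
      finrank K (V ⧸ F0) = 4 := by omega
  rcases hcases with h | h | h | h
  · -- rank one
    have h1 := hC' ⊥ (by have := hquot ⊥; rw [finrank_bot] at this; omega)
    have h2 : 1 < (out S' (⊥ : Submodule K (V ⧸ F0))).card := by omega
    obtain ⟨x, hx, y, hy, hxy⟩ := one_lt_card.1 h2
    rw [mem_out] at hx hy
    have h3 := htwo x hx.1 y hy.1 hxy
    have h4 := Submodule.finrank_le (span K ({x, y} : Set (V ⧸ F0)))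
    omega
  · -- rank two
    have h1 := hJ' ∅ (empty_subset _) (by
      have := hquot (span K ((∅ : Finset (V ⧸ F0)) : Set (V ⧸ F0)))
      rw [coe_empty, span_empty, finrank_bot] at this
      rw [coe_empty, span_empty]
      omega)
    rw [coe_empty, span_empty] at h1
    have h2 : (out S' (⊥ : Submodule K (V ⧸ F0))).card ≤ (cov S' (⊥ : Submodule K (V ⧸ F0))).card := by
      unfold cov
      rw [card_image_of_injOn]
      intro x hx y hy hxy
      rw [mem_coe, mem_out] at hx hy
      exact inj_bot hgeo hx.1 hy.1 hxy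
    omega
  · -- rank three
    refine rank_three_core S' hgeo h hspan' (Fintype.card K) (by omega) ?_ ?_ ?_ ?_
    · have := htf' ∅ (empty_subset _)
      rwa [coe_empty, span_empty] at this
    · intro x hx
      have h1 := hD' {x} (singleton_subset_iff.2 hx) (by
        rw [coe_singleton]
        have := hquot (span K ({x} : Set (V ⧸ F0)))
        rw [hone x hx] at this
        omega)
      rwa [coe_singleton] at h1
    · intro x hx
      have h1 := hJ' {x} (singleton_subset_iff.2 hx) (by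
        rw [coe_singleton]
        have := hquot (span K ({x} : Set (V ⧸ F0)))
        rw [hone x hx] at this
        omega)
      rwa [coe_singleton] at h1
    · intro H hH
      apply hC'
      have := hquot H
      omega
  · -- rank four
    refine rank_four_core S' hgeo h hspan' (Fintype.card K) hq htf' ?_ ?_ ?_
    · intro x hx y hy hxy
      have h1 := hD' {x, y} (by
        intro z hz
        rw [mem_insert, mem_singleton] at hz
        rcases hz with rfl | rfl <;> assumption) (by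
        rw [coe_pair]
        have := hquot (span K ({x, y} : Set (V ⧸ F0)))
        rw [htwo x hx y hy hxy] at this
        omega)
      rwa [coe_pair] at h1
    · intro x hx y hy hxy
      have h1 := hJ' {x, y} (by
        intro z hz
        rw [mem_insert, mem_singleton] at hz
        rcases hz with rfl | rfl <;> assumption) (by
        rw [coe_pair]
        have := hquot (span K ({x, y} : Set (V ⧸ F0)))
        rw [htwo x hx y hy hxy] at this
        omega)
      rwa [coe_pair] at h1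
    · intro H hH
      apply hC'
      have := hquot H
      omega

end Pool.Agent.Lib.MP_fdd68d_co
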