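import Mathlib

/-!
Basic notions for finite sets of vectors (geometries represented over a field):
covers of a subspace, long lines, triangle-free contractions.
-/

namespace Pool.Agent.Lib.MP_fdd68d_co

open Module

variable {K V : Type*} [Field K] [AddCommGroup V] [Module K V]

open Classical in
/-- The elements of `S` outside the subspace `X`. -/
noncomputable def out (S : Finset V) (X : Submodule K V) : Finset V :=
  S.filter (fun s => s ∉ X)

open Classical in
/-- The covers of the subspace `X`: all subspaces `X ⊔ K∙s` for `s ∈ S` outside `X`.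
They are the points of the simple contraction `si(S/X)`. -/
noncomputable def cov (S : Finset V) (X : Submodule K V) : Finset (Submodule K V) :=
  (out S X).image (fun s => X ⊔ Submodule.span K {s})

/-- The line through the points `p`, `q` of `si(S/X)` has a third point. -/
def Long (S : Finset V) (X p q : Submodule K V) : Prop :=
  ∃ r ∈ cov S X, r ≠ p ∧ r ≠ q ∧ r ≤ p ⊔ q

/-- `si(S/X)` has no three non-collinear points pairwise on long lines. -/
def TriFree (S : Finset V) (X : Submodule K V) : Prop :=
  ∀ p ∈ cov S X, ∀ q ∈ cov S X, ∀ r ∈ cov S X, p ≠ q → p ≠ r → q ≠ r → ¬ r ≤ p ⊔ q →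
    ¬ (Long S X p q ∧ Long S X p r ∧ Long S X q r)

/-- Elements of `S` are nonzero and pairwise not proportional. -/
def Geometry (K : Type*) {V : Type*} [Field K] [AddCommGroup V] [Module K V] (S : Finset V) : Prop :=
  ∀ s ∈ S, s ≠ 0 ∧ ∀ t ∈ S, t ≠ s → t ∉ Submodule.span K {s}

end Pool.Agent.Lib.MP_fdd68d_co
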