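import Mathlib

/-!
A counting lemma for bipartite graphs all of whose components are double stars.
-/

namespace Pool.Agent.Lib.MP_fdd68d_co

open Finset

variable {α β γ δ : Type*} [DecidableEq α] [DecidableEq β] [DecidableEq γ] [DecidableEq δ]

lemma image_count (A : Finset α) (f : α → β) (F : Finset α)
    (hF : ∀ a, a ∈ F ↔ a ∈ A ∧ ∃ a' ∈ A, a' ≠ a ∧ f a' = f a) :
    (A.image f).card = (A \ F).card + (F.image f).card := by
  have hFA : F ⊆ A := fun a ha => ((hF a).1 ha).1
  have hsplit : A.image f = (A \ F).image f ∪ F.image f := by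
    rw [← image_union, sdiff_union_of_subset hFA]
  have hdisj : Disjoint ((A \ F).image f) (F.image f) := by
    rw [disjoint_left]
    intro b hb hb'
    rw [mem_image] at hb hb'
    obtain ⟨a, ha, rfl⟩ := hb
    obtain ⟨a', ha', haa'⟩ := hb'
    rw [mem_sdiff] at ha
    apply ha.2
    rw [hF]
    refine ⟨ha.1, a', hFA ha', ?_, haa'⟩
    rintro rfl
    exact ha.2 ha'
  have hinj : Set.InjOn f (A \ F : Finset α) := by
    intro a ha a' ha' haa'
    rw [mem_coe, mem_sdiff] at ha ha'
    by_contra hne
    apply ha.2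
    rw [hF]
    exact ⟨ha.1, a', ha'.1, Ne.symm hne, haa'.symm⟩
  rw [hsplit, card_union_of_disjoint hdisj, card_image_of_injOn hinj]

theorem forest_one (A : Finset α) (f : α → β) (g : α → γ) (hA : A.Nonempty)
    (c2 : ∀ a ∈ A, ∀ b ∈ A, a ≠ b → f a = f b → (∃ a' ∈ A, a' ≠ a ∧ g a' = g a) →
      (∃ b' ∈ A, b' ≠ b ∧ g b' = g b) → False) :
    A.card + 1 ≤ (A.image f).card + (A.image g).card := by
  classical
  set F := A.filter (fun a => ∃ a' ∈ A, a' ≠ a ∧ f a' = f a) with hF
  set G := A.filter (fun a => ∃ a' ∈ A, a' ≠ a ∧ g a' = g a) with hG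
  have hf := image_count A f F (by intro a; rw [hF, mem_filter])
  have hg := image_count A g G (by intro a; rw [hG, mem_filter])
  have hFA : F ⊆ A := filter_subset _ _
  have hGA : G ⊆ A := filter_subset _ _
  have e1 := card_sdiff_add_card_eq_card hFA
  have e2 := card_sdiff_add_card_eq_card hGA
  have e3 := card_union_add_card_inter F G
  have e4 : (F ∪ G).card ≤ A.card := card_le_card (union_subset hFA hGA)
  have e5 : (F ∩ G).card ≤ (F.image f).card := by
    have hinj : Set.InjOn f (F ∩ G : Finset α) := by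
      intro a ha b hb hab
      rw [mem_coe, mem_inter] at ha hb
      by_contra hne
      have haG := (mem_filter.1 (hG ▸ ha.2)).2
      have hbG := (mem_filter.1 (hG ▸ hb.2)).2
      exact c2 a (hFA ha.1) b (hFA hb.1) hne hab haG hbG
    rw [← card_image_of_injOn hinj]
    exact card_le_card (image_subset_image inter_subset_left)
  by_cases hne : (F ∩ G).Nonempty
  · have : 0 < (G.image g).card := by
      rw [card_pos]
      obtain ⟨x, hx⟩ := hne
      exact ⟨g x, mem_image_of_mem g (mem_inter.1 hx).2⟩
    omega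
  · rw [not_nonempty_iff_eq_empty] at hne
    rw [hne, card_empty] at e3
    by_cases hFe : F.Nonempty
    · have : 0 < (F.image f).card := by
        rw [card_pos]; exact hFe.image f
      omega
    · by_cases hGe : G.Nonempty
      · have : 0 < (G.image g).card := by
          rw [card_pos]; exact hGe.image g
        omega
      · rw [not_nonempty_iff_eq_empty] at hFe hGe
        have h0 : 0 < A.card := card_pos.2 hA
        have h1 : F.card = 0 := by rw [hFe, card_empty]
        have h2 : G.card = 0 := by rw [hGe, card_empty]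
        omega

lemma sum_image_le (A : Finset α) (c : α → δ) (h : α → β)
    (hh : ∀ a ∈ A, ∀ b ∈ A, h a = h b → c a = c b) :
    ∑ P ∈ A.image c, ((A.filter (fun a => c a = P)).image h).card ≤ (A.image h).card := by
  rw [← card_biUnion]
  · apply card_le_card
    intro y hy
    rw [mem_biUnion] at hy
    obtain ⟨P, _, hy⟩ := hy
    exact image_subset_image (filter_subset _ _) hy
  · intro P _ P' _ hne
    show Disjoint _ _
    rw [disjoint_left]
    intro y hy hy'
    rw [mem_image] at hy hy'
    obtain ⟨a, ha, rfl⟩ := hy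
    obtain ⟨b, hb, hab⟩ := hy'
    rw [mem_filter] at ha hb
    apply hne
    rw [← ha.2, ← hb.2]
    exact hh a ha.1 b hb.1 hab.symm

/-- The summed version: `c` labels the components coarsely. -/
theorem forest_sum (A : Finset α) (f : α → β) (g : α → γ) (c : α → δ)
    (hfc : ∀ a ∈ A, ∀ b ∈ A, f a = f b → c a = c b)
    (hgc : ∀ a ∈ A, ∀ b ∈ A, g a = g b → c a = c b)
    (c2 : ∀ a ∈ A, ∀ b ∈ A, a ≠ b → f a = f b → (∃ a' ∈ A, a' ≠ a ∧ g a' = g a) →
      (∃ b' ∈ A, b' ≠ b ∧ g b' = g b) → False) :
    A.card + (A.image c).card ≤ (A.image f).card + (A.image g).card := by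
  have h1 := sum_image_le A c f hfc
  have h2 := sum_image_le A c g hgc
  have h3 : A.card = ∑ P ∈ A.image c, (A.filter (fun a => c a = P)).card :=
    card_eq_sum_card_image c A
  have h4 : (A.image c).card = ∑ P ∈ A.image c, 1 := by simp
  have h5 : ∑ P ∈ A.image c, ((A.filter (fun a => c a = P)).card + 1) ≤
      ∑ P ∈ A.image c, (((A.filter (fun a => c a = P)).image f).card +
        ((A.filter (fun a => c a = P)).image g).card) := by
    apply sum_le_sum
    intro P hP
    apply forest_one
    · rw [mem_image] at hP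
      obtain ⟨a, ha, rfl⟩ := hP
      exact ⟨a, mem_filter.2 ⟨ha, rfl⟩⟩
    · intro a ha b hb hab hfab hga hgb
      rw [mem_filter] at ha hb
      obtain ⟨a', ha', h6, h7⟩ := hga
      obtain ⟨b', hb', h8, h9⟩ := hgb
      exact c2 a ha.1 b hb.1 hab hfab ⟨a', (mem_filter.1 ha').1, h6, h7⟩
        ⟨b', (mem_filter.1 hb').1, h8, h9⟩
  rw [sum_add_distrib, sum_add_distrib] at h5
  omega

end Pool.Agent.Lib.MP_fdd68d_co
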