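import Mathlib

/-!
Abstract triangle-free linear spaces: if every point is on at most `D` lines and
`3 D < 2 |P|` then the space is the union of two lines.
-/

namespace Pool.Agent.Lib.MP_fdd68d_co

set_option linter.unusedSectionVars false

open Finset

/-- A finite linear space: points `P`, the line `ln x y` through two distinct points,
incidence `inc`. -/
structure LinSp {α β : Type*} (P : Finset α) (ln : α → α → β) (inc : α → β → Prop) : Prop where
  left : ∀ x ∈ P, ∀ y ∈ P, x ≠ y → inc x (ln x y)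
  right : ∀ x ∈ P, ∀ y ∈ P, x ≠ y → inc y (ln x y)
  uniq : ∀ a ∈ P, ∀ b ∈ P, a ≠ b → ∀ x ∈ P, ∀ y ∈ P, x ≠ y →
    inc x (ln a b) → inc y (ln a b) → ln x y = ln a b

variable {α β : Type*} [DecidableEq α] [DecidableEq β]

open Classical in
/-- points on a line -/
noncomputable def pts (P : Finset α) (inc : α → β → Prop) (l : β) : Finset α :=
  P.filter (fun p => inc p l)

/-- number of lines through a point -/
def deg (P : Finset α) (ln : α → α → β) (x : α) : ℕ := ((P.erase x).image (ln x)).card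

/-- no triangles of long lines -/
def NoTri (P : Finset α) (ln : α → α → β) (inc : α → β → Prop) : Prop :=
  ∀ x ∈ P, ∀ y ∈ P, ∀ z ∈ P, x ≠ y → x ≠ z → y ≠ z → ¬ inc z (ln x y) →
    3 ≤ (pts P inc (ln x y)).card → 3 ≤ (pts P inc (ln x z)).card →
    3 ≤ (pts P inc (ln y z)).card → False

variable {P : Finset α} {ln : α → α → β} {inc : α → β → Prop}

lemma mem_pts {l : β} {p : α} : p ∈ pts P inc l ↔ p ∈ P ∧ inc p l := by
  classical
  simp [pts]

lemma LinSp.symm (h : LinSp P ln inc) {x y : α} (hx : x ∈ P) (hy : y ∈ P) (hxy : x ≠ y) :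
    ln y x = ln x y :=
  h.uniq x hx y hy hxy y hy x hx (Ne.symm hxy) (h.right x hx y hy hxy) (h.left x hx y hy hxy)

lemma LinSp.inter_le (h : LinSp P ln inc) {a b c d : α} (ha : a ∈ P) (hb : b ∈ P) (hab : a ≠ b)
    (hc : c ∈ P) (hd : d ∈ P) (hcd : c ≠ d) (hne : ln a b ≠ ln c d) {x y : α}
    (hx : x ∈ pts P inc (ln a b) ∩ pts P inc (ln c d))
    (hy : y ∈ pts P inc (ln a b) ∩ pts P inc (ln c d)) : x = y := by
  by_contra hxy
  simp only [mem_inter, mem_pts] at hx hy
  apply hne
  rw [← h.uniq a ha b hb hab x hx.1.1 y hy.1.1 hxy hx.1.2 hy.1.2,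
    h.uniq c hc d hd hcd x hx.1.1 y hy.1.1 hxy hx.2.2 hy.2.2]

/-- The basic count at a point `z` of a line `g = ln a b`. -/
lemma LinSp.count_at (h : LinSp P ln inc) {a b z : α} (ha : a ∈ P) (hb : b ∈ P) (hab : a ≠ b)
    (hz : z ∈ pts P inc (ln a b))
    {T : Finset α} (hT : ∀ p, p ∈ T ↔ (p ∈ P ∧ p ∉ pts P inc (ln a b)) ∧
      3 ≤ (pts P inc (ln z p)).card) {D : ℕ} (hD : deg P ln z ≤ D)
    (hn : D ≤ (P \ pts P inc (ln a b)).card) :
    (P \ pts P inc (ln a b)).card + 2 ≤ D + T.card := by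
  classical
  set g := ln a b with hg
  obtain ⟨hzP, hzg⟩ := mem_pts.1 hz
  -- another point of g
  obtain ⟨b0, hb0P, hb0g, hb0z⟩ : ∃ b0 ∈ P, inc b0 g ∧ b0 ≠ z := by
    by_cases haz : a = z
    · exact ⟨b, hb, h.right a ha b hb hab, fun hh => hab (haz.trans hh.symm)⟩
    · exact ⟨a, ha, h.left a ha b hb hab, haz⟩
  set U := (P \ pts P inc g) \ T with hU
  have hTsub : T ⊆ P \ pts P inc g := by
    intro p hp
    have := (hT p).1 hp
    simp [this.1.1, this.1.2]
  have hcard : U.card + T.card = (P \ pts P inc g).card := by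
    rw [hU, card_sdiff_add_card_eq_card hTsub]
  -- ln z b0 = g
  have hlb0 : ln z b0 = g := h.uniq a ha b hb hab z hzP b0 hb0P (Ne.symm hb0z) hzg hb0g
  have hout : ∀ p ∈ P \ pts P inc g, p ∈ P ∧ p ≠ z ∧ ln z p ≠ g := by
    intro p hp
    rw [mem_sdiff] at hp
    have hpz : p ≠ z := fun hh => hp.2 (hh ▸ hz)
    refine ⟨hp.1, hpz, fun hh => hp.2 ?_⟩
    rw [mem_pts]
    refine ⟨hp.1, ?_⟩
    rw [← hh]
    exact h.right z hzP p hp.1 (Ne.symm hpz)
  have hUinj : ∀ p ∈ U, ∀ p' ∈ P, p' ≠ z → ln z p = ln z p' → p = p' := by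
    intro p hp p' hp' hp'z hh
    by_contra hne
    rw [hU, mem_sdiff] at hp
    apply hp.2
    rw [hT]
    obtain ⟨h1, h2, h3⟩ := hout p hp.1
    refine ⟨⟨h1, (mem_sdiff.1 hp.1).2⟩, ?_⟩
    have hsub : ({z, p, p'} : Finset α) ⊆ pts P inc (ln z p) := by
      intro w hw
      simp only [mem_insert, mem_singleton] at hw
      rw [mem_pts]
      rcases hw with rfl | rfl | rfl
      · exact ⟨hzP, h.left _ hzP p h1 (Ne.symm h2)⟩
      · exact ⟨h1, h.right z hzP _ h1 (Ne.symm h2)⟩
      · exact ⟨hp', by rw [hh]; exact h.right z hzP _ hp' (Ne.symm hp'z)⟩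
    have : ({z, p, p'} : Finset α).card = 3 := by
      rw [card_eq_three]
      exact ⟨z, p, p', Ne.symm h2, Ne.symm hp'z, hne, rfl⟩
    exact this ▸ card_le_card hsub
  -- T nonempty
  have hTne : T.Nonempty := by
    by_contra hTe
    rw [not_nonempty_iff_eq_empty] at hTe
    have hUe : U.card = (P \ pts P inc g).card := by rw [← hcard, hTe]; simp
    have hsub : insert b0 U ⊆ P.erase z := by
      intro w hw
      rw [mem_insert] at hw
      rw [mem_erase]
      rcases hw with rfl | hw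
      · exact ⟨hb0z, hb0P⟩
      · have := hout w (mem_sdiff.1 hw).1
        exact ⟨this.2.1, this.1⟩
    have hinj : Set.InjOn (ln z) (insert b0 U : Finset α) := by
      intro p hp p' hp' hh
      rw [mem_coe, mem_insert] at hp hp'
      rcases hp with rfl | hp
      · rcases hp' with rfl | hp'
        · rfl
        · exact (hUinj p' hp' _ hb0P hb0z hh.symm).symm
      · rcases hp' with rfl | hp'
        · exact hUinj p hp _ hb0P hb0z hh
        · have := hout p' (mem_sdiff.1 hp').1
          exact hUinj p hp p' this.1 this.2.1 hh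
    have hb0U : b0 ∉ U := by
      intro hh
      have := hout b0 (mem_sdiff.1 hh).1
      exact this.2.2 hlb0
    have h1 : (insert b0 U).card ≤ deg P ln z := by
      rw [← card_image_of_injOn hinj]
      exact card_le_card (image_subset_image hsub)
    rw [card_insert_of_notMem hb0U] at h1
    omega
  obtain ⟨t0, ht0⟩ := hTne
  obtain ⟨ht0a, ht0b, ht0c⟩ := hout t0 (hTsub ht0)
  have ht0U : t0 ∉ U := fun hh => (mem_sdiff.1 hh).2 ht0
  have hb0U : b0 ∉ insert t0 U := by
    intro hh
    rw [mem_insert] at hh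
    rcases hh with rfl | hh
    · exact ht0c hlb0
    · exact (hout b0 (mem_sdiff.1 hh).1).2.2 hlb0
  have hsub : insert b0 (insert t0 U) ⊆ P.erase z := by
    intro w hw
    rw [mem_insert, mem_insert] at hw
    rw [mem_erase]
    rcases hw with rfl | rfl | hw
    · exact ⟨hb0z, hb0P⟩
    · exact ⟨ht0b, ht0a⟩
    · have := hout w (mem_sdiff.1 hw).1
      exact ⟨this.2.1, this.1⟩
  have hinj : Set.InjOn (ln z) (insert b0 (insert t0 U) : Finset α) := by
    intro p hp p' hp' hh
    have hpe := hsub hp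
    have hpe' := hsub hp'
    rw [mem_erase] at hpe hpe'
    by_cases hpU : p ∈ U
    · exact hUinj p hpU p' hpe'.2 hpe'.1 hh
    by_cases hpU' : p' ∈ U
    · exact (hUinj p' hpU' p hpe.2 hpe.1 hh.symm).symm
    rw [mem_coe, mem_insert, mem_insert] at hp hp'
    rcases hp with rfl | rfl | hp
    · rcases hp' with rfl | rfl | hp'
      · rfl
      · exact absurd (hh.symm.trans hlb0) ht0c
      · exact absurd hp' hpU'
    · rcases hp' with rfl | rfl | hp'
      · exact absurd (hh.trans hlb0) ht0c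
      · rfl
      · exact absurd hp' hpU'
    · exact absurd hp hpU
  have h1 : (insert b0 (insert t0 U)).card ≤ deg P ln z := by
    rw [← card_image_of_injOn hinj]
    exact card_le_card (image_subset_image hsub)
  rw [card_insert_of_notMem hb0U, card_insert_of_notMem ht0U] at h1
  omega

/-- Every long line misses fewer than `D` points. -/
lemma LinSp.long_big (h : LinSp P ln inc) (htri : NoTri P ln inc) {a b : α} (ha : a ∈ P)
    (hb : b ∈ P) (hab : a ≠ b) (hlong : 3 ≤ (pts P inc (ln a b)).card) {D : ℕ}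
    (hD : ∀ x ∈ P, deg P ln x ≤ D) (hbig : 3 * D < 2 * P.card) :
    (P \ pts P inc (ln a b)).card < D := by
  classical
  by_contra hn
  push Not at hn
  set g := ln a b with hg
  set n := (P \ pts P inc g).card with hn'
  set i := (pts P inc g).card with hi
  have hsum : i + n = P.card := by
    have hsub : pts P inc g ⊆ P := fun p hp => (mem_pts.1 hp).1
    have := card_sdiff_add_card_eq_card hsub
    omega
  set T : α → Finset α := fun z => (P \ pts P inc g).filter
    (fun p => 3 ≤ (pts P inc (ln z p)).card) with hTdef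
  have hT : ∀ z ∈ pts P inc g, n + 2 ≤ D + (T z).card := by
    intro z hz
    refine h.count_at ha hb hab hz ?_ (hD z (mem_pts.1 hz).1) hn
    intro p
    simp only [hTdef, mem_filter, mem_sdiff]
    exact Iff.rfl
  have hdisj : ((pts P inc g : Finset α) : Set α).PairwiseDisjoint T := by
    intro z hz z' hz' hzz'
    rw [Function.onFun, disjoint_left]
    intro p hp hp'
    simp only [hTdef, mem_filter, mem_sdiff] at hp hp'
    have hz := mem_pts.1 hz
    have hz' := mem_pts.1 hz'
    have hpz : p ≠ z := fun hh => hp.1.2 (by rw [mem_pts, hh]; exact hz)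
    have hpz' : p ≠ z' := fun hh => hp.1.2 (by rw [mem_pts, hh]; exact hz')
    have hl : ln z z' = g := h.uniq a ha b hb hab z hz.1 z' hz'.1 hzz' hz.2 hz'.2
    refine htri z hz.1 z' hz'.1 p hp.1.1 hzz' (Ne.symm hpz) (Ne.symm hpz') ?_ ?_ hp.2 hp'.2
    · rw [hl]
      intro hh
      exact hp.1.2 (mem_pts.2 ⟨hp.1.1, hh⟩)
    · rw [hl]; exact hlong
  have hle : ∑ z ∈ pts P inc g, (T z).card ≤ n := by
    rw [← card_biUnion (fun x hx y hy hxy => hdisj hx hy hxy)]
    apply card_le_card
    intro p hp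
    rw [mem_biUnion] at hp
    obtain ⟨z, _, hp⟩ := hp
    exact (mem_filter.1 hp).1
  have hge : i * (n + 2 - D) ≤ ∑ z ∈ pts P inc g, (T z).card := by
    rw [hi, ← smul_eq_mul]
    apply card_nsmul_le_sum
    intro z hz
    have := hT z hz
    omega
  have h3 := hge.trans hle
  obtain ⟨δ, hδ⟩ : ∃ δ, n = D + δ := ⟨n - D, by omega⟩
  have h4 : n + 2 - D = δ + 2 := by omega
  rw [h4] at h3
  nlinarith

/-- A point of degree less than `|P| - 1` is on a long line. -/
lemma LinSp.exists_long' {x : α} (h : LinSp P ln inc) (hx : x ∈ P)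
    (hdeg : deg P ln x + 1 < P.card) :
    ∃ y ∈ P, x ≠ y ∧ 3 ≤ (pts P inc (ln x y)).card := by
  classical
  have hcard : ((P.erase x).image (ln x)).card < (P.erase x).card := by
    rw [deg] at hdeg
    rw [card_erase_of_mem hx]
    omega
  obtain ⟨p, hp, p', hp', hne, heq⟩ := exists_ne_map_eq_of_card_image_lt hcard
  rw [mem_erase] at hp hp'
  refine ⟨p, hp.2, Ne.symm hp.1, ?_⟩
  have hsub : ({x, p, p'} : Finset α) ⊆ pts P inc (ln x p) := by
    intro w hw
    simp only [mem_insert, mem_singleton] at hw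
    rw [mem_pts]
    rcases hw with rfl | rfl | rfl
    · exact ⟨hx, h.left _ hx p hp.2 (Ne.symm hp.1)⟩
    · exact ⟨hp.2, h.right x hx _ hp.2 (Ne.symm hp.1)⟩
    · exact ⟨hp'.2, by rw [heq]; exact h.right x hx _ hp'.2 (Ne.symm hp'.1)⟩
  have : ({x, p, p'} : Finset α).card = 3 := by
    rw [card_eq_three]
    exact ⟨x, p, p', Ne.symm hp.1, Ne.symm hp'.1, hne, rfl⟩
  exact this ▸ card_le_card hsub

/-- Every point is on a long line. -/
lemma LinSp.exists_long {x : α} (h : LinSp P ln inc) (hx : x ∈ P) {D : ℕ} (h2 : 2 ≤ D)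
    (hD : ∀ x ∈ P, deg P ln x ≤ D) (hbig : 3 * D < 2 * P.card) :
    ∃ y ∈ P, x ≠ y ∧ 3 ≤ (pts P inc (ln x y)).card := by
  apply h.exists_long' hx
  have := hD x hx
  omega

/-- Lemma 1: a triangle-free linear space with all degrees at most `D` and `3 D < 2 |P|` is the
union of two lines. -/
theorem LinSp.two_lines (h : LinSp P ln inc) (htri : NoTri P ln inc) {D : ℕ} (h2 : 2 ≤ D)
    (hD : ∀ x ∈ P, deg P ln x ≤ D) (hbig : 3 * D < 2 * P.card) :
    ∃ a ∈ P, ∃ b ∈ P, ∃ c ∈ P, ∃ d ∈ P, a ≠ b ∧ c ≠ d ∧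
      ∀ p ∈ P, inc p (ln a b) ∨ inc p (ln c d) := by
  classical
  obtain ⟨a, ha⟩ : P.Nonempty := by
    rw [← card_pos]; omega
  obtain ⟨b, hb, hab, hg⟩ := h.exists_long ha h2 hD hbig
  by_cases hcov : ∀ p ∈ P, inc p (ln a b)
  · exact ⟨a, ha, b, hb, a, ha, b, hb, hab, hab, fun p hp => Or.inl (hcov p hp)⟩
  push Not at hcov
  obtain ⟨c, hc, hcg⟩ := hcov
  obtain ⟨d, hd, hcd, hh⟩ := h.exists_long hc h2 hD hbig
  by_contra hcon
  push Not at hcon
  obtain ⟨e, he, heg, heh⟩ := hcon a ha b hb c hc d hd hab hcd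
  obtain ⟨f, hf, hef, hk⟩ := h.exists_long he h2 hD hbig
  have hgh : ln a b ≠ ln c d := fun hq => hcg (hq ▸ h.left c hc d hd hcd)
  have hgk : ln a b ≠ ln e f := fun hq => heg (hq ▸ h.left e he f hf hef)
  have hhk : ln c d ≠ ln e f := fun hq => heh (hq ▸ h.left e he f hf hef)
  have b1 := h.long_big htri ha hb hab hg hD hbig
  have b2 := h.long_big htri hc hd hcd hh hD hbig
  have b3 := h.long_big htri he hf hef hk hD hbig
  have hsub : ∀ l, pts P inc l ⊆ P := fun l p hp => (mem_pts.1 hp).1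
  have c1 := card_sdiff_add_card_eq_card (hsub (ln a b))
  have c2 := card_sdiff_add_card_eq_card (hsub (ln c d))
  have c3 := card_sdiff_add_card_eq_card (hsub (ln e f))
  set G := pts P inc (ln a b) with hG
  set H := pts P inc (ln c d) with hH
  set J := pts P inc (ln e f) with hJ
  have u1 := card_union_add_card_inter G H
  have u2 := card_union_add_card_inter (G ∪ H) J
  have u3 : ((G ∪ H) ∪ J).card ≤ P.card :=
    card_le_card (union_subset (union_subset (hsub _) (hsub _)) (hsub _))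
  have i1 : (G ∩ H).card ≤ 1 := by
    rw [card_le_one]
    intro x hx y hy
    exact h.inter_le ha hb hab hc hd hcd hgh hx hy
  have i2 : (G ∩ J).card ≤ 1 := by
    rw [card_le_one]
    intro x hx y hy
    exact h.inter_le ha hb hab he hf hef hgk hx hy
  have i3 : (H ∩ J).card ≤ 1 := by
    rw [card_le_one]
    intro x hx y hy
    exact h.inter_le hc hd hcd he hf hef hhk hx hy
  have i4 : ((G ∪ H) ∩ J).card ≤ (G ∩ J).card + (H ∩ J).card := by
    rw [union_inter_distrib_right]
    exact card_union_le _ _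
  have key : (G ∩ H).card + ((G ∪ H) ∩ J).card ≤ 2 := by
    by_contra hlt
    push Not at hlt
    have e1 : (G ∩ H).card = 1 := by omega
    obtain ⟨x, hx⟩ : (G ∩ H).Nonempty := by rw [← card_pos]; omega
    obtain ⟨y, hy⟩ : (G ∩ J).Nonempty := by rw [← card_pos]; omega
    obtain ⟨z, hz⟩ : (H ∩ J).Nonempty := by rw [← card_pos]; omega
    have hlt2 : 2 ≤ ((G ∪ H) ∩ J).card := by omega
    have hyz : y ≠ z := by
      rintro rfl
      have : ((G ∪ H) ∩ J).card ≤ 1 := by
        rw [card_le_one]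
        have aux : ∀ w ∈ (G ∪ H) ∩ J, w = y := by
          intro w hw
          rw [mem_inter, mem_union] at hw
          rcases hw.1 with hw1 | hw1
          · exact h.inter_le ha hb hab he hf hef hgk (mem_inter.2 ⟨hw1, hw.2⟩) hy
          · exact h.inter_le hc hd hcd he hf hef hhk (mem_inter.2 ⟨hw1, hw.2⟩) hz
        intro w hw w' hw'
        rw [aux w hw, aux w' hw']
      omega
    rw [mem_inter] at hx hy hz
    have hxy : x ≠ y := by
      rintro rfl
      exact hyz (h.inter_le hc hd hcd he hf hef hhk (mem_inter.2 ⟨hx.2, hy.2⟩)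
        (mem_inter.2 hz))
    have hxz : x ≠ z := by
      rintro rfl
      exact hyz (h.inter_le ha hb hab he hf hef hgk (mem_inter.2 hy)
        (mem_inter.2 ⟨hx.1, hz.2⟩))
    have hxP := (mem_pts.1 hx.1).1
    have hyP := (mem_pts.1 hy.1).1
    have hzP := (mem_pts.1 hz.1).1
    have l1 : ln x y = ln a b := h.uniq a ha b hb hab x hxP y hyP hxy (mem_pts.1 hx.1).2
      (mem_pts.1 hy.1).2
    have l2 : ln x z = ln c d := h.uniq c hc d hd hcd x hxP z hzP hxz (mem_pts.1 hx.2).2
      (mem_pts.1 hz.1).2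
    have l3 : ln y z = ln e f := h.uniq e he f hf hef y hyP z hzP hyz (mem_pts.1 hy.2).2
      (mem_pts.1 hz.2).2
    refine htri x hxP y hyP z hzP hxy hxz hyz ?_ (l1 ▸ hg) (l2 ▸ hh) (l3 ▸ hk)
    rw [l1]
    intro hzg
    exact hxz (h.inter_le ha hb hab hc hd hcd hgh (mem_inter.2 hx)
      (mem_inter.2 ⟨mem_pts.2 ⟨hzP, hzg⟩, hz.1⟩))
  omega

end Pool.Agent.Lib.MP_fdd68d_co
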