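import Pool.Agent.Lib.MP_fdd68d_co.Defs
import Pool.Agent.Lib.MP_fdd68d_co.LinSp
import Pool.Agent.Lib.MP_fdd68d_co.Forest

/-!
The covers of a subspace form a linear space.
-/

namespace Pool.Agent.Lib.MP_fdd68d_co

set_option linter.unusedSectionVars false

open Module Finset Submodule

variable {K V : Type*} [Field K] [AddCommGroup V] [Module K V]

lemma mem_out {S : Finset V} {X : Submodule K V} {s : V} : s ∈ out S X ↔ s ∈ S ∧ s ∉ X := by
  classical
  simp [out]

lemma mem_cov {S : Finset V} {X p : Submodule K V} :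
    p ∈ cov S X ↔ ∃ s ∈ S, s ∉ X ∧ X ⊔ span K {s} = p := by
  classical
  simp only [cov, mem_image, mem_out]
  constructor
  · rintro ⟨s, ⟨h1, h2⟩, h3⟩
    exact ⟨s, h1, h2, h3⟩
  · rintro ⟨s, h1, h2, h3⟩
    exact ⟨s, ⟨h1, h2⟩, h3⟩

lemma le_of_mem_cov {S : Finset V} {X p : Submodule K V} (hp : p ∈ cov S X) : X ≤ p := by
  obtain ⟨s, _, _, rfl⟩ := mem_cov.1 hp
  exact le_sup_left

variable [FiniteDimensional K V]

lemma finrank_sup_span {X : Submodule K V} {s : V} (hs : s ∉ X) :
    finrank K (X ⊔ span K {s} : Submodule K V) = finrank K X + 1 := by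
  have h1 := Submodule.finrank_sup_add_finrank_inf_eq X (span K {s})
  have hs0 : s ≠ 0 := fun h => hs (h ▸ X.zero_mem)
  rw [finrank_span_singleton hs0] at h1
  have h2 : X ⊓ span K {s} = ⊥ := by
    rw [eq_bot_iff]
    intro v hv
    rw [Submodule.mem_inf, mem_span_singleton] at hv
    obtain ⟨hv1, c, rfl⟩ := hv
    by_cases hc : c = 0
    · simp [hc]
    · exact absurd ((X.smul_mem_iff hc).1 hv1) hs
  rw [h2, finrank_bot] at h1
  omega

lemma finrank_cov {S : Finset V} {X p : Submodule K V} (hp : p ∈ cov S X) :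
    finrank K p = finrank K X + 1 := by
  obtain ⟨s, _, hs, rfl⟩ := mem_cov.1 hp
  exact finrank_sup_span hs

lemma finrank_lt_of_lt {X Y : Submodule K V} (h : X < Y) : finrank K X < finrank K Y :=
  Submodule.finrank_lt_finrank_of_lt h

lemma finrank_join {S : Finset V} {X p q : Submodule K V} (hp : p ∈ cov S X) (hq : q ∈ cov S X)
    (hpq : p ≠ q) : finrank K (p ⊔ q : Submodule K V) = finrank K X + 2 := by
  have h1 := finrank_cov hp
  have h2 := finrank_cov hq
  have h3 := Submodule.finrank_sup_add_finrank_inf_eq p q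
  have h4 : p < p ⊔ q := by
    refine lt_of_le_of_ne le_sup_left fun h => hpq ?_
    have h5 : q ≤ p := by rw [h]; exact le_sup_right
    exact (Submodule.eq_of_le_of_finrank_eq h5 (by rw [h1, h2])).symm
  have h5 := finrank_lt_of_lt h4
  have h6 : X ≤ p ⊓ q := le_inf (le_of_mem_cov hp) (le_of_mem_cov hq)
  have h7 := Submodule.finrank_mono h6
  omega

lemma linSp_cov (S : Finset V) (X : Submodule K V) :
    LinSp (cov S X) (fun p q => p ⊔ q) (fun (p : Submodule K V) l => p ≤ l) where
  left := fun x _ y _ _ => le_sup_left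
  right := fun x _ y _ _ => le_sup_right
  uniq := by
    intro a ha b hb hab x hx y hy hxy hxl hyl
    have h1 := finrank_join ha hb hab
    have h2 := finrank_join hx hy hxy
    exact Submodule.eq_of_le_of_finrank_eq (sup_le hxl hyl) (by rw [h1, h2])

lemma three_le_iff {S : Finset V} {X p q : Submodule K V} (hp : p ∈ cov S X) (hq : q ∈ cov S X)
    (hpq : p ≠ q) :
    3 ≤ (pts (cov S X) (fun (p : Submodule K V) l => p ≤ l) (p ⊔ q)).card ↔ Long S X p q := by
  classical
  constructor
  · intro h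
    by_contra hn
    have hsub : pts (cov S X) (fun (p : Submodule K V) l => p ≤ l) (p ⊔ q) ⊆ {p, q} := by
      intro r hr
      rw [mem_pts] at hr
      rw [mem_insert, mem_singleton]
      by_contra hr2
      push Not at hr2
      exact hn ⟨r, hr.1, hr2.1, hr2.2, hr.2⟩
    have := card_le_card hsub
    have h2 : ({p, q} : Finset (Submodule K V)).card ≤ 2 := card_le_two
    omega
  · rintro ⟨r, hr, hrp, hrq, hle⟩
    have hsub : ({p, q, r} : Finset (Submodule K V)) ⊆
        pts (cov S X) (fun (p : Submodule K V) l => p ≤ l) (p ⊔ q) := by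
      intro w hw
      simp only [mem_insert, mem_singleton] at hw
      rw [mem_pts]
      rcases hw with rfl | rfl | rfl
      · exact ⟨hp, le_sup_left⟩
      · exact ⟨hq, le_sup_right⟩
      · exact ⟨hr, hle⟩
    have h3 : ({p, q, r} : Finset (Submodule K V)).card = 3 := by
      rw [card_eq_three]
      exact ⟨p, q, r, hpq, Ne.symm hrp, Ne.symm hrq, rfl⟩
    exact h3 ▸ card_le_card hsub

lemma noTri_cov {S : Finset V} {X : Submodule K V} (h : TriFree S X) :
    NoTri (cov S X) (fun p q => p ⊔ q) (fun (p : Submodule K V) l => p ≤ l) := by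
  intro x hx y hy z hz hxy hxz hyz hnot h1 h2 h3
  rw [three_le_iff hx hy hxy] at h1
  rw [three_le_iff hx hz hxz] at h2
  rw [three_le_iff hy hz hyz] at h3
  exact h x hx y hy z hz hxy hxz hyz hnot ⟨h1, h2, h3⟩

lemma deg_cov {S : Finset V} {X p : Submodule K V} (hp : p ∈ cov S X) :
    deg (cov S X) (fun p q => p ⊔ q) p = (cov S p).card := by
  classical
  rw [deg]
  congr 1
  ext l
  rw [mem_image, mem_cov]
  constructor
  · rintro ⟨q, hq, rfl⟩
    rw [mem_erase] at hq
    obtain ⟨s, hs, hsX, rfl⟩ := mem_cov.1 hq.2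
    refine ⟨s, hs, ?_, ?_⟩
    · intro hsp
      apply hq.1
      have hle : X ⊔ span K {s} ≤ p := sup_le (le_of_mem_cov hp) (by
        rw [span_singleton_le_iff_mem]; exact hsp)
      exact Submodule.eq_of_le_of_finrank_eq hle (by rw [finrank_cov hp, finrank_cov hq.2])
    · show _ = _
      rw [← sup_assoc, sup_eq_left.2 (le_of_mem_cov hp)]
  · rintro ⟨s, hs, hsp, rfl⟩
    have hsX : s ∉ X := fun h => hsp (le_of_mem_cov hp h)
    refine ⟨X ⊔ span K {s}, ?_, ?_⟩
    · rw [mem_erase]
      refine ⟨?_, mem_cov.2 ⟨s, hs, hsX, rfl⟩⟩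
      intro h
      apply hsp
      rw [← h]
      exact mem_sup_right (mem_span_singleton_self s)
    · show _ = _
      rw [← sup_assoc, sup_eq_left.2 (le_of_mem_cov hp)]

end Pool.Agent.Lib.MP_fdd68d_co
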