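import Pool.Agent.Lib.MP_fdd68d_co.Indec

/-!
The number of points off a connected hyperplane is at most exponential in the number of points of
the colines; the exponential growth is halved every second step.
-/

namespace Pool.Agent.Lib.MP_fdd68d_co

set_option linter.unusedSectionVars false

open Module Finset Submodule

variable {K V : Type*} [Field K] [AddCommGroup V] [Module K V]

/-! ### Arithmetic -/

/-- the invariant: `κ` classes and at least `m` good points -/
def Inv (a k m κ : ℕ) : Prop := ∃ i < k, 1 + a * 2 ^ i + (k - 1 - i) * m ≤ κ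

lemma step_mono {m x y : ℕ} (hm : 1 ≤ m) (h : x ≤ y) : x - (x / m - 1) ≤ y - (y / m - 1) := by
  obtain ⟨d, rfl⟩ := Nat.exists_eq_add_of_le h
  have h1 : (x + d) / m ≤ x / m + d := by
    rw [← Nat.add_mul_div_right x d (by omega : 0 < m)]
    apply Nat.div_le_div_right
    have : d * 1 ≤ d * m := Nat.mul_le_mul_left d hm
    omega
  have h2 : x / m ≤ x := Nat.div_le_self _ _
  omega

lemma Inv.step {a k m κ κ' : ℕ} (ha : a ≤ 3) (hm : 3 ≤ m) (h : Inv a k m κ)
    (hκ : κ - (κ / m - 1) ≤ κ') : Inv a k (m - 1) κ' := by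
  classical
  have hmin := Nat.find_spec h
  set i := Nat.find h with hi
  obtain ⟨hik, hle⟩ := hmin
  refine ⟨i, hik, ?_⟩
  -- `2 m > 1 + a 2 ^ i`
  have h2 : 1 + a * 2 ^ i < 2 * m := by
    rcases Nat.eq_zero_or_pos i with h0 | h0
    · rw [h0]
      omega
    · obtain ⟨l, hl⟩ := Nat.exists_eq_add_of_le' h0
      have h3 := Nat.find_min h (show l < Nat.find h by rw [← hi]; omega)
      push Not at h3
      have h4 := h3 (by omega)
      have h5 : (k - 1 - l) * m = (k - 1 - i) * m + m := by
        have : k - 1 - l = (k - 1 - i) + 1 := by omega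
        rw [this]
        ring
      have h6 : a * 2 ^ i = 2 * (a * 2 ^ l) := by
        rw [hl, pow_succ]
        ring
      rw [h6] at hle ⊢
      omega
  have h3 := (step_mono (by omega : 1 ≤ m) hle).trans hκ
  have h4 : (1 + a * 2 ^ i + (k - 1 - i) * m) / m ≤ (k - 1 - i) + 1 := by
    rw [Nat.add_mul_div_right _ _ (by omega : 0 < m)]
    have : (1 + a * 2 ^ i) / m < 2 := by
      rw [Nat.div_lt_iff_lt_mul (by omega)]
      omega
    omega
  have h5 : (k - 1 - i) * m = (k - 1 - i) * (m - 1) + (k - 1 - i) := by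
    obtain ⟨l, rfl⟩ := Nat.exists_eq_add_of_le' (show 1 ≤ m by omega)
    rw [Nat.add_sub_cancel]
    ring
  omega

lemma Inv.start {a k m κ : ℕ} (hk : 1 ≤ k) (h : a * 2 ^ (k - 1) < κ) : Inv a k m κ :=
  ⟨k - 1, by omega, by rw [Nat.sub_self, Nat.zero_mul]; omega⟩

lemma Inv.final {a k κ : ℕ} (ha : 2 ≤ a) (h : Inv a k 2 κ) : 2 * k + a ≤ κ + 1 := by
  obtain ⟨i, hi, h⟩ := h
  have h1 : i + 1 ≤ 2 ^ i := by
    have := Nat.lt_two_pow_self (n := i)
    omega
  have h2 : a * (i + 1) ≤ a * 2 ^ i := Nat.mul_le_mul_left a h1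
  have h3 : a * (i + 1) = a * i + a := by ring
  have h4 : 2 * i ≤ a * i := Nat.mul_le_mul_right i ha
  omega

/-! ### Mergers over distinct points -/

variable [FiniteDimensional K V]

/-- a point outside `G` and the subspace `G` -/
lemma covO_inf {S : Finset V} {B G w : Submodule K V} (hB : B ≤ G) (hw : w ∈ covO (out S G) B) :
    G ⊓ w = B := by
  obtain ⟨z, hz, rfl⟩ := mem_covO.1 hw
  exact inf_sup_span_eq hB (mem_out.1 hz).2

lemma covO_mem_cov {S : Finset V} {B G w : Submodule K V} (hB : B ≤ G)
    (hw : w ∈ covO (out S G) B) : w ∈ cov S B := by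
  obtain ⟨z, hz, rfl⟩ := mem_covO.1 hw
  exact mem_cov_of (mem_out.1 hz).1 fun h => (mem_out.1 hz).2 (hB h)

/-- mergers over distinct points of an indecomposable interval are disjoint -/
theorem mrg_disjoint (S : Finset V) (htf : ∀ X : Submodule K V, Sp S X → TriFree S X)
    (G : Submodule K V) : ∀ (j : ℕ) (B p p' : Submodule K V), Sp S B → Gen S B G → Indec S B G →
    finrank K G = finrank K B + (j + 2) → p ∈ cov S B → p' ∈ cov S B → p ≤ G → p' ≤ G → p ≠ p' →
    Disjoint (mrg (covO (out S G) B) (fun w => w ⊔ p))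
      (mrg (covO (out S G) B) (fun w => w ⊔ p')) := by
  classical
  intro j
  induction j with
  | zero =>
    intro B p p' hB hG hI hr hp hp' hpG hp'G hne
    rw [disjoint_left]
    intro w hw hw'
    obtain ⟨w1, w2, w3, w4, w5⟩ := mem_mrg.1 hw
    obtain ⟨-, v2, v3, v4, v5⟩ := mem_mrg.1 hw'
    have hwc := covO_mem_cov hG.1 w1
    have hwG := covO_inf hG.1 w1
    -- a third point
    have hg := card_goods S 0 B G hG hI hr
    obtain ⟨r, hrg, hr1⟩ := exists_mem_notMem_of_card_lt_card
      (s := {p, p'}) (t := goods S B G) (lt_of_le_of_lt card_le_two (by omega))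
    rw [mem_insert, mem_singleton, not_or] at hr1
    obtain ⟨hrc, hrG, -⟩ := mem_goods.1 hrg
    have hsup : p ⊔ p' = G := by
      apply Submodule.eq_of_le_of_finrank_eq (sup_le hpG hp'G)
      rw [finrank_join hp hp' hne, hr]
    have hnle : ∀ x ∈ cov S B, x ≤ G → w ≠ x := by
      rintro x hx hxG rfl
      rw [inf_eq_right.2 hxG] at hwG
      have := finrank_cov hx
      rw [hwG] at this
      omega
    refine htf B hB w hwc p hp p' hp' (hnle p hp hpG) (hnle p' hp' hp'G) hne ?_ ⟨?_, ?_, ?_⟩
    · intro hle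
      apply hne
      refine (cov_eq_of_le hp' hp ?_).symm
      have h1 : G ⊓ (p ⊔ w) = p := by
        rw [inf_comm, sup_inf_assoc_of_le w hpG, inf_comm, hwG]
        exact sup_eq_left.2 (le_of_mem_cov hp)
      rw [← h1, sup_comm p w]
      exact le_inf hp'G hle
    · exact ⟨w2, covO_mem_cov hG.1 w3, w4, fun h => by
        have h1 := covO_inf hG.1 w3
        rw [h, inf_eq_right.2 hpG] at h1
        have := finrank_cov hp
        rw [h1] at this
        omega, by
        have h2 : w2 ⊔ p = w ⊔ p := w5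
        rw [← h2]
        exact le_sup_left⟩
    · exact ⟨v2, covO_mem_cov hG.1 v3, v4, fun h => by
        have h1 := covO_inf hG.1 v3
        rw [h, inf_eq_right.2 hp'G] at h1
        have := finrank_cov hp'
        rw [h1] at this
        omega, by
        have h2 : v2 ⊔ p' = w ⊔ p' := v5
        rw [← h2]
        exact le_sup_left⟩
    · exact ⟨r, hrc, hr1.1, hr1.2, hsup ▸ hrG⟩
  | succ j ih =>
    intro B p p' hB hG hI hr hp hp' hpG hp'G hne
    rw [disjoint_left]
    intro w hw hw'
    obtain ⟨w1, w2, w3, w4, w5⟩ := mem_mrg.1 hw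
    obtain ⟨-, v2, v3, v4, v5⟩ := mem_mrg.1 hw'
    have hwc := covO_mem_cov hG.1 w1
    have hwG := covO_inf hG.1 w1
    have hg := card_goods S (j + 1) B G hG hI hr
    obtain ⟨r, hrg, hr1⟩ := exists_mem_notMem_of_card_lt_card
      (s := {p, p'}) (t := goods S B G) (lt_of_le_of_lt card_le_two (by omega))
    rw [mem_insert, mem_singleton, not_or] at hr1
    obtain ⟨hrc, hrG, hrI⟩ := mem_goods.1 hrg
    by_cases hlong : r ≤ p ⊔ p'
    · have hnle : ∀ x ∈ cov S B, x ≤ G → w ≠ x := by
        rintro x hx hxG rfl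
        rw [inf_eq_right.2 hxG] at hwG
        have := finrank_cov hx
        rw [hwG] at this
        omega
      refine htf B hB w hwc p hp p' hp' (hnle p hp hpG) (hnle p' hp' hp'G) hne ?_ ⟨?_, ?_, ?_⟩
      · intro hle
        apply hne
        refine (cov_eq_of_le hp' hp ?_).symm
        have h1 : G ⊓ (p ⊔ w) = p := by
          rw [inf_comm, sup_inf_assoc_of_le w hpG, inf_comm, hwG]
          exact sup_eq_left.2 (le_of_mem_cov hp)
        rw [← h1, sup_comm p w]
        exact le_inf hp'G hle
      · exact ⟨w2, covO_mem_cov hG.1 w3, w4, fun h => by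
          have h1 := covO_inf hG.1 w3
          rw [h, inf_eq_right.2 hpG] at h1
          have := finrank_cov hp
          rw [h1] at this
          omega, by
          have h2 : w2 ⊔ p = w ⊔ p := w5
          rw [← h2]
          exact le_sup_left⟩
      · exact ⟨v2, covO_mem_cov hG.1 v3, v4, fun h => by
          have h1 := covO_inf hG.1 v3
          rw [h, inf_eq_right.2 hp'G] at h1
          have := finrank_cov hp'
          rw [h1] at this
          omega, by
          have h2 : v2 ⊔ p' = w ⊔ p' := v5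
          rw [← h2]
          exact le_sup_left⟩
      · exact ⟨r, hrc, hr1.1, hr1.2, hlong⟩
    · -- contract `r`
      have hBr : B ≤ r := le_of_mem_cov hrc
      have hrr := finrank_cov hrc
      have hspr : Sp S r := by
        obtain ⟨s, hs, -, rfl⟩ := mem_cov.1 hrc
        exact hB.sup hs
      have lift : ∀ x ∈ cov S B, x ≤ G → r ≠ x → w ∈ mrg (covO (out S G) B) (fun w => w ⊔ x) →
          w ⊔ r ∈ mrg (covO (out S G) r) (fun w => w ⊔ (x ⊔ r)) := by
        intro x hx hxG hrx hm
        obtain ⟨m1, u, m3, m4, m5⟩ := mem_mrg.1 hm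
        have m5' : u ⊔ x = w ⊔ x := m5
        have hcr : ∀ y ∈ covO (out S G) B, y ⊔ r ∈ covO (out S G) r := by
          intro y hy
          obtain ⟨z, hz, rfl⟩ := mem_covO.1 hy
          exact mem_covO.2 ⟨z, hz, by rw [sup_right_comm, sup_eq_right.2 hBr]⟩
        refine mem_mrg.2 ⟨hcr w m1, u ⊔ r, hcr u m3, ?_, ?_⟩
        · intro heq
          -- then `u ≤ (w ⊔ r) ⊓ (w ⊔ x) = w`
          have h1 : u ≤ w ⊔ r := by rw [← heq]; exact le_sup_left
          have h2 : u ≤ w ⊔ x := by rw [← m5']; exact le_sup_left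
          have huc := covO_mem_cov hG.1 m3
          have h3 : w ⊔ u = w ⊔ r := by
            apply Submodule.eq_of_le_of_finrank_eq (sup_le le_sup_left h1)
            rw [finrank_join hwc huc (Ne.symm m4), finrank_join hwc hrc]
            rintro rfl
            rw [inf_eq_right.2 hrG] at hwG
            rw [hwG] at hrr
            omega
          have h4 : r ≤ w ⊔ x := by
            have : w ⊔ u ≤ w ⊔ x := sup_le le_sup_left h2
            rw [h3] at this
            exact le_sup_right.trans this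
          apply hrx
          refine cov_eq_of_le hrc hx ?_
          have h5 : G ⊓ (x ⊔ w) = x := by
            rw [inf_comm, sup_inf_assoc_of_le w hxG, inf_comm, hwG]
            exact sup_eq_left.2 (le_of_mem_cov hx)
          rw [← h5, sup_comm x w]
          exact le_inf hrG h4
        · show u ⊔ r ⊔ (x ⊔ r) = w ⊔ r ⊔ (x ⊔ r)
          rw [sup_sup_sup_comm, m5', ← sup_sup_sup_comm]
      have hne' : p ⊔ r ≠ p' ⊔ r := by
        intro heq
        apply hlong
        have h1 : p ⊔ p' = p ⊔ r := by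
          apply Submodule.eq_of_le_of_finrank_eq
          · refine sup_le le_sup_left ?_
            rw [heq]
            exact le_sup_left
          · rw [finrank_join hp hp' hne, finrank_join hp hrc (Ne.symm hr1.1)]
        rw [h1]
        exact le_sup_right
      have hd := ih r (p ⊔ r) (p' ⊔ r) hspr (hG.mono hBr hrG) hrI (by omega)
        (cov_sup hrc hp hr1.1) (cov_sup hrc hp' hr1.2) (sup_le hpG hrG) (sup_le hp'G hrG) hne'
      rw [disjoint_left] at hd
      exact hd (lift p hp hpG hr1.1 hw) (lift p' hp' hp'G hr1.2 hw')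

/-- a good point with few mergers -/
lemma exists_few_mrg (S : Finset V) (htf : ∀ X : Submodule K V, Sp S X → TriFree S X)
    (G : Submodule K V) (j : ℕ) (B : Submodule K V) (hB : Sp S B) (hG : Gen S B G)
    (hI : Indec S B G) (hr : finrank K G = finrank K B + (j + 2)) :
    ∃ p ∈ goods S B G, (mrg (covO (out S G) B) (fun w => w ⊔ p)).card ≤
      (covO (out S G) B).card / (j + 3) := by
  classical
  by_contra hcon
  push Not at hcon
  have hg := card_goods S j B G hG hI hr
  have h1 : ((goods S B G).biUnion fun p => mrg (covO (out S G) B) (fun w => w ⊔ p)).card =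
      ∑ p ∈ goods S B G, (mrg (covO (out S G) B) (fun w => w ⊔ p)).card := by
    apply card_biUnion
    intro p hp p' hp' hne
    rw [mem_coe, mem_goods] at hp hp'
    exact mrg_disjoint S htf G j B p p' hB hG hI hr hp.1 hp'.1 hp.2.1 hp'.2.1 hne
  have h2 : ((goods S B G).biUnion fun p => mrg (covO (out S G) B) (fun w => w ⊔ p)).card ≤
      (covO (out S G) B).card := by
    apply card_le_card
    intro w hw
    rw [mem_biUnion] at hw
    obtain ⟨p, -, hw⟩ := hw
    exact (mem_mrg.1 hw).1
  have h3 : (goods S B G).card * ((covO (out S G) B).card / (j + 3) + 1) ≤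
      ∑ p ∈ goods S B G, (mrg (covO (out S G) B) (fun w => w ⊔ p)).card := by
    rw [← smul_eq_mul]
    apply card_nsmul_le_sum
    intro p hp
    exact hcon p hp
  have h4 : (j + 3) * ((covO (out S G) B).card / (j + 3) + 1) ≤
      (goods S B G).card * ((covO (out S G) B).card / (j + 3) + 1) := Nat.mul_le_mul_right _ hg
  have h5 : (covO (out S G) B).card < (j + 3) * ((covO (out S G) B).card / (j + 3) + 1) :=
    Nat.lt_mul_div_succ _ (by omega)
  omega

/-- growing a hyperplane of `G` with many covers -/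
theorem grow (S : Finset V) (htf : ∀ X : Submodule K V, Sp S X → TriFree S X)
    (G : Submodule K V) {a k : ℕ} (ha2 : 2 ≤ a) (ha3 : a ≤ 3) : ∀ (j : ℕ) (B : Submodule K V),
    Sp S B → Gen S B G → Indec S B G → finrank K G = finrank K B + (j + 1) →
    Inv a k (j + 2) (covO (out S G) B).card →
    ∃ X, Hyp S G X ∧ 2 * k + a ≤ (covO (out S G) X).card + 1 := by
  classical
  intro j
  induction j with
  | zero =>
    intro B hB hG _ hr hinv
    exact ⟨B, ⟨hB, hG.1, by omega⟩, hinv.final ha2⟩
  | succ j ih =>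
    intro B hB hG hI hr hinv
    obtain ⟨p, hp, hfew⟩ := exists_few_mrg S htf G j B hB hG hI (by omega)
    obtain ⟨hpc, hpG, hpI⟩ := mem_goods.1 hp
    have hpr := finrank_cov hpc
    have hBp := le_of_mem_cov hpc
    have hspp : Sp S p := by
      obtain ⟨s, hs, -, rfl⟩ := mem_cov.1 hpc
      exact hB.sup hs
    have h1 := covO_image (O := out S G) hBp
    have hloss : (covO (out S G) B).card - ((covO (out S G) B).card / (j + 3) - 1) ≤
        (covO (out S G) p).card := by
      rcases Nat.lt_or_ge (covO (out S G) p).card (covO (out S G) B).card with h2 | h2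
      · have h3 := card_mrg (covO (out S G) B) (fun w => w ⊔ p) (by rw [h1]; exact h2)
        rw [h1] at h3
        omega
      · omega
    exact ih p hspp (hG.mono hBp hpG) hpI (by omega) (hinv.step ha3 (by omega) hloss)

/-- a connected subspace is indecomposable -/
lemma Conn.indec {S : Finset V} {G : Submodule K V} (hC : Conn S G) : Indec S ⊥ G := by
  intro X Y ⟨h1, h2, h3⟩
  by_contra hcon
  push Not at hcon
  obtain ⟨u, hu, hu0⟩ := X.exists_mem_ne_zero_of_ne_bot hcon.1
  obtain ⟨v, hv, hv0⟩ := Y.exists_mem_ne_zero_of_ne_bot hcon.2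
  have hXG : X ≤ G := h2 ▸ le_sup_left
  have hYG : Y ≤ G := h2 ▸ le_sup_right
  obtain ⟨B, ⟨T, hT, hTB⟩, hBG, hBr, huB, hvB⟩ := hC u (hXG hu) v (hYG hv) hu0 hv0
  have e1 : B ≤ (X ⊓ B) ⊔ (Y ⊓ B) := by
    have : span K (T : Set V) ≤ (X ⊓ B) ⊔ (Y ⊓ B) := by
      rw [span_le]
      intro t ht
      have htB : t ∈ B := hTB ▸ subset_span ht
      rcases h3 t (hT ht) (hBG htB) with h4 | h4
      · exact mem_sup_left (Submodule.mem_inf.2 ⟨h4, htB⟩)
      · exact mem_sup_right (Submodule.mem_inf.2 ⟨h4, htB⟩)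
    rwa [hTB] at this
  have e2 : X ⊓ B < X := lt_of_le_of_ne inf_le_left fun h => huB (by
    rw [← h] at hu
    exact (Submodule.mem_inf.1 hu).2)
  have e3 : Y ⊓ B < Y := lt_of_le_of_ne inf_le_left fun h => hvB (by
    rw [← h] at hv
    exact (Submodule.mem_inf.1 hv).2)
  have f1 := finrank_lt_of_lt e2
  have f2 := finrank_lt_of_lt e3
  have f3 := Submodule.finrank_mono e1
  have f4 := Submodule.finrank_add_le_finrank_add_finrank (X ⊓ B) (Y ⊓ B)
  have f5 := Submodule.finrank_sup_add_finrank_inf_eq X Y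
  rw [h1, h2, finrank_bot] at f5
  omega

lemma Sp.gen {S : Finset V} {G : Submodule K V} (h : Sp S G) : Gen S ⊥ G := by
  refine ⟨bot_le, fun Z _ hZ => ?_⟩
  obtain ⟨T, hT, rfl⟩ := h
  rw [span_le]
  intro t ht
  exact hZ t (hT ht) (subset_span ht)

/-- The core: few points on the colines force few points off a connected hyperplane. -/
theorem core_log (S : Finset V) (hS : Geometry K S) {a k : ℕ} (ha2 : 2 ≤ a) (ha3 : a ≤ 3)
    (hk : 1 ≤ k) (G : Submodule K V) (hG : Sp S G) (hconn : Conn S G)
    (hG1 : 1 ≤ finrank K G) (hGV : finrank K G + 1 = finrank K V)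
    (hout : a * 2 ^ (k - 1) < (out S G).card)
    (htf : ∀ X : Submodule K V, Sp S X → TriFree S X) :
    ∃ X : Submodule K V, Sp S X ∧ finrank K X + 2 = finrank K V ∧
      2 * k + a ≤ (cov S X).card := by
  classical
  obtain ⟨j, hj⟩ := Nat.exists_eq_add_of_le' hG1
  have hcard : (covO (out S G) (⊥ : Submodule K V)).card = (out S G).card := by
    rw [covO, card_image_of_injOn]
    intro x hx y hy hxy
    rw [mem_coe, mem_out] at hx hy
    exact inj_bot hS hx.1 hy.1 hxy
  obtain ⟨X, hX, hc⟩ := grow S htf G ha2 ha3 j ⊥ ⟨∅, empty_subset _, by simp⟩ hG.gen hconn.indec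
    (by rw [finrank_bot]; omega) (Inv.start hk (by rw [hcard]; exact hout))
  refine ⟨X, hX.1, by have := hX.2.2; omega, hc.trans (card_covO_lt hG hX)⟩

end Pool.Agent.Lib.MP_fdd68d_co
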