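import Pool.Agent.Lib.MP_fdd68d_co.SmallQ

/-!
Indecomposable intervals of spanned subspaces: an indecomposable interval of rank `j ≥ 2` has at
least `j + 1` points whose contraction is again indecomposable.
-/

namespace Pool.Agent.Lib.MP_fdd68d_co

set_option linter.unusedSectionVars false

open Module Finset Submodule

variable {K V : Type*} [Field K] [AddCommGroup V] [Module K V]

/-- `G` is generated by `B` and the elements of `S` in `G`. -/
def Gen (S : Finset V) (B G : Submodule K V) : Prop :=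
  B ≤ G ∧ ∀ Z : Submodule K V, B ≤ Z → (∀ s ∈ S, s ∈ G → s ∈ Z) → G ≤ Z

/-- `G = X ⊔ Y` is a decomposition of the interval from `B` to `G`. -/
def Dec (S : Finset V) (B G X Y : Submodule K V) : Prop :=
  X ⊓ Y = B ∧ X ⊔ Y = G ∧ ∀ s ∈ S, s ∈ G → s ∈ X ∨ s ∈ Y

/-- The interval from `B` to `G` has no nontrivial decomposition. -/
def Indec (S : Finset V) (B G : Submodule K V) : Prop :=
  ∀ X Y : Submodule K V, Dec S B G X Y → X = B ∨ Y = B

lemma Dec.symm {S : Finset V} {B G X Y : Submodule K V} (h : Dec S B G X Y) : Dec S B G Y X :=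
  ⟨by rw [inf_comm]; exact h.1, by rw [sup_comm]; exact h.2.1, fun s hs hG => (h.2.2 s hs hG).symm⟩

lemma Gen.mono {S : Finset V} {B p G : Submodule K V} (h : Gen S B G) (hB : B ≤ p) (hp : p ≤ G) :
    Gen S p G :=
  ⟨hp, fun Z hZ hs => h.2 Z (hB.trans hZ) hs⟩

lemma mem_sup_span (B : Submodule K V) (s : V) : s ∈ B ⊔ span K {s} :=
  mem_sup_right (mem_span_singleton_self s)

lemma inf_sup_span_eq {B P : Submodule K V} {s : V} (hB : B ≤ P) (hs : s ∉ P) :
    P ⊓ (B ⊔ span K {s}) = B := by
  apply le_antisymm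
  · intro x hx
    obtain ⟨h1, h2⟩ := Submodule.mem_inf.1 hx
    by_contra hxB
    exact hs (sup_span_le hB h1 (exch h2 hxB))
  · exact le_inf hB le_sup_left

/-- parts of a decomposition of `G` above a point are generated -/
lemma Dec.gen {S : Finset V} {B G X Y : Submodule K V} {s : V} (hs : s ∈ S)
    (hG : Gen S B G) (h : Dec S (B ⊔ span K {s}) G X Y) : Gen S B X := by
  obtain ⟨h1, h2, h3⟩ := h
  have hpX : B ⊔ span K {s} ≤ X := h1 ▸ inf_le_left
  refine ⟨le_sup_left.trans hpX, fun Z hZ hS => ?_⟩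
  have hXG : X ≤ G := h2 ▸ le_sup_left
  have hsZ : s ∈ Z := hS s hs (hpX (mem_sup_span B s))
  have hpZ : B ⊔ span K {s} ≤ Z := sup_span_le hZ hsZ
  have h4 : G ≤ (X ⊓ Z) ⊔ Y := by
    apply hG.2
    · exact le_sup_of_le_left (le_inf (le_sup_left.trans hpX) hZ)
    · intro t ht htG
      rcases h3 t ht htG with h5 | h5
      · exact mem_sup_left (Submodule.mem_inf.2 ⟨h5, hS t ht h5⟩)
      · exact mem_sup_right h5
  have h5 : X ≤ (X ⊓ Z) ⊔ (Y ⊓ X) := by
    rw [← sup_inf_assoc_of_le Y (inf_le_left : X ⊓ Z ≤ X)]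
    exact le_inf (hXG.trans h4) le_rfl
  refine h5.trans (sup_le inf_le_right ?_)
  rw [inf_comm, h1]
  exact hpZ

/-- parts of a decomposition of `G` above a point are indecomposable -/
lemma Dec.indec {S : Finset V} {B G X Y : Submodule K V} {s : V} (hs : s ∈ S) (hsB : s ∉ B)
    (hI : Indec S B G) (h : Dec S (B ⊔ span K {s}) G X Y) : Indec S B X := by
  obtain ⟨h1, h2, h3⟩ := h
  have hpX : B ⊔ span K {s} ≤ X := h1 ▸ inf_le_left
  have hpY : B ⊔ span K {s} ≤ Y := h1 ▸ inf_le_right
  have key : ∀ X1 X2, Dec S B X X1 X2 → s ∈ X1 → X2 = B := by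
    rintro X1 X2 ⟨k1, k2, k3⟩ hs1
    have hB1 : B ≤ X1 := k1 ▸ inf_le_left
    have hB2 : B ≤ X2 := k1 ▸ inf_le_right
    have hp1 : B ⊔ span K {s} ≤ X1 := sup_span_le hB1 hs1
    have hX1 : X1 ≤ X := k2 ▸ le_sup_left
    have hX2 : X2 ≤ X := k2 ▸ le_sup_right
    have e1 : (X1 ⊔ Y) ⊓ X2 = B := by
      apply le_antisymm
      · rw [← k1]
        refine le_inf ?_ inf_le_right
        have : (X1 ⊔ Y) ⊓ X2 ≤ (X1 ⊔ Y) ⊓ X := inf_le_inf_left _ hX2
        refine this.trans ?_
        rw [sup_inf_assoc_of_le Y hX1, inf_comm, h1]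
        exact sup_le le_rfl hp1
      · exact le_inf (hB1.trans le_sup_left) hB2
    have e2 : (X1 ⊔ Y) ⊔ X2 = G := by
      rw [sup_right_comm, k2, h2]
    have e3 : ∀ t ∈ S, t ∈ G → t ∈ X1 ⊔ Y ∨ t ∈ X2 := by
      intro t ht htG
      rcases h3 t ht htG with h5 | h5
      · rcases k3 t ht h5 with h6 | h6
        · exact Or.inl (mem_sup_left h6)
        · exact Or.inr h6
      · exact Or.inl (mem_sup_right h5)
    rcases hI _ _ ⟨e1, e2, e3⟩ with h4 | h4
    · exfalso
      apply hsB
      rw [← h4]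
      exact mem_sup_left hs1
    · exact h4
  intro X1 X2 hd
  rcases hd.2.2 s hs (hpX (mem_sup_span B s)) with h4 | h4
  · exact Or.inr (key X1 X2 hd h4)
  · exact Or.inl (key X2 X1 hd.symm h4)

/-- good points of a part are good points of the whole -/
lemma Dec.lift {S : Finset V} {B G X Y : Submodule K V} {s t : V} (hs : s ∈ S)
    (htB : t ∉ B) (hst : s ∉ B ⊔ span K {t}) (htX : t ∈ X)
    (hG : Gen S B G) (hI : Indec S B G) (h : Dec S (B ⊔ span K {s}) G X Y)
    (hX : Indec S (B ⊔ span K {t}) X) : Indec S (B ⊔ span K {t}) G := by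
  have hGX : Gen S B X := h.gen hs hG
  obtain ⟨h1, h2, h3⟩ := h
  have hpX : B ⊔ span K {s} ≤ X := h1 ▸ inf_le_left
  have hpY : B ⊔ span K {s} ≤ Y := h1 ▸ inf_le_right
  have hsX : s ∈ X := hpX (mem_sup_span B s)
  have hXG : X ≤ G := h2 ▸ le_sup_left
  set p := B ⊔ span K {t} with hp
  have hBp : B ≤ p := le_sup_left
  have hpX' : p ≤ X := sup_span_le (le_sup_left.trans hpX) htX
  have key : ∀ A C, Dec S p G A C → s ∈ A → C = p := by
    rintro A C ⟨k1, k2, k3⟩ hsA
    have hpA : p ≤ A := k1 ▸ inf_le_left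
    have hpC : p ≤ C := k1 ▸ inf_le_right
    have e1 : (A ⊓ X) ⊓ (C ⊓ X) = p := by
      rw [← inf_inf_distrib_right, k1, inf_eq_left.2 hpX']
    have e2 : (A ⊓ X) ⊔ (C ⊓ X) = X := by
      apply le_antisymm (sup_le inf_le_right inf_le_right)
      apply hGX.2
      · exact le_sup_of_le_left (le_inf (hBp.trans hpA) (hBp.trans hpX'))
      · intro r hr hrX
        rcases k3 r hr (hXG hrX) with h4 | h4
        · exact mem_sup_left (Submodule.mem_inf.2 ⟨h4, hrX⟩)
        · exact mem_sup_right (Submodule.mem_inf.2 ⟨h4, hrX⟩)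
    have e30 : ∀ r ∈ S, r ∈ X → r ∈ A ⊓ X ∨ r ∈ C ⊓ X := by
      intro r hr hrX
      rcases k3 r hr (hXG hrX) with h4 | h4
      · exact Or.inl (Submodule.mem_inf.2 ⟨h4, hrX⟩)
      · exact Or.inr (Submodule.mem_inf.2 ⟨h4, hrX⟩)
    have e3 : C ⊓ X = p := by
      rcases hX _ _ ⟨e1, e2, e30⟩ with h4 | h4
      · exfalso
        apply hst
        rw [← h4]
        exact Submodule.mem_inf.2 ⟨hsA, hsX⟩
      · exact h4
    have e4 : X ≤ A := by
      rw [e3, sup_eq_left.2 (le_inf hpA hpX')] at e2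
      rw [← e2]
      exact inf_le_left
    have hBY : B ≤ Y := le_sup_left.trans hpY
    have e5 : A ⊓ (C ⊓ Y) = B := by
      rw [← inf_assoc, k1]
      apply le_antisymm
      · have : p ⊓ Y ≤ p ⊓ (B ⊔ span K {s}) := by
          rw [← h1]
          exact le_inf inf_le_left (le_inf (inf_le_left.trans hpX') inf_le_right)
        refine this.trans ?_
        rw [inf_sup_span_eq hBp hst]
      · exact le_inf hBp hBY
    have e6 : A ⊔ (C ⊓ Y) = G := by
      apply le_antisymm
      · exact sup_le (k2 ▸ le_sup_left) (inf_le_left.trans (k2 ▸ le_sup_right))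
      · apply hG.2
        · exact le_sup_of_le_left (hBp.trans hpA)
        · intro r hr hrG
          rcases k3 r hr hrG with h4 | h4
          · exact mem_sup_left h4
          · rcases h3 r hr hrG with h5 | h5
            · exact mem_sup_left (e4 h5)
            · exact mem_sup_right (Submodule.mem_inf.2 ⟨h4, h5⟩)
    have e60 : ∀ r ∈ S, r ∈ G → r ∈ A ∨ r ∈ C ⊓ Y := by
      intro r hr hrG
      rcases k3 r hr hrG with h4 | h4
      · exact Or.inl h4
      · rcases h3 r hr hrG with h5 | h5
        · exact Or.inl (e4 h5)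
        · exact Or.inr (Submodule.mem_inf.2 ⟨h4, h5⟩)
    rcases hI _ _ ⟨e5, e6, e60⟩ with h4 | h4
    · exfalso
      apply htB
      rw [← h4]
      exact hpA (mem_sup_span B t)
    · have e7 : A = G := by
        rw [h4, sup_eq_left.2 (hBp.trans hpA)] at e6
        exact e6
      have e8 : C ≤ A := by
        rw [e7, ← k2]
        exact le_sup_right
      rw [inf_eq_right.2 e8] at k1
      exact k1
  intro A C hd
  rcases hd.2.2 s hs (hXG hsX) with h4 | h4
  · exact Or.inr (key A C hd h4)
  · exact Or.inl (key C A hd.symm h4)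

/-- points of the interval from `B` to `G` -/
lemma mem_cov_of {S : Finset V} {B : Submodule K V} {s : V} (hs : s ∈ S) (hsB : s ∉ B) :
    B ⊔ span K {s} ∈ cov S B :=
  mem_cov.2 ⟨s, hs, hsB, rfl⟩

open Classical in
/-- the points `p` of the interval from `B` to `G` with indecomposable contraction -/
noncomputable def goods (S : Finset V) (B G : Submodule K V) : Finset (Submodule K V) :=
  (cov S B).filter fun p => p ≤ G ∧ Indec S p G

lemma mem_goods {S : Finset V} {B G p : Submodule K V} :
    p ∈ goods S B G ↔ p ∈ cov S B ∧ p ≤ G ∧ Indec S p G := by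
  classical
  rw [goods, mem_filter]

variable [FiniteDimensional K V]

lemma cov_eq_of_le {S : Finset V} {B p r : Submodule K V} (hp : p ∈ cov S B) (hr : r ∈ cov S B)
    (h : p ≤ r) : p = r :=
  Submodule.eq_of_le_of_finrank_eq h (by rw [finrank_cov hp, finrank_cov hr])

lemma cov_sup {S : Finset V} {B p r : Submodule K V} (hp : p ∈ cov S B) (hr : r ∈ cov S B)
    (h : p ≠ r) : r ⊔ p ∈ cov S p := by
  obtain ⟨s, hs, hsB, rfl⟩ := mem_cov.1 hr
  refine mem_cov.2 ⟨s, hs, ?_, ?_⟩
  · intro hsp
    exact h (cov_eq_of_le hr hp (sup_span_le (le_of_mem_cov hp) hsp)).symm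
  · rw [sup_right_comm, sup_eq_right.2 (le_of_mem_cov hp)]

/-- the number of points with indecomposable contraction -/
theorem card_goods (S : Finset V) : ∀ (j : ℕ) (B G : Submodule K V), Gen S B G → Indec S B G →
    finrank K G = finrank K B + (j + 2) → j + 3 ≤ (goods S B G).card := by
  classical
  intro j
  induction j using Nat.strong_induction_on with
  | _ j ih =>
  intro B G hG hI hr
  by_cases hbad : ∃ p ∈ cov S B, p ≤ G ∧ ¬ Indec S p G
  · -- a bad point
    obtain ⟨p, hp, hpG, hbad⟩ := hbad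
    unfold Indec at hbad
    push Not at hbad
    obtain ⟨X, Y, hd, hXp, hYp⟩ := hbad
    obtain ⟨s, hs, hsB, rfl⟩ := mem_cov.1 hp
    have hpX : B ⊔ span K {s} ≤ X := hd.1 ▸ inf_le_left
    have hpY : B ⊔ span K {s} ≤ Y := hd.1 ▸ inf_le_right
    have r1 := Submodule.finrank_sup_add_finrank_inf_eq X Y
    rw [hd.1, hd.2.1] at r1
    have r2 := finrank_lt_of_lt (lt_of_le_of_ne hpX (Ne.symm hXp))
    have r3 := finrank_lt_of_lt (lt_of_le_of_ne hpY (Ne.symm hYp))
    have r4 := finrank_sup_span hsB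
    obtain ⟨x, hx⟩ := Nat.exists_eq_add_of_le
      (show finrank K B + 2 ≤ finrank K X by omega)
    obtain ⟨y, hy⟩ := Nat.exists_eq_add_of_le
      (show finrank K B + 2 ≤ finrank K Y by omega)
    have c1 := ih x (by omega) B X (hd.gen hs hG) (hd.indec hs hsB hI) (by omega)
    have c2 := ih y (by omega) B Y (hd.symm.gen hs hG) (hd.symm.indec hs hsB hI) (by omega)
    have hsub : ∀ X Y, Dec S (B ⊔ span K {s}) G X Y →
        (goods S B X).erase (B ⊔ span K {s}) ⊆ goods S B G := by
      intro X Y hd r hr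
      rw [mem_erase, mem_goods] at hr
      obtain ⟨hne, hrc, hrX, hrI⟩ := hr
      obtain ⟨t, ht, htB, rfl⟩ := mem_cov.1 hrc
      refine mem_goods.2 ⟨hrc, hrX.trans (hd.2.1 ▸ le_sup_left), ?_⟩
      refine hd.lift hs htB ?_ (hrX (mem_sup_span B t)) hG hI hrI
      intro hmem
      exact hne (cov_eq_of_le hp hrc (sup_span_le le_sup_left hmem)).symm
    have hdis : Disjoint ((goods S B X).erase (B ⊔ span K {s}))
        ((goods S B Y).erase (B ⊔ span K {s})) := by
      rw [disjoint_left]
      intro r h1 h2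
      rw [mem_erase, mem_goods] at h1 h2
      apply h1.1
      refine cov_eq_of_le h1.2.1 hp ?_
      rw [← hd.1]
      exact le_inf h1.2.2.1 h2.2.2.1
    have c3 := card_le_card (union_subset (hsub X Y hd) (hsub Y X hd.symm))
    rw [card_union_of_disjoint hdis] at c3
    have c4 := Finset.pred_card_le_card_erase (s := goods S B X) (a := B ⊔ span K {s})
    have c5 := Finset.pred_card_le_card_erase (s := goods S B Y) (a := B ⊔ span K {s})
    omega
  · push Not at hbad
    -- every point is good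
    have hall : ∀ p ∈ cov S B, p ≤ G → p ∈ goods S B G := fun p hp hpG =>
      mem_goods.2 ⟨hp, hpG, hbad p hp hpG⟩
    obtain ⟨s, hs, hsG, hsB⟩ : ∃ s ∈ S, s ∈ G ∧ s ∉ B := by
      by_contra hcon
      push Not at hcon
      have h1 := Submodule.finrank_mono (hG.2 B le_rfl hcon)
      omega
    have hp := mem_cov_of hs hsB
    set p := B ⊔ span K {s} with hpdef
    have hpG : p ≤ G := sup_span_le hG.1 hsG
    have hpr : finrank K p = finrank K B + 1 := finrank_sup_span hsB
    rcases Nat.eq_zero_or_pos j with hj | hj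
    · -- rank two
      subst hj
      obtain ⟨t, ht, htG, htp⟩ : ∃ t ∈ S, t ∈ G ∧ t ∉ p := by
        by_contra hcon
        push Not at hcon
        have h1 := Submodule.finrank_mono (hG.2 p le_sup_left hcon)
        omega
      have htB : t ∉ B := fun h => htp (le_sup_left (a := B) h)
      set r := B ⊔ span K {t} with hrdef
      have hr' : r ∈ cov S B := mem_cov_of ht htB
      have hrG : r ≤ G := sup_span_le hG.1 htG
      have hprne : p ≠ r := by
        intro h
        exact htp (h ▸ mem_sup_span B t)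
      have hinf : p ⊓ r = B := inf_sup_span_eq le_sup_left htp
      have hsup : p ⊔ r = G := by
        apply Submodule.eq_of_le_of_finrank_eq (sup_le hpG hrG)
        rw [finrank_join hp hr' hprne, hr]
      obtain ⟨u, hu, huG, hup, hur⟩ : ∃ u ∈ S, u ∈ G ∧ u ∉ p ∧ u ∉ r := by
        by_contra hcon
        push Not at hcon
        rcases hI p r ⟨hinf, hsup, fun u hu huG => by
          by_cases h : u ∈ p
          · exact Or.inl h
          · exact Or.inr (hcon u hu huG h)⟩ with h | h
        · exact hsB (h ▸ mem_sup_span B s)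
        · exact htB (h ▸ mem_sup_span B t)
      have huB : u ∉ B := fun h => hup (le_sup_left (a := B) h)
      have hm : ({p, r, B ⊔ span K {u}} : Finset (Submodule K V)) ⊆ goods S B G := by
        intro z hz
        rw [mem_insert, mem_insert, mem_singleton] at hz
        rcases hz with rfl | rfl | rfl
        · exact hall _ hp hpG
        · exact hall _ hr' hrG
        · exact hall _ (mem_cov_of hu huB) (sup_span_le hG.1 huG)
      have hc := card_le_card hm
      rw [card_eq_three.2 ⟨p, r, B ⊔ span K {u}, hprne, fun h => hup (h ▸ mem_sup_span B u),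
        fun h => hur (h ▸ mem_sup_span B u), rfl⟩] at hc
      omega
    · obtain ⟨i, rfl⟩ := Nat.exists_eq_add_of_le' hj
      have c1 := ih i (by omega) p G (hG.mono le_sup_left hpG) (hbad p hp hpG) (by omega)
      have hsub : goods S p G ⊆ ((goods S B G).erase p).image (fun r => r ⊔ p) := by
        intro r hr
        obtain ⟨h1, h2, -⟩ := mem_goods.1 hr
        obtain ⟨t, ht, htp, rfl⟩ := mem_cov.1 h1
        have htB : t ∉ B := fun h => htp (le_sup_left (a := B) h)
        rw [mem_image]
        refine ⟨B ⊔ span K {t}, mem_erase.2 ⟨fun h => htp (h ▸ mem_sup_span B t),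
          hall _ (mem_cov_of ht htB) (sup_span_le hG.1 (h2 (mem_sup_span p t)))⟩, ?_⟩
        show B ⊔ span K {t} ⊔ p = _
        rw [sup_right_comm, sup_eq_right.2 (le_sup_left : B ≤ p)]
      have c2 := (card_le_card hsub).trans card_image_le
      have c3 := card_erase_lt_of_mem (hall p hp hpG)
      omega

end Pool.Agent.Lib.MP_fdd68d_co
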