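import Pool.Agent.Lib.MP_fdd68d_co.Grow

/-!
Sets of vectors all of whose hyperplanes miss many points have colines with many points.
-/

namespace Pool.Agent.Lib.MP_fdd68d_co

set_option linter.unusedSectionVars false

open Module Finset Submodule

/-- induction on the dimension -/
theorem vec_log_aux {a k : ℕ} (ha2 : 2 ≤ a) (ha3 : a ≤ 3) (hk : 1 ≤ k) {K : Type*} [Field K] :
    ∀ (n : ℕ) (V : Type*) [AddCommGroup V] [Module K V] [FiniteDimensional K V] (S : Finset V),
    finrank K V = n → 1 ≤ n → Geometry K S → span K (S : Set V) = ⊤ →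
    (∀ H : Submodule K V, finrank K (V ⧸ H) = 1 → a * 2 ^ (k - 1) < (out S H).card) →
    (∀ X : Finset V, X ⊆ S → TriFree S (span K (X : Set V))) →
    (∀ X : Finset V, X ⊆ S → finrank K (V ⧸ span K (X : Set V)) = 2 →
      (cov S (span K (X : Set V))).card < 2 * k + a) → False := by
  classical
  intro n
  induction n using Nat.strong_induction_on with
  | _ n ih =>
  intro V _ _ _ S hn hn1 hgeo hspan hC htf hD
  have hquot : ∀ X : Submodule K V, finrank K (V ⧸ X) + finrank K X = finrank K V :=
    fun X => Submodule.finrank_quotient_add_finrank X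
  by_cases hsimp : ∃ X0 : Finset V, X0 ⊆ S ∧ X0.Nonempty ∧ span K (X0 : Set V) ≠ ⊤ ∧
      Simp S (span K (X0 : Set V))
  · -- pass to the quotient
    obtain ⟨X0, hX0, ⟨x, hx⟩, htop, hsimp⟩ := hsimp
    set F0 : Submodule K V := span K (X0 : Set V) with hF0
    set S' := quo S F0 with hS'
    have hF1 : 1 ≤ finrank K F0 := by
      have h1 : span K {x} ≤ F0 := by
        rw [span_singleton_le_iff_mem]
        exact subset_span hx
      have h2 := Submodule.finrank_mono h1
      rwa [finrank_span_singleton (hgeo x (hX0 hx)).1] at h2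
    have hF2 : finrank K F0 < finrank K V := Submodule.finrank_lt htop
    have hq0 := hquot F0
    refine ih (finrank K (V ⧸ F0)) (by omega) (V ⧸ F0) S' rfl (by omega) (geometry_quo hsimp)
      (span_quo F0 hspan) ?_ ?_ ?_
    · intro H hH
      have hr' : finrank K (V ⧸ comap F0.mkQ H) = 1 := by rw [finrank_quo_comap, hH]
      have h1 := hC _ hr'
      rwa [card_out_comap hsimp] at h1
    · intro X hX
      obtain ⟨Y, hY, hYe⟩ := comap_span_quo hX0 X hX
      apply triFree_quo
      change TriFree S (comap (span K (X0 : Set V)).mkQ _)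
      rw [hYe]
      exact htf Y hY
    · intro X hX hr
      obtain ⟨Y, hY, hYe⟩ := comap_span_quo hX0 X hX
      have hYe' : comap F0.mkQ (span K (X : Set (V ⧸ F0))) = span K (Y : Set V) := hYe
      rw [← card_cov_comap, hYe']
      apply hD Y hY
      rw [← hYe', finrank_quo_comap, hr]
  · push Not at hsimp
    have hns : ∀ X : Submodule K V, Sp S X → ∀ x ∈ S, x ∈ X → X ≠ ⊤ → ¬ Simp S X := by
      rintro X ⟨Y, hY, rfl⟩ x hx hxX htop
      refine hsimp Y hY ?_ htop
      by_contra hne
      rw [not_nonempty_iff_eq_empty] at hne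
      rw [hne, coe_empty, span_empty, mem_bot] at hxX
      exact (hgeo x hx).1 hxX
    obtain ⟨x, hx⟩ : ∃ x, x ∈ S := by
      by_contra hcon
      push Not at hcon
      have : S = ∅ := eq_empty_of_forall_notMem hcon
      rw [this, coe_empty, span_empty] at hspan
      have h1 := congrArg (fun W : Submodule K V => finrank K W) hspan
      simp only [finrank_bot, finrank_top] at h1
      omega
    have hpow : 1 ≤ a * 2 ^ (k - 1) := Nat.mul_pos (by omega) (by positivity)
    -- rank one
    rcases Nat.lt_or_ge n 2 with h2 | h2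
    · have h1 := hC ⊥ (by have := hquot ⊥; rw [finrank_bot] at this; omega)
      obtain ⟨b, hb, c, hc, hbc⟩ := one_lt_card.1 (show 1 < (out S (⊥ : Submodule K V)).card by omega)
      rw [mem_out] at hb hc
      have h3 := finrank_sup_span (geom_notMem hgeo hb.1 hc.1 hbc)
      rw [finrank_span_singleton (hgeo b hb.1).1] at h3
      have h4 := Submodule.finrank_le (span K {b} ⊔ span K {c} : Submodule K V)
      omega
    -- rank at least two
    obtain ⟨G, g1, -, g3, g4⟩ := exists_conn hgeo hx (fun X h1 h2 h3 => hns X h1 x hx h2 h3) (n - 2)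
      (by omega)
    obtain ⟨X, ⟨Y, hY, rfl⟩, hXr, hXc⟩ := core_log S hgeo ha2 ha3 hk G g1 g3 (by omega) (by omega)
      (hC G (by have := hquot G; omega)) (by
        rintro X ⟨Y, hY, rfl⟩
        exact htf Y hY)
    have := hD Y hY (by have := hquot (span K (Y : Set V)); omega)
    omega

/-- The main theorem for sets of vectors. -/
theorem vec_log {K V : Type*} [Field K] [Fintype K] [AddCommGroup V] [Module K V]
    [FiniteDimensional K V] (S : Finset V) (hS : Geometry K S) (hspan : span K (S : Set V) = ⊤)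
    (hV : 1 ≤ finrank K V) {a k : ℕ} (ha2 : 2 ≤ a) (ha3 : a ≤ 3)
    (hm : a * 2 ^ k < Fintype.card K)
    (hblock : ∀ f : V →ₗ[K] K, ∃ s ∈ S, f s = 0)
    (haff : ∀ H : Submodule K V, finrank K (V ⧸ H) = 1 →
      ∃ f : V →ₗ[K] K, ∀ s ∈ S, s ∈ H → f s ≠ 0)
    (htf : ∀ X : Finset V, X ⊆ S → TriFree S (span K (X : Set V)))
    (hD : ∀ X : Finset V, X ⊆ S → finrank K (V ⧸ span K (X : Set V)) = 2 →
      (cov S (span K (X : Set V))).card ≤ 2 * k + a + 1) : False := by
  refine vec_log_aux ha2 ha3 (k := k + 1) (by omega) _ V S rfl hV hS hspan ?_ htf ?_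
  · intro H hH
    rw [Nat.add_sub_cancel]
    exact lt_of_lt_of_le hm (C_hyper S hblock H hH (haff H hH))
  · intro X hX hr
    have := hD X hX hr
    omega

end Pool.Agent.Lib.MP_fdd68d_co
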