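import Pool.Agent.Lib.MP_fdd68d_co.Geo

/-!
Rank four, a coline with the largest number of covers.
-/

namespace Pool.Agent.Lib.MP_fdd68d_co

set_option linter.unusedSectionVars false

open Module Finset Submodule

variable {K V : Type*} [Field K] [AddCommGroup V] [Module K V] [FiniteDimensional K V]

lemma pair_eq (x y : V) : span K ({x, y} : Set V) = span K {x} ⊔ span K {y} := by
  rw [span_insert]

lemma geom_notMem {S : Finset V} (hS : Geometry K S) {x y : V} (hx : x ∈ S) (hy : y ∈ S)
    (hxy : x ≠ y) : y ∉ span K ({x} : Set V) :=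
  (hS x hx).2 y hy (Ne.symm hxy)

/-- If `x` is on many lines then `S` is in the union of two planes through `x`. -/
lemma two_planes {S : Finset V} (hS : Geometry K S) {x : V} (hx : x ∈ S)
    (htf : TriFree S (span K ({x} : Set V))) {D : ℕ} (h2 : 2 ≤ D)
    (hD : ∀ y ∈ S, x ≠ y → (cov S (span K {x, y})).card ≤ D)
    (hbig : 3 * D < 2 * (cov S (span K ({x} : Set V))).card) :
    ∃ H1 H2 : Submodule K V, finrank K H1 = 3 ∧ finrank K H2 = 3 ∧ x ∈ H1 ∧ x ∈ H2 ∧
      ∀ s ∈ S, s ∈ H1 ∨ s ∈ H2 := by
  have hx0 : x ≠ 0 := (hS x hx).1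
  have hr : finrank K (span K ({x} : Set V)) = 1 := finrank_span_singleton hx0
  obtain ⟨a, ha, b, hb, c, hc, d, hd, hab, hcd, hall⟩ :=
    (linSp_cov S (span K ({x} : Set V))).two_lines (noTri_cov htf) h2 (by
      intro p hp
      rw [deg_cov hp]
      obtain ⟨s, hs, hsx, rfl⟩ := mem_cov.1 hp
      rw [← pair_eq]
      apply hD s hs
      rintro rfl
      exact hsx (mem_span_singleton_self _)) hbig
  refine ⟨a ⊔ b, c ⊔ d, ?_, ?_, ?_, ?_, ?_⟩
  · rw [finrank_join ha hb hab, hr]
  · rw [finrank_join hc hd hcd, hr]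
  · exact (le_of_mem_cov ha).trans le_sup_left (mem_span_singleton_self x)
  · exact (le_of_mem_cov hc).trans le_sup_left (mem_span_singleton_self x)
  · intro s hs
    by_cases hsx : s ∈ span K ({x} : Set V)
    · exact Or.inl ((le_of_mem_cov ha).trans le_sup_left hsx)
    · have hp : span K {x} ⊔ span K {s} ∈ cov S (span K ({x} : Set V)) :=
        mem_cov.2 ⟨s, hs, hsx, rfl⟩
      rcases hall _ hp with h | h
      · exact Or.inl (h (mem_sup_right (mem_span_singleton_self s)))
      · exact Or.inr (h (mem_sup_right (mem_span_singleton_self s)))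

/-- The lines through `x` other than the line `xy`. -/
lemma card_lines {S : Finset V} (hS : Geometry K S) {x y : V} (hx : x ∈ S) (hy : y ∈ S)
    (hxy : x ≠ y) :
    ((out S (span K {x, y})).image (fun s => span K ({x} : Set V) ⊔ span K {s})).card + 1 =
      (cov S (span K ({x} : Set V))).card := by
  classical
  have hF : span K ({x, y} : Set V) ∈ cov S (span K ({x} : Set V)) :=
    mem_cov.2 ⟨y, hy, geom_notMem hS hx hy hxy, (pair_eq x y).symm⟩
  have himg : (out S (span K {x, y})).image (fun s => span K ({x} : Set V) ⊔ span K {s}) =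
      (cov S (span K ({x} : Set V))).erase (span K ({x, y} : Set V)) := by
    ext p
    rw [mem_image, mem_erase, mem_cov]
    constructor
    · rintro ⟨s, hs, rfl⟩
      rw [mem_out] at hs
      refine ⟨?_, s, hs.1, ?_, rfl⟩
      · intro h
        apply hs.2
        rw [← h]
        exact mem_sup_right (mem_span_singleton_self s)
      · intro h
        apply hs.2
        rw [pair_eq]
        exact mem_sup_left h
    · rintro ⟨hne, s, hs, hsx, rfl⟩
      refine ⟨s, ?_, rfl⟩
      rw [mem_out]
      refine ⟨hs, fun hsF => hne ?_⟩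
      apply Submodule.eq_of_le_of_finrank_eq
      · apply sup_le
        · rw [pair_eq]; exact le_sup_left
        · rw [span_singleton_le_iff_mem]; exact hsF
      · rw [finrank_sup_span hsx, finrank_cov hF]
  rw [himg, card_erase_add_one hF]

/-- Lemma 3 (forest): `|S \ F| + d(F) + 2 ≤ d(x) + d(y)` for the line `F = xy`. -/
lemma forest_line {S : Finset V} (hS : Geometry K S) (htf : TriFree S (⊥ : Submodule K V))
    {x y : V} (hx : x ∈ S) (hy : y ∈ S) (hxy : x ≠ y) :
    (out S (span K {x, y})).card + (cov S (span K {x, y})).card + 2 ≤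
      (cov S (span K ({x} : Set V))).card + (cov S (span K ({y} : Set V))).card := by
  classical
  have h1 := card_lines hS hx hy hxy
  have h2 := card_lines hS hy hx (Ne.symm hxy)
  rw [Set.pair_comm y x] at h2
  have hx0 : x ≠ 0 := (hS x hx).1
  have hy0 : y ≠ 0 := (hS y hy).1
  have hb : ∀ s ∈ S, (⊥ : Submodule K V) ⊔ span K {s} ∈ cov S (⊥ : Submodule K V) := by
    intro s hs
    refine mem_cov.2 ⟨s, hs, ?_, rfl⟩
    rw [mem_bot]
    exact (hS s hs).1
  have hinjS : ∀ s ∈ S, ∀ t ∈ S, (⊥ : Submodule K V) ⊔ span K {s} = ⊥ ⊔ span K {t} → s = t := by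
    intro s hs t ht h
    rw [bot_sup_eq, bot_sup_eq] at h
    by_contra hne
    apply geom_notMem hS hs ht hne
    rw [h]
    exact mem_span_singleton_self t
  have h3 := forest_sum (out S (span K {x, y}))
    (fun s => span K ({x} : Set V) ⊔ span K {s}) (fun s => span K ({y} : Set V) ⊔ span K {s})
    (fun s => span K ({x, y} : Set V) ⊔ span K {s}) ?_ ?_ ?_
  · have h4 : (cov S (span K {x, y})) = (out S (span K {x, y})).image
        (fun s => span K ({x, y} : Set V) ⊔ span K {s}) := by
      ext p
      rw [mem_cov, mem_image]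
      constructor
      · rintro ⟨s, h5, h6, h7⟩
        exact ⟨s, mem_out.2 ⟨h5, h6⟩, h7⟩
      · rintro ⟨s, h5, h7⟩
        exact ⟨s, (mem_out.1 h5).1, (mem_out.1 h5).2, h7⟩
    rw [h4]
    omega
  · intro a _ b _ hab
    have e : ∀ s : V, span K ({x, y} : Set V) ⊔ span K {s} =
        span K {y} ⊔ (span K ({x} : Set V) ⊔ span K {s}) := by
      intro s
      rw [pair_eq, sup_comm (span K {x}) (span K {y}), sup_assoc]
    show _ = _
    rw [e a, e b]
    exact congrArg _ hab
  · intro a _ b _ hab
    have e : ∀ s : V, span K ({x, y} : Set V) ⊔ span K {s} =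
        span K {x} ⊔ (span K ({y} : Set V) ⊔ span K {s}) := by
      intro s
      rw [pair_eq, sup_assoc]
    show _ = _
    rw [e a, e b]
    exact congrArg _ hab
  · rintro a ha b hb' hab hfab ⟨a', ha', haa', hga⟩ ⟨b', hb'', hbb', hgb⟩
    rw [mem_out] at ha hb' ha' hb''
    -- the line `ab` contains `x`
    have hbx : b ∈ span K ({x} : Set V) ⊔ span K {a} := by
      rw [hfab]; exact mem_sup_right (mem_span_singleton_self b)
    have hax : a ∉ span K ({x} : Set V) := fun h => ha.2 (by rw [pair_eq]; exact mem_sup_left h)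
    have hay : a ∉ span K ({y} : Set V) := fun h => ha.2 (by rw [pair_eq]; exact mem_sup_right h)
    have hby : b ∉ span K ({y} : Set V) := fun h => hb'.2 (by rw [pair_eq]; exact mem_sup_right h)
    have hya : y ≠ a := by rintro rfl; exact hay (mem_span_singleton_self _)
    have hyb : y ≠ b := by rintro rfl; exact hby (mem_span_singleton_self _)
    have hxa : x ≠ a := by rintro rfl; exact hax (mem_span_singleton_self _)
    have hxb : x ≠ b := by
      rintro rfl
      exact hb'.2 (by rw [pair_eq]; exact mem_sup_left (mem_span_singleton_self _))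
    -- x in the line ab
    have hline : span K ({a} : Set V) ⊔ span K {b} = span K ({x} : Set V) ⊔ span K {a} := by
      apply Submodule.eq_of_le_of_finrank_eq
      · apply sup_le le_sup_right
        rw [span_singleton_le_iff_mem]; exact hbx
      · rw [finrank_sup_span (geom_notMem hS ha.1 hb'.1 hab), finrank_sup_span hax,
          finrank_span_singleton (hS a ha.1).1, finrank_span_singleton hx0]
    refine htf _ (hb y hy) _ (hb a ha.1) _ (hb b hb'.1) (fun h => hya (hinjS _ hy _ ha.1 h))
      (fun h => hyb (hinjS _ hy _ hb'.1 h)) (fun h => hab (hinjS _ ha.1 _ hb'.1 h)) ?_ ⟨?_, ?_, ?_⟩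
    · -- b not on the line ya
      rw [bot_sup_eq, bot_sup_eq, bot_sup_eq]
      intro hle
      -- then y ∈ line ab = line xa, so a ∈ line xy
      have h5 : span K ({a} : Set V) ⊔ span K {b} = span K ({y} : Set V) ⊔ span K {a} := by
        apply Submodule.eq_of_le_of_finrank_eq
        · exact sup_le le_sup_right hle
        · rw [finrank_sup_span (geom_notMem hS ha.1 hb'.1 hab), finrank_sup_span hay,
            finrank_span_singleton (hS a ha.1).1, finrank_span_singleton hy0]
      have h6 : span K ({x} : Set V) ⊔ span K {y} = span K ({x} : Set V) ⊔ span K {a} := by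
        apply Submodule.eq_of_le_of_finrank_eq
        · apply sup_le le_sup_left
          rw [← hline, h5]
          exact le_sup_left
        · rw [finrank_sup_span (geom_notMem hS hx hy hxy), finrank_sup_span hax]
      apply ha.2
      rw [pair_eq, h6]
      exact mem_sup_right (mem_span_singleton_self a)
    · refine ⟨_, hb a' ha'.1, ?_, fun h => haa' (hinjS _ ha'.1 _ ha.1 h), ?_⟩
      · intro h
        have := hinjS _ ha'.1 _ hy h
        rw [this] at ha'
        exact ha'.2 (by rw [pair_eq]; exact mem_sup_right (mem_span_singleton_self _))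
      · rw [bot_sup_eq, bot_sup_eq, bot_sup_eq, ← hga]
        exact le_sup_right
    · refine ⟨_, hb b' hb''.1, ?_, fun h => hbb' (hinjS _ hb''.1 _ hb'.1 h), ?_⟩
      · intro h
        have := hinjS _ hb''.1 _ hy h
        rw [this] at hb''
        exact hb''.2 (by rw [pair_eq]; exact mem_sup_right (mem_span_singleton_self _))
      · rw [bot_sup_eq, bot_sup_eq, bot_sup_eq, ← hgb]
        exact le_sup_right
    · refine ⟨_, hb x hx, fun h => hxa (hinjS _ hx _ ha.1 h),
        fun h => hxb (hinjS _ hx _ hb'.1 h), ?_⟩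
      rw [bot_sup_eq, bot_sup_eq, bot_sup_eq, hline]
      exact le_sup_left

end Pool.Agent.Lib.MP_fdd68d_co
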