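import Pool.Agent.Lib.MP_fdd68d_co.PropA

/-!
Rank four, the union of two planes.
-/

namespace Pool.Agent.Lib.MP_fdd68d_co

set_option linter.unusedSectionVars false

open Module Finset Submodule

variable {K V : Type*} [Field K] [AddCommGroup V] [Module K V] [FiniteDimensional K V]

lemma mem_sup_single {X : Submodule K V} (s : V) : s ∈ X ⊔ span K {s} :=
  mem_sup_right (mem_span_singleton_self s)

lemma inj_bot {S : Finset V} (hS : Geometry K S) {s t : V} (hs : s ∈ S) (ht : t ∈ S)
    (h : (⊥ : Submodule K V) ⊔ span K {s} = ⊥ ⊔ span K {t}) : s = t := by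
  rw [bot_sup_eq, bot_sup_eq] at h
  by_contra hne
  apply geom_notMem hS hs ht hne
  rw [h]
  exact mem_span_singleton_self t

lemma geom_sub {S T : Finset V} (hS : Geometry K S) (h : T ⊆ S) : Geometry K T :=
  fun s hs => ⟨(hS s (h hs)).1, fun t ht hts => (hS s (h hs)).2 t (h ht) hts⟩

lemma cov_sub {S T : Finset V} (h : T ⊆ S) (X : Submodule K V) : cov T X ⊆ cov S X := by
  intro p hp
  obtain ⟨s, h1, h2, h3⟩ := mem_cov.1 hp
  exact mem_cov.2 ⟨s, h h1, h2, h3⟩

lemma triFree_sub {S T : Finset V} (h : T ⊆ S) {X : Submodule K V} (hS : TriFree S X) :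
    TriFree T X := by
  intro p hp q hq r hr h1 h2 h3 h4 ⟨l1, l2, l3⟩
  have key : ∀ {a b : Submodule K V}, Long T X a b → Long S X a b := by
    rintro a b ⟨c, hc, h5, h6, h7⟩
    exact ⟨c, cov_sub h X hc, h5, h6, h7⟩
  exact hS p (cov_sub h X hp) q (cov_sub h X hq) r (cov_sub h X hr) h1 h2 h3 h4
    ⟨key l1, key l2, key l3⟩

/-- two different planes of a 4-space meet in a line -/
lemma plane_inter (hdim : finrank K V = 4) {H G : Submodule K V} (hH : finrank K H = 3)
    (hG : finrank K G = 3) (hne : ¬ G ≤ H) : finrank K (H ⊓ G : Submodule K V) = 2 := by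
  have h1 := Submodule.finrank_sup_add_finrank_inf_eq H G
  have h2 : H < H ⊔ G := by
    refine lt_of_le_of_ne le_sup_left fun h => hne ?_
    rw [h]; exact le_sup_right
  have h3 := finrank_lt_of_lt h2
  have h4 : finrank K (H ⊔ G : Submodule K V) ≤ finrank K V := Submodule.finrank_le _
  omega

/-- (2): if `Σ1 = S \ H2 ⊆ H1` is not in a line then each `y ∈ Σ2 = S \ H1` has at most `Q/2`
lines in `H2`. -/
lemma degree_half {S : Finset V} (hS : Geometry K S) (hdim : finrank K V = 4) {Q : ℕ}
    (hQ : 4 ≤ Q) {H1 H2 : Submodule K V} (hH1 : finrank K H1 = 3) (hH2 : finrank K H2 = 3)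
    (hcov : ∀ s ∈ S, s ∈ H1 ∨ s ∈ H2)
    (hD : ∀ x ∈ S, ∀ y ∈ S, x ≠ y → (cov S (span K {x, y})).card ≤ Q)
    (hS1 : Q ≤ (out S H2).card)
    (hnl : ¬ ∃ l : Submodule K V, finrank K l = 2 ∧ ∀ s ∈ out S H2, s ∈ l)
    {S2 : Finset V} (hS2 : ∀ s, s ∈ S2 ↔ s ∈ S ∧ s ∈ H2)
    {y : V} (hy : y ∈ S) (hy1 : y ∉ H1) (htf : TriFree S (span K ({y} : Set V))) :
    2 * (cov S2 (span K ({y} : Set V))).card ≤ Q := by
  classical
  have hy2 : y ∈ H2 := (hcov y hy).resolve_left hy1
  have hy0 : y ≠ 0 := (hS y hy).1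
  have hr : finrank K (span K ({y} : Set V)) = 1 := finrank_span_singleton hy0
  have hS1' : ∀ s ∈ out S H2, s ∈ S ∧ s ∉ H2 ∧ s ∈ H1 := by
    intro s hs
    rw [mem_out] at hs
    exact ⟨hs.1, hs.2, (hcov s hs.1).resolve_right hs.2⟩
  have hyH2 : span K ({y} : Set V) ≤ H2 := by rw [span_singleton_le_iff_mem]; exact hy2
  -- the lines from y to Σ1
  set f : V → Submodule K V := fun s => span K ({y} : Set V) ⊔ span K {s} with hf
  have hinj : Set.InjOn f (out S H2 : Finset V) := by
    intro s hs t ht hst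
    obtain ⟨hsS, hs2, hs1⟩ := hS1' s hs
    obtain ⟨htS, ht2, ht1⟩ := hS1' t ht
    by_contra hne
    have h1 : t ∈ span K ({y} : Set V) ⊔ span K {s} := by
      have : t ∈ f t := mem_sup_single t
      rw [← hst] at this
      exact this
    rw [Submodule.mem_sup] at h1
    obtain ⟨u, hu, v, hv, huv⟩ := h1
    have hv1 : v ∈ H1 := by
      have : span K ({s} : Set V) ≤ H1 := by rw [span_singleton_le_iff_mem]; exact hs1
      exact this hv
    have hu1 : u ∈ H1 := by
      have : u = t - v := by rw [← huv]; abel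
      rw [this]
      exact H1.sub_mem ht1 hv1
    rw [mem_span_singleton] at hu
    obtain ⟨c, rfl⟩ := hu
    by_cases hc : c = 0
    · rw [hc, zero_smul, zero_add] at huv
      exact geom_notMem hS hsS htS hne (huv ▸ hv)
    · exact hy1 ((H1.smul_mem_iff hc).1 hu1)
  have hsub1 : (out S H2).image f ⊆ cov S (span K ({y} : Set V)) := by
    intro p hp
    rw [mem_image] at hp
    obtain ⟨s, hs, rfl⟩ := hp
    obtain ⟨hsS, hs2, hs1⟩ := hS1' s hs
    exact mem_cov.2 ⟨s, hsS, fun h => hs2 (hyH2 h), rfl⟩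
  have hS2S : S2 ⊆ S := fun s hs => ((hS2 s).1 hs).1
  have hsub2 := cov_sub hS2S (span K ({y} : Set V))
  have hle2 : ∀ p ∈ cov S2 (span K ({y} : Set V)), p ≤ H2 := by
    intro p hp
    obtain ⟨s, hs, _, rfl⟩ := mem_cov.1 hp
    apply sup_le hyH2
    rw [span_singleton_le_iff_mem]
    exact ((hS2 s).1 hs).2
  have hdisj : Disjoint ((out S H2).image f) (cov S2 (span K ({y} : Set V))) := by
    rw [disjoint_left]
    intro p hp hp2
    rw [mem_image] at hp
    obtain ⟨s, hs, rfl⟩ := hp
    exact (hS1' s hs).2.1 (hle2 _ hp2 (mem_sup_single s))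
  have hcard : (out S H2).card + (cov S2 (span K ({y} : Set V))).card ≤
      (cov S (span K ({y} : Set V))).card := by
    rw [← card_image_of_injOn hinj, ← card_union_of_disjoint hdisj]
    exact card_le_card (union_subset hsub1 hsub2)
  by_contra hlt
  push Not at hlt
  have hbig : 3 * Q < 2 * (cov S (span K ({y} : Set V))).card := by omega
  obtain ⟨G1, G2, hG1, hG2, hyG1, hyG2, hall⟩ := two_planes hS hy htf (by omega)
    (fun z hz hyz => hD y hy z hz hyz) hbig
  -- three lines through y in H2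
  obtain ⟨p, q, r, hp, hq, hr', hpq, hpr, hqr⟩ : ∃ p q r, p ∈ cov S2 (span K ({y} : Set V)) ∧
      q ∈ cov S2 (span K ({y} : Set V)) ∧ r ∈ cov S2 (span K ({y} : Set V)) ∧
      p ≠ q ∧ p ≠ r ∧ q ≠ r := by
    have : 2 < (cov S2 (span K ({y} : Set V))).card := by omega
    obtain ⟨p, h1, q, h2, r, h3, h4⟩ := two_lt_card.1 this
    exact ⟨p, q, r, h1, h2, h3, h4⟩
  have hinG : ∀ t ∈ cov S2 (span K ({y} : Set V)), t ≤ G1 ∨ t ≤ G2 := by
    intro t ht
    obtain ⟨s, hs, _, rfl⟩ := mem_cov.1 ht
    rcases hall s (hS2S hs) with h | h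
    · left
      apply sup_le
      · rw [span_singleton_le_iff_mem]; exact hyG1
      · rw [span_singleton_le_iff_mem]; exact h
    · right
      apply sup_le
      · rw [span_singleton_le_iff_mem]; exact hyG2
      · rw [span_singleton_le_iff_mem]; exact h
  have hpair : ∀ (G : Submodule K V), finrank K G = 3 →
      ∀ t ∈ cov S2 (span K ({y} : Set V)), ∀ u ∈ cov S2 (span K ({y} : Set V)), t ≠ u →
      t ≤ G → u ≤ G → G = H2 := by
    intro G hG t ht u hu htu htG huG
    have h3 := finrank_join ht hu htu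
    rw [hr] at h3
    have e1 : t ⊔ u = G := Submodule.eq_of_le_of_finrank_eq (sup_le htG huG) (by rw [h3, hG])
    have e2 : t ⊔ u = H2 :=
      Submodule.eq_of_le_of_finrank_eq (sup_le (hle2 t ht) (hle2 u hu)) (by rw [h3, hH2])
    rw [← e1, e2]
  have hfin : ∀ (G G' : Submodule K V), finrank K G' = 3 → y ∈ G' → G = H2 →
      (∀ s ∈ S, s ∈ G ∨ s ∈ G') → False := by
    intro G G' hG' hyG' hGH hall'
    apply hnl
    have hne : ¬ G' ≤ H1 := fun h => hy1 (h hyG')
    refine ⟨H1 ⊓ G', plane_inter hdim hH1 hG' hne, ?_⟩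
    intro s hs
    obtain ⟨hsS, hs2, hs1⟩ := hS1' s hs
    rw [Submodule.mem_inf]
    refine ⟨hs1, (hall' s hsS).resolve_left ?_⟩
    rw [hGH]; exact hs2
  have hor : G1 = H2 ∨ G2 = H2 := by
    rcases hinG p hp with h1 | h1 <;> rcases hinG q hq with h2 | h2 <;>
      rcases hinG r hr' with h3 | h3
    · exact Or.inl (hpair G1 hG1 p hp q hq hpq h1 h2)
    · exact Or.inl (hpair G1 hG1 p hp q hq hpq h1 h2)
    · exact Or.inl (hpair G1 hG1 p hp r hr' hpr h1 h3)
    · exact Or.inr (hpair G2 hG2 q hq r hr' hqr h2 h3)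
    · exact Or.inl (hpair G1 hG1 q hq r hr' hqr h2 h3)
    · exact Or.inr (hpair G2 hG2 p hp r hr' hpr h1 h3)
    · exact Or.inr (hpair G2 hG2 p hp q hq hpq h1 h2)
    · exact Or.inr (hpair G2 hG2 p hp q hq hpq h1 h2)
  rcases hor with h | h
  · exact hfin G1 G2 hG2 hyG2 h hall
  · exact hfin G2 G1 hG1 hyG1 h (fun s hs => (hall s hs).symm)

/-- A plane in which the points off the line `H1 ∩ H2` have small degree: these points are on
one line. -/
lemma one_line {S : Finset V} (hS : Geometry K S) {Q : ℕ} (hQ : 4 ≤ Q) {H1 H2 : Submodule K V}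
    {S2 : Finset V} (hS2 : ∀ s, s ∈ S2 ↔ s ∈ S ∧ s ∈ H2)
    (hcov : ∀ s ∈ S, s ∈ H1 ∨ s ∈ H2)
    (htf : TriFree S (⊥ : Submodule K V))
    {x : V} (hx : x ∈ S) (hx1 : x ∈ H1) (hx2 : x ∈ H2)
    (hS1 : Q ≤ (out S H1).card)
    (hdeg : ∀ y ∈ S, y ∉ H1 → 2 * (cov S2 (span K ({y} : Set V))).card ≤ Q) :
    ∃ l : Submodule K V, finrank K l = 2 ∧ ∀ s ∈ out S H1, s ∈ l := by
  classical
  have hS2S : S2 ⊆ S := fun s hs => ((hS2 s).1 hs).1
  have hG2 : Geometry K S2 := geom_sub hS hS2S
  have htf2 : TriFree S2 (⊥ : Submodule K V) := triFree_sub hS2S htf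
  set P := cov S2 (⊥ : Submodule K V) with hP
  set ln : Submodule K V → Submodule K V → Submodule K V := fun p q => p ⊔ q with hln
  set inc : Submodule K V → Submodule K V → Prop := fun p l => p ≤ l with hinc
  have hlin : LinSp P ln inc := linSp_cov S2 ⊥
  have htri : NoTri P ln inc := noTri_cov htf2
  have hpt : ∀ s ∈ S2, (⊥ : Submodule K V) ⊔ span K {s} ∈ P := by
    intro s hs
    refine mem_cov.2 ⟨s, hs, ?_, rfl⟩
    rw [mem_bot]
    exact (hG2 s hs).1
  have hout : ∀ s ∈ out S H1, s ∈ S ∧ s ∉ H1 ∧ s ∈ S2 := by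
    intro s hs
    rw [mem_out] at hs
    exact ⟨hs.1, hs.2, (hS2 s).2 ⟨hs.1, (hcov s hs.1).resolve_left hs.2⟩⟩
  -- number of points
  have hPcard : Q + 1 ≤ P.card := by
    have hxs : x ∉ out S H1 := fun h => (mem_out.1 h).2 hx1
    have hsub : (insert x (out S H1)).image (fun s => (⊥ : Submodule K V) ⊔ span K {s}) ⊆ P := by
      intro p hp
      rw [mem_image] at hp
      obtain ⟨s, hs, rfl⟩ := hp
      apply hpt
      rw [mem_insert] at hs
      rcases hs with rfl | hs
      · exact (hS2 _).2 ⟨hx, hx2⟩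
      · exact (hout s hs).2.2
    have hinj : Set.InjOn (fun s => (⊥ : Submodule K V) ⊔ span K {s})
        (insert x (out S H1) : Finset V) := by
      intro s hs t ht hst
      have hmem : ∀ w ∈ (insert x (out S H1) : Finset V), w ∈ S := by
        intro w hw
        rw [mem_insert] at hw
        rcases hw with rfl | hw
        · exact hx
        · exact (hout w hw).1
      exact inj_bot hS (hmem s hs) (hmem t ht) hst
    have := card_le_card hsub
    rw [card_image_of_injOn hinj, card_insert_of_notMem hxs] at this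
    omega
  -- degrees
  have hdeg' : ∀ p ∈ P, ¬ p ≤ H1 → 2 * deg P ln p ≤ Q := by
    intro p hp hpH
    rw [hln, hP, deg_cov hp]
    obtain ⟨s, hs, hs0, rfl⟩ := mem_cov.1 hp
    rw [bot_sup_eq] at hpH ⊢
    exact hdeg s (hS2S hs) (fun h => hpH (by rw [span_singleton_le_iff_mem]; exact h))
  have hptH : ∀ s ∈ out S H1, ¬ (⊥ : Submodule K V) ⊔ span K {s} ≤ H1 := by
    intro s hs h
    exact (hout s hs).2.1 (h (mem_sup_single s))
  have hsubP : ∀ l, pts P inc l ⊆ P := fun l p hp => (mem_pts.1 hp).1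
  -- main claim: long lines meeting Σ2 are large
  have hbigline : ∀ a ∈ P, ∀ b ∈ P, a ≠ b → 3 ≤ (pts P inc (ln a b)).card →
      (∃ z ∈ pts P inc (ln a b), ¬ z ≤ H1) → (P \ pts P inc (ln a b)).card < Q / 2 := by
    intro a ha b hb hab hlong ⟨z0, hz0, hz0H⟩
    by_contra hn
    push Not at hn
    set g := ln a b with hg
    set n := (P \ pts P inc g).card with hn'
    set i := (pts P inc g).card with hi
    have hsum : i + n = P.card := by
      have := card_sdiff_add_card_eq_card (hsubP g)
      omega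
    set Z := (pts P inc g) \ (pts P inc g).filter (fun z => z ≤ H1) with hZ
    have hmZ : ∀ z, z ∈ Z ↔ z ∈ pts P inc g ∧ ¬ z ≤ H1 := by
      intro z
      rw [hZ, mem_sdiff, mem_filter]
      constructor
      · rintro ⟨h1, h2⟩
        exact ⟨h1, fun h3 => h2 ⟨h1, h3⟩⟩
      · rintro ⟨h1, h2⟩
        exact ⟨h1, fun h3 => h2 h3.2⟩
    have hZcard : i ≤ Z.card + 1 := by
      have h1 : ((pts P inc g).filter (fun z => z ≤ H1)).card ≤ 1 := by
        rw [card_le_one]
        intro u hu v hv
        by_contra huv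
        rw [mem_filter, mem_pts] at hu hv
        apply hz0H
        have h2 : ln u v = g := hlin.uniq a ha b hb hab u hu.1.1 v hv.1.1 huv hu.1.2 hv.1.2
        have h3 : g ≤ H1 := by
          rw [← h2]
          exact sup_le hu.2 hv.2
        exact le_trans (mem_pts.1 hz0).2 h3
      have h4 := card_sdiff_add_card_eq_card
        (filter_subset (fun z => z ≤ H1) (pts P inc g))
      rw [← hZ] at h4
      omega
    set T : Submodule K V → Finset (Submodule K V) := fun z => (P \ pts P inc g).filter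
      (fun p => 3 ≤ (pts P inc (ln z p)).card) with hTdef
    have hT : ∀ z ∈ Z, n + 2 ≤ Q / 2 + (T z).card := by
      intro z hz
      rw [hmZ] at hz
      refine hlin.count_at ha hb hab hz.1 ?_ ?_ hn
      · intro p
        simp only [hTdef, mem_filter, mem_sdiff]
        exact Iff.rfl
      · have := hdeg' z (hsubP _ hz.1) hz.2
        omega
    have hdisj : ((Z : Finset (Submodule K V)) : Set (Submodule K V)).PairwiseDisjoint T := by
      intro z hz z' hz' hzz'
      rw [Function.onFun, disjoint_left]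
      intro p hp hp'
      simp only [hTdef, mem_filter, mem_sdiff] at hp hp'
      rw [mem_coe, hmZ] at hz hz'
      have hz := mem_pts.1 hz.1
      have hz' := mem_pts.1 hz'.1
      have hpz : p ≠ z := fun hh => hp.1.2 (by rw [mem_pts, hh]; exact hz)
      have hpz' : p ≠ z' := fun hh => hp.1.2 (by rw [mem_pts, hh]; exact hz')
      have hl : ln z z' = g := hlin.uniq a ha b hb hab z hz.1 z' hz'.1 hzz' hz.2 hz'.2
      refine htri z hz.1 z' hz'.1 p hp.1.1 hzz' (Ne.symm hpz) (Ne.symm hpz') ?_ ?_ hp.2 hp'.2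
      · rw [hl]
        intro hh
        exact hp.1.2 (mem_pts.2 ⟨hp.1.1, hh⟩)
      · rw [hl]; exact hlong
    have hle : ∑ z ∈ Z, (T z).card ≤ n := by
      rw [← card_biUnion (fun x hx y hy hxy => hdisj hx hy hxy)]
      apply card_le_card
      intro p hp
      rw [mem_biUnion] at hp
      obtain ⟨z, _, hp⟩ := hp
      exact (mem_filter.1 hp).1
    have hge : Z.card * (n + 2 - Q / 2) ≤ ∑ z ∈ Z, (T z).card := by
      rw [← smul_eq_mul]
      apply card_nsmul_le_sum
      intro z hz
      have := hT z hz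
      omega
    have h3 := hge.trans hle
    obtain ⟨D, hD⟩ : ∃ D, D = Q / 2 := ⟨_, rfl⟩
    have hQD : 2 * D ≤ Q := by omega
    rw [← hD] at h3 hn
    obtain ⟨δ, hδ⟩ : ∃ δ, n = D + δ := ⟨n - D, by omega⟩
    have h4 : n + 2 - D = δ + 2 := by omega
    rw [h4] at h3
    obtain ⟨j, hj⟩ : ∃ j, Z.card = j + 2 := ⟨Z.card - 2, by omega⟩
    rw [hj] at h3
    have h5 : i ≤ j + 3 := by omega
    have h6 : D + 1 ≤ δ + i := by omega
    nlinarith
  -- every point of Σ2 is on a long line
  have hex : ∀ s ∈ out S H1, ∃ q ∈ P, (⊥ : Submodule K V) ⊔ span K {s} ≠ q ∧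
      3 ≤ (pts P inc (ln (⊥ ⊔ span K {s}) q)).card := by
    intro s hs
    apply hlin.exists_long' (hpt s (hout s hs).2.2)
    have := hdeg' _ (hpt s (hout s hs).2.2) (hptH s hs)
    omega
  obtain ⟨s0, hs0⟩ : (out S H1).Nonempty := by
    rw [← card_pos]; omega
  obtain ⟨q0, hq0, hne0, hl0⟩ := hex s0 hs0
  set p0 := (⊥ : Submodule K V) ⊔ span K {s0} with hp0
  have hp0P : p0 ∈ P := hpt s0 (hout s0 hs0).2.2
  refine ⟨ln p0 q0, ?_, ?_⟩
  · have := finrank_join hp0P hq0 hne0
    rw [finrank_bot] at this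
    exact this
  · intro s hs
    by_contra hsl
    obtain ⟨q1, hq1, hne1, hl1⟩ := hex s hs
    set p1 := (⊥ : Submodule K V) ⊔ span K {s} with hp1
    have hp1P : p1 ∈ P := hpt s (hout s hs).2.2
    have hlne : ln p0 q0 ≠ ln p1 q1 := by
      intro h
      apply hsl
      rw [h]
      have : p1 ≤ ln p1 q1 := le_sup_left
      exact this (mem_sup_single s)
    have b0 := hbigline p0 hp0P q0 hq0 hne0 hl0
      ⟨p0, mem_pts.2 ⟨hp0P, le_sup_left⟩, hptH s0 hs0⟩
    have b1 := hbigline p1 hp1P q1 hq1 hne1 hl1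
      ⟨p1, mem_pts.2 ⟨hp1P, le_sup_left⟩, hptH s hs⟩
    have c0 := card_sdiff_add_card_eq_card (hsubP (ln p0 q0))
    have c1 := card_sdiff_add_card_eq_card (hsubP (ln p1 q1))
    have u1 := card_union_add_card_inter (pts P inc (ln p0 q0)) (pts P inc (ln p1 q1))
    have u2 : (pts P inc (ln p0 q0) ∪ pts P inc (ln p1 q1)).card ≤ P.card :=
      card_le_card (union_subset (hsubP _) (hsubP _))
    have i1 : (pts P inc (ln p0 q0) ∩ pts P inc (ln p1 q1)).card ≤ 1 := by
      rw [card_le_one]
      intro u hu v hv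
      exact hlin.inter_le hp0P hq0 hne0 hp1P hq1 hne1 hlne hu hv
    omega

/-- If `Σ2 = S \ H1` is in a line we get a contradiction. -/
lemma line_contra {S : Finset V} (hS : Geometry K S) (hdim : finrank K V = 4)
    (hspan : span K (S : Set V) = ⊤) {Q : ℕ} (hQ : 4 ≤ Q) {H1 : Submodule K V}
    (hH1 : finrank K H1 = 3)
    (hD : ∀ x ∈ S, ∀ y ∈ S, x ≠ y → (cov S (span K {x, y})).card ≤ Q)
    (hC : ∀ H : Submodule K V, finrank K H = 3 → Q ≤ (out S H).card)
    {T : Finset V} (hT : ∀ s, s ∈ T ↔ s ∈ S ∧ s ∈ H1) (hT2 : 2 ≤ T.card)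
    {l : Submodule K V} (hl : finrank K l = 2) (hll : ∀ s ∈ out S H1, s ∈ l) : False := by
  classical
  have hTS : ∀ s ∈ T, s ∈ S := fun s hs => ((hT s).1 hs).1
  have hTH : ∀ s ∈ T, s ∈ H1 := fun s hs => ((hT s).1 hs).2
  have hsplit : ∀ s ∈ S, s ∈ T ∨ s ∈ out S H1 := by
    intro s hs
    by_cases h : s ∈ H1
    · exact Or.inl ((hT s).2 ⟨hs, h⟩)
    · exact Or.inr (mem_out.2 ⟨hs, h⟩)
  have hout : ∀ s ∈ out S H1, s ∈ S ∧ s ∉ H1 ∧ s ∈ l :=
    fun s hs => ⟨(mem_out.1 hs).1, (mem_out.1 hs).2, hll s hs⟩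
  have hoc := hC H1 hH1
  obtain ⟨z0, hz0⟩ : (out S H1).Nonempty := by rw [← card_pos]; omega
  have hlH : ¬ l ≤ H1 := fun h => (hout z0 hz0).2.1 (h (hout z0 hz0).2.2)
  -- the intersection point
  have hinter : finrank K (l ⊓ H1 : Submodule K V) = 1 := by
    have h1 := Submodule.finrank_sup_add_finrank_inf_eq l H1
    have h2 : H1 < l ⊔ H1 := by
      refine lt_of_le_of_ne le_sup_right fun h => hlH ?_
      rw [h]; exact le_sup_left
    have h3 := finrank_lt_of_lt h2
    have h4 : finrank K (l ⊔ H1 : Submodule K V) ≤ finrank K V := Submodule.finrank_le _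
    omega
  -- a line G in H1 skew to l gives many covers
  have hskew : ∀ u ∈ T, ∀ v ∈ T, u ≠ v → span K {u, v} ⊓ l = ⊥ →
      ((out S H1).image (fun z => span K {u, v} ⊔ span K {z})).card = (out S H1).card ∧
      ∀ p ∈ (out S H1).image (fun z => span K {u, v} ⊔ span K {z}), p ∈ cov S (span K {u, v}) ∧
        ¬ p ≤ H1 := by
    intro u hu v hv huv hG
    have hGH : span K ({u, v} : Set V) ≤ H1 := by
      rw [span_le]
      rintro w (rfl | rfl)
      · exact hTH _ hu
      · exact hTH _ hv
    constructor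
    · apply card_image_of_injOn
      intro z hz z' hz' hzz'
      rw [mem_coe] at hz hz'
      by_contra hne
      have h1 : z' ∈ span K {u, v} ⊔ span K {z} := by
        have h2 : z' ∈ span K {u, v} ⊔ span K {z'} := mem_sup_single z'
        have h3 : span K {u, v} ⊔ span K {z} = span K {u, v} ⊔ span K {z'} := hzz'
        rw [h3]; exact h2
      rw [Submodule.mem_sup] at h1
      obtain ⟨g, hg, w, hw, hgw⟩ := h1
      have hwl : w ∈ l := by
        have : span K ({z} : Set V) ≤ l := by
          rw [span_singleton_le_iff_mem]; exact (hout z hz).2.2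
        exact this hw
      have hgl : g ∈ l := by
        have : g = z' - w := by rw [← hgw]; abel
        rw [this]
        exact l.sub_mem (hout z' hz').2.2 hwl
      have hg0 : g ∈ span K {u, v} ⊓ l := ⟨hg, hgl⟩
      rw [hG, mem_bot] at hg0
      rw [hg0, zero_add] at hgw
      exact geom_notMem hS (hout z hz).1 (hout z' hz').1 hne (hgw ▸ hw)
    · intro p hp
      rw [mem_image] at hp
      obtain ⟨z, hz, rfl⟩ := hp
      refine ⟨mem_cov.2 ⟨z, (hout z hz).1, fun h => (hout z hz).2.1 (hGH h), rfl⟩, ?_⟩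
      intro h
      exact (hout z hz).2.1 (h (mem_sup_single z))
  by_cases hex : ∃ u ∈ T, ∃ v ∈ T, u ≠ v ∧ span K {u, v} ⊓ l = ⊥
  · obtain ⟨u, hu, v, hv, huv, hG⟩ := hex
    obtain ⟨hcard, hmem⟩ := hskew u hu v hv huv hG
    have hsub : (out S H1).image (fun z => span K {u, v} ⊔ span K {z}) ⊆
        cov S (span K {u, v}) := fun p hp => (hmem p hp).1
    have hGH : span K ({u, v} : Set V) ≤ H1 := by
      rw [span_le]
      rintro w (rfl | rfl)
      · exact hTH _ hu
      · exact hTH _ hv
    have hDG := hD u (hTS u hu) v (hTS v hv) huv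
    by_cases hw : ∃ w ∈ T, w ∉ span K ({u, v} : Set V)
    · obtain ⟨w, hwT, hwG⟩ := hw
      have hp : span K ({u, v} : Set V) ⊔ span K {w} ∈ cov S (span K {u, v}) :=
        mem_cov.2 ⟨w, hTS w hwT, hwG, rfl⟩
      have hpn : span K ({u, v} : Set V) ⊔ span K {w} ∉
          (out S H1).image (fun z => span K {u, v} ⊔ span K {z}) := by
        intro h
        apply (hmem _ h).2
        apply sup_le hGH
        rw [span_singleton_le_iff_mem]
        exact hTH w hwT
      have h1 : (insert (span K ({u, v} : Set V) ⊔ span K {w})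
          ((out S H1).image (fun z => span K {u, v} ⊔ span K {z}))).card ≤
          (cov S (span K {u, v})).card := by
        apply card_le_card
        intro p hp'
        rw [mem_insert] at hp'
        rcases hp' with rfl | hp'
        · exact hp
        · exact hsub hp'
      rw [card_insert_of_notMem hpn, hcard] at h1
      omega
    · push Not at hw
      have h1 := card_le_card hsub
      rw [hcard] at h1
      -- H = G ⊔ z0
      have hz0G : z0 ∉ span K ({u, v} : Set V) := fun h => (hout z0 hz0).2.1 (hGH h)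
      have hrG : finrank K (span K ({u, v} : Set V)) = 2 := by
        rw [pair_eq, finrank_sup_span (geom_notMem hS (hTS u hu) (hTS v hv) huv),
          finrank_span_singleton (hS u (hTS u hu)).1]
      have h2 := hC (span K ({u, v} : Set V) ⊔ span K {z0}) (by rw [finrank_sup_span hz0G, hrG])
      have h3 : out S (span K ({u, v} : Set V) ⊔ span K {z0}) ⊆ (out S H1).erase z0 := by
        intro s hs
        rw [mem_out] at hs
        rw [mem_erase]
        refine ⟨?_, ?_⟩
        · rintro rfl
          exact hs.2 (mem_sup_single _)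
        · rcases hsplit s hs.1 with h4 | h4
          · exact absurd (mem_sup_left (hw s h4)) hs.2
          · exact h4
      have h4 := card_le_card h3
      rw [card_erase_of_mem hz0] at h4
      omega
  · push Not at hex
    -- every line uv passes through the intersection point
    have hthru : ∀ u ∈ T, ∀ v ∈ T, u ≠ v → l ⊓ H1 ≤ span K {u, v} := by
      intro u hu v hv huv
      have h1 := hex u hu v hv huv
      have hGH : span K ({u, v} : Set V) ≤ H1 := by
        rw [span_le]
        rintro w (rfl | rfl)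
        · exact hTH _ hu
        · exact hTH _ hv
      have h2 : span K ({u, v} : Set V) ⊓ l ≤ l ⊓ H1 :=
        le_inf inf_le_right (le_trans inf_le_left hGH)
      have h3 : 0 < finrank K (span K ({u, v} : Set V) ⊓ l : Submodule K V) := by
        rw [Nat.pos_iff_ne_zero]
        intro h4
        exact h1 (Submodule.finrank_eq_zero.1 h4)
      have h5 : span K ({u, v} : Set V) ⊓ l = l ⊓ H1 :=
        Submodule.eq_of_le_of_finrank_le h2 (by omega)
      rw [← h5]
      exact inf_le_left
    -- choose u not the intersection point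
    obtain ⟨u, hu, hup⟩ : ∃ u ∈ T, u ∉ l ⊓ H1 := by
      by_contra hcon
      push Not at hcon
      obtain ⟨u, hu, v, hv, huv⟩ := one_lt_card.1 (show 1 < T.card by omega)
      apply geom_notMem hS (hTS u hu) (hTS v hv) huv
      have h1 : span K ({u} : Set V) = l ⊓ H1 := by
        apply Submodule.eq_of_le_of_finrank_eq
        · rw [span_singleton_le_iff_mem]; exact hcon u hu
        · rw [hinter, finrank_span_singleton (hS u (hTS u hu)).1]
      rw [h1]
      exact hcon v hv
    -- everything lies in u ⊔ l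
    have hall : ∀ s ∈ S, s ∈ span K ({u} : Set V) ⊔ l := by
      intro s hs
      rcases hsplit s hs with h | h
      · by_cases hsu : s = u
        · rw [hsu]; exact mem_sup_left (mem_span_singleton_self u)
        · have h1 := hthru u hu s h (Ne.symm hsu)
          have h2 : span K ({u} : Set V) ⊔ (l ⊓ H1) = span K {u, s} := by
            apply Submodule.eq_of_le_of_finrank_le
            · apply sup_le _ h1
              rw [pair_eq]; exact le_sup_left
            · rw [pair_eq, finrank_sup_span (geom_notMem hS (hTS u hu) hs (Ne.symm hsu)),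
                finrank_span_singleton (hS u (hTS u hu)).1]
              have h3 : l ⊓ H1 < span K ({u} : Set V) ⊔ (l ⊓ H1) := by
                refine lt_of_le_of_ne le_sup_right fun h4 => hup ?_
                rw [h4]
                exact mem_sup_left (mem_span_singleton_self u)
              have := finrank_lt_of_lt h3
              omega
          have h3 : s ∈ span K ({u, s} : Set V) := by
            rw [pair_eq]; exact mem_sup_single s
          rw [← h2] at h3
          have h4 : span K ({u} : Set V) ⊔ (l ⊓ H1) ≤ span K ({u} : Set V) ⊔ l :=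
            sup_le_sup le_rfl inf_le_left
          exact h4 h3
      · exact mem_sup_right (hll s h)
    have htop : span K ({u} : Set V) ⊔ l = ⊤ := by
      rw [eq_top_iff, ← hspan, span_le]
      exact hall
    have h1 := Submodule.finrank_sup_add_finrank_inf_eq (span K ({u} : Set V)) l
    rw [htop, finrank_top, hdim, hl, finrank_span_singleton (hS u (hTS u hu)).1] at h1
    omega

end Pool.Agent.Lib.MP_fdd68d_co
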