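import Pool.Agent.Lib.MP_fdd68d_co.PropB

/-!
The combinatorial cores in rank three and rank four.
-/

namespace Pool.Agent.Lib.MP_fdd68d_co

set_option linter.unusedSectionVars false

open Module Finset Submodule

variable {K V : Type*} [Field K] [AddCommGroup V] [Module K V] [FiniteDimensional K V]

/-- a union of two planes is impossible -/
lemma two_planes_contra {S : Finset V} (hS : Geometry K S) (hdim : finrank K V = 4)
    (hspan : span K (S : Set V) = ⊤) {Q : ℕ} (hQ : 4 ≤ Q)
    (htf0 : TriFree S (⊥ : Submodule K V))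
    (htf : ∀ x ∈ S, TriFree S (span K ({x} : Set V)))
    (hD : ∀ x ∈ S, ∀ y ∈ S, x ≠ y → (cov S (span K {x, y})).card ≤ Q)
    (hC : ∀ H : Submodule K V, finrank K H = 3 → Q ≤ (out S H).card)
    {H1 H2 : Submodule K V} (hH1 : finrank K H1 = 3) (hH2 : finrank K H2 = 3)
    (hcov : ∀ s ∈ S, s ∈ H1 ∨ s ∈ H2) {x : V} (hx : x ∈ S) (hx1 : x ∈ H1) (hx2 : x ∈ H2) :
    False := by
  classical
  have h1 := hC H1 hH1
  have h2 := hC H2 hH2
  set T1 := S.filter (fun s => s ∈ H1) with hT1
  set T2 := S.filter (fun s => s ∈ H2) with hT2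
  have hm1 : ∀ s, s ∈ T1 ↔ s ∈ S ∧ s ∈ H1 := by intro s; rw [hT1, mem_filter]
  have hm2 : ∀ s, s ∈ T2 ↔ s ∈ S ∧ s ∈ H2 := by intro s; rw [hT2, mem_filter]
  have hcov' : ∀ s ∈ S, s ∈ H2 ∨ s ∈ H1 := fun s hs => (hcov s hs).symm
  have hsub1 : out S H2 ⊆ T1 := by
    intro s hs
    rw [mem_out] at hs
    exact (hm1 s).2 ⟨hs.1, (hcov s hs.1).resolve_right hs.2⟩
  have hsub2 : out S H1 ⊆ T2 := by
    intro s hs
    rw [mem_out] at hs
    exact (hm2 s).2 ⟨hs.1, (hcov s hs.1).resolve_left hs.2⟩
  have hc1 := card_le_card hsub1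
  have hc2 := card_le_card hsub2
  by_cases hnl : ∃ l : Submodule K V, finrank K l = 2 ∧ ∀ s ∈ out S H2, s ∈ l
  · obtain ⟨l, hl, hll⟩ := hnl
    exact line_contra hS hdim hspan hQ hH2 hD hC hm2 (by omega) hl hll
  · have hdeg : ∀ y ∈ S, y ∉ H1 → 2 * (cov T2 (span K ({y} : Set V))).card ≤ Q :=
      fun y hy hy1 => degree_half hS hdim hQ hH1 hH2 hcov hD h2 hnl hm2 hy hy1 (htf y hy)
    obtain ⟨l, hl, hll⟩ := one_line hS hQ hm2 hcov htf0 hx hx1 hx2 h1 hdeg
    exact line_contra hS hdim hspan hQ hH1 hD hC hm1 (by omega) hl hll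

/-- combinatorial core in rank four -/
theorem rank_four_core (S : Finset V) (hS : Geometry K S)
    (hdim : finrank K V = 4) (hspan : span K (S : Set V) = ⊤) (Q : ℕ) (hQ : 4 ≤ Q)
    (htf : ∀ X : Finset V, X ⊆ S → TriFree S (span K (X : Set V)))
    (hD : ∀ x ∈ S, ∀ y ∈ S, x ≠ y → (cov S (span K {x, y})).card ≤ Q)
    (hJ : ∀ x ∈ S, ∀ y ∈ S, x ≠ y →
      (cov S (span K {x, y})).card + Q ≤ (out S (span K {x, y})).card + 1)
    (hC : ∀ H : Submodule K V, finrank K H = 3 → Q ≤ (out S H).card) :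
    False := by
  classical
  have htf0 : TriFree S (⊥ : Submodule K V) := by
    have := htf ∅ (empty_subset _)
    simpa using this
  have htf1 : ∀ x ∈ S, TriFree S (span K ({x} : Set V)) := by
    intro x hx
    have := htf {x} (singleton_subset_iff.2 hx)
    simpa using this
  -- a pair of distinct elements
  have hcard : 1 < S.card := by
    by_contra h
    push Not at h
    have h1 : finrank K (span K (S : Set V)) ≤ S.card := finrank_span_finset_le_card S
    rw [hspan, finrank_top, hdim] at h1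
    omega
  obtain ⟨x0, hx0, y0, hy0, hxy0⟩ := one_lt_card.1 hcard
  -- choose the pair with the largest number of covers
  have hne : (S.offDiag).Nonempty := ⟨(x0, y0), by simp [mem_offDiag, hx0, hy0, hxy0]⟩
  obtain ⟨⟨x, y⟩, hxy, hmax⟩ := exists_max_image S.offDiag
    (fun p => (cov S (span K {p.1, p.2})).card) hne
  rw [mem_offDiag] at hxy
  obtain ⟨hx, hy, hne'⟩ := hxy
  simp only at hx hy hne' hmax
  set D := (cov S (span K {x, y})).card with hDdef
  have hmax' : ∀ u ∈ S, ∀ v ∈ S, u ≠ v → (cov S (span K {u, v})).card ≤ D := by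
    intro u hu v hv huv
    exact hmax (u, v) (by simp [mem_offDiag, hu, hv, huv])
  have hDQ : D ≤ Q := hD x hx y hy hne'
  -- at least two covers
  have hrF : finrank K (span K ({x, y} : Set V)) = 2 := by
    rw [pair_eq, finrank_sup_span (geom_notMem hS hx hy hne'),
      finrank_span_singleton (hS x hx).1]
  have hD2 : 2 ≤ D := by
    by_contra hlt
    push Not at hlt
    have hle1 : (cov S (span K {x, y})).card ≤ 1 := by omega
    rw [card_le_one] at hle1
    obtain ⟨s, hs, hsF⟩ : ∃ s ∈ S, s ∉ span K ({x, y} : Set V) := by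
      by_contra hcon
      push Not at hcon
      have : span K (S : Set V) ≤ span K ({x, y} : Set V) := span_le.2 hcon
      rw [hspan] at this
      have h1 := Submodule.finrank_mono this
      rw [finrank_top] at h1
      omega
    have hp := mem_cov.2 ⟨s, hs, hsF, rfl⟩
    have hall : span K (S : Set V) ≤ span K ({x, y} : Set V) ⊔ span K {s} := by
      rw [span_le]
      intro t ht
      by_cases htF : t ∈ span K ({x, y} : Set V)
      · exact mem_sup_left htF
      · have h1 := hle1 _ (mem_cov.2 ⟨t, ht, htF, rfl⟩) _ hp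
        have h2 : t ∈ span K ({x, y} : Set V) ⊔ span K {t} := mem_sup_single t
        rw [h1] at h2
        exact h2
    rw [hspan] at hall
    have h1 := Submodule.finrank_mono hall
    rw [finrank_top, finrank_sup_span hsF] at h1
    omega
  by_cases hbx : 3 * D < 2 * (cov S (span K ({x} : Set V))).card
  · obtain ⟨H1, H2, h1, h2, h3, h4, h5⟩ := two_planes hS hx (htf1 x hx) hD2
      (fun v hv hxv => hmax' x hx v hv hxv) hbx
    exact two_planes_contra hS hdim hspan hQ htf0 htf1 hD hC h1 h2 h5 hx h3 h4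
  by_cases hby : 3 * D < 2 * (cov S (span K ({y} : Set V))).card
  · obtain ⟨H1, H2, h1, h2, h3, h4, h5⟩ := two_planes hS hy (htf1 y hy) hD2
      (fun v hv hyv => hmax' y hy v hv hyv) hby
    exact two_planes_contra hS hdim hspan hQ htf0 htf1 hD hC h1 h2 h5 hy h3 h4
  have hf := forest_line hS htf0 hx hy hne'
  have hj := hJ x hx y hy hne'
  omega

end Pool.Agent.Lib.MP_fdd68d_co
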