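import Pool.Agent.Lib.MP_fdd68d_co.RankFour

/-!
The combinatorial core in rank three.
-/

namespace Pool.Agent.Lib.MP_fdd68d_co

set_option linter.unusedSectionVars false

open Module Finset Submodule

variable {K V : Type*} [Field K] [AddCommGroup V] [Module K V] [FiniteDimensional K V]

/-- combinatorial core in rank three -/
theorem rank_three_core (S : Finset V) (hS : Geometry K S)
    (hdim : finrank K V = 3) (hspan : span K (S : Set V) = ⊤) (Q : ℕ) (hQ : 2 ≤ Q)
    (htf : TriFree S (⊥ : Submodule K V))
    (hD : ∀ x ∈ S, (cov S (span K ({x} : Set V))).card ≤ Q)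
    (hJ : ∀ x ∈ S, (cov S (span K ({x} : Set V))).card + Q ≤
      (out S (span K ({x} : Set V))).card + 1)
    (hC : ∀ H : Submodule K V, finrank K H = 2 → Q ≤ (out S H).card) :
    False := by
  classical
  have hne : S.Nonempty := by
    by_contra h
    rw [not_nonempty_iff_eq_empty] at h
    rw [h, coe_empty, span_empty] at hspan
    have := congrArg (fun W : Submodule K V => finrank K W) hspan
    simp only [finrank_bot, finrank_top] at this
    omega
  obtain ⟨x, hx, hmax⟩ := exists_max_image S (fun p => (cov S (span K ({p} : Set V))).card) hne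
  set D := (cov S (span K ({x} : Set V))).card with hDdef
  have hDQ : D ≤ Q := hD x hx
  have hr : ∀ s ∈ S, finrank K (span K ({s} : Set V)) = 1 :=
    fun s hs => finrank_span_singleton (hS s hs).1
  -- at least two lines
  have hD2 : 2 ≤ D := by
    by_contra hlt
    push Not at hlt
    have hle1 : (cov S (span K ({x} : Set V))).card ≤ 1 := by omega
    rw [card_le_one] at hle1
    obtain ⟨s, hs, hsF⟩ : ∃ s ∈ S, s ∉ span K ({x} : Set V) := by
      by_contra hcon
      push Not at hcon
      have : span K (S : Set V) ≤ span K ({x} : Set V) := span_le.2 hcon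
      rw [hspan] at this
      have h1 := Submodule.finrank_mono this
      rw [finrank_top, hr x hx] at h1
      omega
    have hp := mem_cov.2 ⟨s, hs, hsF, rfl⟩
    have hall : span K (S : Set V) ≤ span K ({x} : Set V) ⊔ span K {s} := by
      rw [span_le]
      intro t ht
      by_cases htF : t ∈ span K ({x} : Set V)
      · exact mem_sup_left htF
      · have h1 := hle1 _ (mem_cov.2 ⟨t, ht, htF, rfl⟩) _ hp
        have h2 : t ∈ span K ({x} : Set V) ⊔ span K {t} := mem_sup_single t
        rw [h1] at h2
        exact h2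
    rw [hspan] at hall
    have h1 := Submodule.finrank_mono hall
    rw [finrank_top, finrank_sup_span hsF, hr x hx] at h1
    omega
  -- the points of the linear space
  have hpt : ∀ s ∈ S, (⊥ : Submodule K V) ⊔ span K {s} ∈ cov S (⊥ : Submodule K V) := by
    intro s hs
    refine mem_cov.2 ⟨s, hs, ?_, rfl⟩
    rw [mem_bot]
    exact (hS s hs).1
  have hcovcard : S.card ≤ (cov S (⊥ : Submodule K V)).card := by
    have h1 : S.image (fun s => (⊥ : Submodule K V) ⊔ span K {s}) ⊆ cov S (⊥ : Submodule K V) := by
      intro p hp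
      rw [mem_image] at hp
      obtain ⟨s, hs, rfl⟩ := hp
      exact hpt s hs
    have h2 := card_le_card h1
    rwa [card_image_of_injOn (fun s hs t ht hst => inj_bot hS hs ht hst)] at h2
  have hjx := hJ x hx
  have hout : (out S (span K ({x} : Set V))).card + 1 ≤ S.card := by
    have h1 : out S (span K ({x} : Set V)) ⊆ S.erase x := by
      intro s hs
      rw [mem_out] at hs
      rw [mem_erase]
      refine ⟨?_, hs.1⟩
      rintro rfl
      exact hs.2 (mem_span_singleton_self _)
    have h2 := card_le_card h1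
    rw [card_erase_of_mem hx] at h2
    have : 0 < S.card := card_pos.2 ⟨x, hx⟩
    omega
  obtain ⟨a, ha, b, hb, c, hc, d, hd, hab, hcd, hall⟩ :=
    (linSp_cov S (⊥ : Submodule K V)).two_lines (noTri_cov htf) hD2 (by
      intro p hp
      rw [deg_cov hp]
      obtain ⟨s, hs, _, rfl⟩ := mem_cov.1 hp
      rw [bot_sup_eq]
      exact hmax s hs) (by omega)
  have r1 := finrank_join ha hb hab
  have r2 := finrank_join hc hd hcd
  rw [finrank_bot, zero_add] at r1 r2
  set l1 := a ⊔ b with hl1
  set l2 := c ⊔ d with hl2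
  have hS12 : ∀ s ∈ S, s ∈ l1 ∨ s ∈ l2 := by
    intro s hs
    rcases hall _ (hpt s hs) with h | h
    · exact Or.inl (h (mem_sup_single s))
    · exact Or.inr (h (mem_sup_single s))
  have c1 := hC l1 r1
  have c2 := hC l2 r2
  obtain ⟨u, hu, v, hv, huv⟩ := one_lt_card.1 (show 1 < (out S l2).card by omega)
  rw [mem_out] at hu hv
  have hu1 : u ∈ l1 := (hS12 u hu.1).resolve_right hu.2
  have hv1 : v ∈ l1 := (hS12 v hv.1).resolve_right hv.2
  have hout1 : ∀ z ∈ out S l1, z ∈ S ∧ z ∉ l1 ∧ z ∈ l2 := by
    intro z hz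
    rw [mem_out] at hz
    exact ⟨hz.1, hz.2, (hS12 z hz.1).resolve_left hz.2⟩
  have hul1 : span K ({u} : Set V) ≤ l1 := by rw [span_singleton_le_iff_mem]; exact hu1
  have hinj : Set.InjOn (fun z => span K ({u} : Set V) ⊔ span K {z}) (out S l1 : Finset V) := by
    intro z hz z' hz' hzz'
    obtain ⟨hzS, hz1, hz2⟩ := hout1 z hz
    obtain ⟨hzS', hz1', hz2'⟩ := hout1 z' hz'
    by_contra hne
    have h1 : z' ∈ span K ({u} : Set V) ⊔ span K {z} := by
      have h2 : z' ∈ span K ({u} : Set V) ⊔ span K {z'} := mem_sup_single z'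
      have h3 : span K ({u} : Set V) ⊔ span K {z} = span K ({u} : Set V) ⊔ span K {z'} := hzz'
      rw [h3]; exact h2
    rw [Submodule.mem_sup] at h1
    obtain ⟨g, hg, w, hw, hgw⟩ := h1
    have hwl : w ∈ l2 := by
      have : span K ({z} : Set V) ≤ l2 := by
        rw [span_singleton_le_iff_mem]; exact hz2
      exact this hw
    have hgl : g ∈ l2 := by
      have : g = z' - w := by rw [← hgw]; abel
      rw [this]
      exact l2.sub_mem hz2' hwl
    rw [mem_span_singleton] at hg
    obtain ⟨k, rfl⟩ := hg
    by_cases hk : k = 0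
    · rw [hk, zero_smul, zero_add] at hgw
      exact geom_notMem hS hzS hzS' hne (hgw ▸ hw)
    · exact hu.2 ((l2.smul_mem_iff hk).1 hgl)
  have hp : span K ({u} : Set V) ⊔ span K {v} ∈ cov S (span K ({u} : Set V)) :=
    mem_cov.2 ⟨v, hv.1, geom_notMem hS hu.1 hv.1 huv, rfl⟩
  have hpn : span K ({u} : Set V) ⊔ span K {v} ∉
      (out S l1).image (fun z => span K ({u} : Set V) ⊔ span K {z}) := by
    intro h
    rw [mem_image] at h
    obtain ⟨z, hz, hzz⟩ := h
    apply (hout1 z hz).2.1
    have h1 : span K ({u} : Set V) ⊔ span K {v} ≤ l1 := by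
      apply sup_le hul1
      rw [span_singleton_le_iff_mem]; exact hv1
    rw [← hzz] at h1
    exact h1 (mem_sup_single z)
  have h1 : (insert (span K ({u} : Set V) ⊔ span K {v})
      ((out S l1).image (fun z => span K ({u} : Set V) ⊔ span K {z}))).card ≤
      (cov S (span K ({u} : Set V))).card := by
    apply card_le_card
    intro p hp'
    rw [mem_insert, mem_image] at hp'
    rcases hp' with rfl | ⟨z, hz, rfl⟩
    · exact hp
    · exact mem_cov.2 ⟨z, (hout1 z hz).1, fun h => (hout1 z hz).2.1 (hul1 h), rfl⟩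
  rw [card_insert_of_notMem hpn, card_image_of_injOn hinj] at h1
  have := hD u hu.1
  omega

end Pool.Agent.Lib.MP_fdd68d_co
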