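import Pool.Agent.Lib.MP_fdd68d_co.Contract

/-!
Connected hyperplanes of geometries with at most five points on a line minor.
-/

namespace Pool.Agent.Lib.MP_fdd68d_co

set_option linter.unusedSectionVars false

open Module Finset Submodule

variable {K V : Type*} [Field K] [AddCommGroup V] [Module K V]

/-- `X` is spanned by elements of `S`. -/
def Sp (S : Finset V) (X : Submodule K V) : Prop :=
  ∃ Y : Finset V, Y ⊆ S ∧ span K (Y : Set V) = X

/-- Any two nonzero vectors of `X` are avoided by a hyperplane of `X` spanned by elements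
of `S`. -/
def Conn (S : Finset V) (X : Submodule K V) : Prop :=
  ∀ u ∈ X, ∀ v ∈ X, u ≠ 0 → v ≠ 0 → ∃ B : Submodule K V, Sp S B ∧ B ≤ X ∧
    finrank K B + 1 = finrank K X ∧ u ∉ B ∧ v ∉ B

lemma Sp.sup {S : Finset V} {X : Submodule K V} (h : Sp S X) {s : V} (hs : s ∈ S) :
    Sp S (X ⊔ span K {s}) := by
  classical
  obtain ⟨Y, hY, rfl⟩ := h
  refine ⟨insert s Y, insert_subset hs hY, ?_⟩
  rw [coe_insert, span_insert, sup_comm]

lemma Sp.exists_notMem {S : Finset V} {X Y : Submodule K V} (h : Sp S X) (hXY : ¬ X ≤ Y) :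
    ∃ s ∈ S, s ∈ X ∧ s ∉ Y := by
  obtain ⟨T, hT, rfl⟩ := h
  by_contra hcon
  push Not at hcon
  apply hXY
  rw [span_le]
  intro s hs
  exact hcon s (hT hs) (subset_span hs)

lemma exch {X : Submodule K V} {a b : V} (h : b ∈ X ⊔ span K {a}) (hb : b ∉ X) :
    a ∈ X ⊔ span K {b} := by
  obtain ⟨x, hx, y, hy, rfl⟩ := Submodule.mem_sup.1 h
  obtain ⟨c, rfl⟩ := mem_span_singleton.1 hy
  have hc : c ≠ 0 := by
    rintro rfl
    apply hb
    simpa using hx
  refine Submodule.mem_sup.2 ⟨-(c⁻¹ • x), neg_mem (smul_mem _ _ hx), c⁻¹ • (x + c • a),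
    smul_mem _ _ (mem_span_singleton_self _), ?_⟩
  rw [smul_add, smul_smul, inv_mul_cancel₀ hc, one_smul]
  abel

lemma sup_span_le {X Y : Submodule K V} {a : V} (h : X ≤ Y) (ha : a ∈ Y) :
    X ⊔ span K {a} ≤ Y := by
  refine sup_le h ?_
  rw [span_singleton_le_iff_mem]
  exact ha

variable [FiniteDimensional K V]

lemma finrank_sup_span_le (X : Submodule K V) (s : V) :
    finrank K (X ⊔ span K {s} : Submodule K V) ≤ finrank K X + 1 := by
  by_cases hs : s ∈ X
  · rw [sup_eq_left.2 (by rwa [span_singleton_le_iff_mem])]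
    omega
  · rw [finrank_sup_span hs]

/-- a nonzero vector can be avoided by a spanned hyperplane -/
lemma avoid_one {S : Finset V} (B : Submodule K V) (Y : Finset V) (hB : Sp S B) (hY : Y ⊆ S) {b : V}
    (hb : b ∈ B ⊔ span K (Y : Set V)) (hbB : b ∉ B) :
    ∃ T : Submodule K V, Sp S T ∧ B ≤ T ∧ T ≤ B ⊔ span K (Y : Set V) ∧ b ∉ T ∧
      finrank K T + 1 = finrank K (B ⊔ span K (Y : Set V) : Submodule K V) := by
  classical
  induction Y using Finset.induction_on with
  | empty =>
    exfalso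
    rw [coe_empty, span_empty, sup_bot_eq] at hb
    exact hbB hb
  | insert a Y ha ih =>
    by_cases h1 : b ∈ B ⊔ span K (Y : Set V)
    · obtain ⟨T, hT1, hT2, hT3, hT4, hT5⟩ := ih (fun x hx => hY (mem_insert_of_mem hx)) h1
      have hW : B ⊔ span K ((insert a Y : Finset V) : Set V) =
          (B ⊔ span K (Y : Set V)) ⊔ span K {a} := by
        rw [coe_insert, span_insert, sup_comm (span K {a}), sup_assoc]
      by_cases h2 : a ∈ B ⊔ span K (Y : Set V)
      · rw [hW, sup_eq_left.2 (by rwa [span_singleton_le_iff_mem])]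
        exact ⟨T, hT1, hT2, hT3, hT4, hT5⟩
      · refine ⟨T ⊔ span K {a}, hT1.sup (hY (mem_insert_self a Y)), hT2.trans le_sup_left, ?_, ?_,
          ?_⟩
        · rw [hW]
          exact sup_le_sup_right hT3 _
        · intro hmem
          have h3 := exch hmem hT4
          exact h2 (sup_span_le hT3 h1 h3)
        · rw [hW, finrank_sup_span h2, finrank_sup_span (fun h => h2 (hT3 h)), hT5]
    · refine ⟨B ⊔ span K (Y : Set V), ?_, le_sup_left, ?_, h1, ?_⟩
      · obtain ⟨Z, hZ, rfl⟩ := hB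
        refine ⟨Z ∪ Y, union_subset hZ (fun x hx => hY (mem_insert_of_mem hx)), ?_⟩
        rw [coe_union, span_union]
      · rw [coe_insert, span_insert]
        exact sup_le_sup_left le_sup_right _
      · have hW : B ⊔ span K ((insert a Y : Finset V) : Set V) =
            (B ⊔ span K (Y : Set V)) ⊔ span K {a} := by
          rw [coe_insert, span_insert, sup_comm (span K {a}), sup_assoc]
        rw [hW] at hb ⊢
        have h2 : a ∉ B ⊔ span K (Y : Set V) := by
          intro h2
          rw [sup_eq_left.2 (by rwa [span_singleton_le_iff_mem])] at hb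
          exact h1 hb
        rw [finrank_sup_span h2]

/-- The hyperplane `G1` of `G` avoids `k` and does not contain all points of `G \ K`. -/
def Split (S : Finset V) (G Kk : Submodule K V) (k : V) (G1 : Submodule K V) : Prop :=
  Sp S G1 ∧ G1 ≤ G ∧ finrank K G1 + 1 = finrank K G ∧ k ∉ G1 ∧ ∃ y ∈ S, y ∈ G ∧ y ∉ Kk ∧ y ∉ G1

open Classical in
/-- the span of the common points of `G1` and `Kk` -/
noncomputable def com (S : Finset V) (Kk G1 : Submodule K V) : Submodule K V :=
  span K ((S.filter fun s => s ∈ Kk ∧ s ∈ G1 : Finset V) : Set V)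

lemma sp_com (S : Finset V) (Kk G1 : Submodule K V) : Sp S (com S Kk G1) := by
  classical
  exact ⟨S.filter fun s => s ∈ Kk ∧ s ∈ G1, filter_subset _ _, by unfold com; congr⟩

lemma com_le_left (S : Finset V) (Kk G1 : Submodule K V) : com S Kk G1 ≤ Kk := by
  classical
  rw [com, span_le]
  intro s hs
  rw [mem_coe, mem_filter] at hs
  exact hs.2.1

lemma com_le_right (S : Finset V) (Kk G1 : Submodule K V) : com S Kk G1 ≤ G1 := by
  classical
  rw [com, span_le]
  intro s hs
  rw [mem_coe, mem_filter] at hs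
  exact hs.2.2

lemma mem_com {S : Finset V} {Kk G1 : Submodule K V} {s : V} (hs : s ∈ S) (h1 : s ∈ Kk)
    (h2 : s ∈ G1) : s ∈ com S Kk G1 := by
  classical
  rw [com]
  exact subset_span (by rw [mem_coe, mem_filter]; exact ⟨hs, h1, h2⟩)

/-- the exchange step -/
lemma split_step {S : Finset V} {G Kk : Submodule K V} {k : V} (hK : Sp S Kk)
    (hKG : Kk ≤ G) (hr : finrank K Kk + 1 = finrank K G) (hk : k ∈ Kk) {G1 : Submodule K V}
    (h : Split S G Kk k G1) (hsmall : finrank K (com S Kk G1) + 2 < finrank K G) :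
    ∃ G2, Split S G Kk k G2 ∧ finrank K (com S Kk G1) < finrank K (com S Kk G2) := by
  classical
  obtain ⟨h1, h2, h3, h4, -⟩ := h
  set B := com S Kk G1 with hB
  have hkB : k ∉ B := fun h => h4 (com_le_right S Kk G1 h)
  -- the new point
  obtain ⟨s, hsS, hsK, hs⟩ := hK.exists_notMem (Y := B ⊔ span K {k}) (by
    intro hle
    have e1 := Submodule.finrank_mono hle
    have e2 := finrank_sup_span_le B k
    omega)
  have hsB : s ∉ B := fun h => hs (mem_sup_left h)
  have hsG1 : s ∉ G1 := fun h => hsB (mem_com hsS hsK h)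
  -- `k = γ s + b`
  have hGs : G1 ⊔ span K {s} = G := by
    apply Submodule.eq_of_le_of_finrank_eq (sup_span_le h2 (hKG hsK))
    rw [finrank_sup_span hsG1, h3]
  obtain ⟨b, hb, c, hc, hbc⟩ := Submodule.mem_sup.1 (hGs ▸ hKG hk : k ∈ G1 ⊔ span K {s})
  obtain ⟨γ, rfl⟩ := mem_span_singleton.1 hc
  have hbB : b ∉ B := by
    intro hbB
    have e1 : k ∈ B ⊔ span K {s} := by
      rw [← hbc]
      exact add_mem (mem_sup_left hbB) (mem_sup_right (smul_mem _ _ (mem_span_singleton_self s)))
    exact hs (exch e1 hkB)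
  -- the hyperplane `T` of `G1`
  set Y : Finset V := S.filter fun x => x ∈ G1 ∧ x ∉ Kk with hYdef
  have hYS : Y ⊆ S := filter_subset _ _
  have hBY : B ⊔ span K (Y : Set V) = G1 := by
    apply le_antisymm
    · refine sup_le (com_le_right S Kk G1) ?_
      rw [span_le]
      intro x hx
      rw [mem_coe, hYdef, mem_filter] at hx
      exact hx.2.1
    · by_contra hcon
      obtain ⟨x, hxS, hx1, hx2⟩ := h1.exists_notMem hcon
      by_cases hxK : x ∈ Kk
      · exact hx2 (mem_sup_left (mem_com hxS hxK hx1))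
      · exact hx2 (mem_sup_right (subset_span (by
          rw [mem_coe, hYdef, mem_filter]; exact ⟨hxS, hx1, hxK⟩)))
  obtain ⟨T, hT1, hT2, hT3, hT4, hT5⟩ := avoid_one B Y (sp_com S Kk G1) hYS (hBY.symm ▸ hb) hbB
  rw [hBY] at hT3 hT5
  have hsT : s ∉ T := fun h => hsG1 (hT3 h)
  -- intersection with `G1`
  have hinter : ∀ x ∈ G1, x ∈ T ⊔ span K {s} → x ∈ T := by
    intro x hx hmem
    by_contra hxT
    exact hsG1 (sup_span_le hT3 hx (exch hmem hxT))
  refine ⟨T ⊔ span K {s}, ⟨hT1.sup hsS, sup_span_le (hT3.trans h2) (hKG hsK), ?_, ?_, ?_⟩, ?_⟩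
  · rw [finrank_sup_span hsT, hT5, h3]
  · intro hmem
    have e1 : b ∈ T ⊔ span K {s} := by
      have : b = k - γ • s := by rw [← hbc]; abel
      rw [this]
      exact sub_mem hmem (mem_sup_right (smul_mem _ _ (mem_span_singleton_self s)))
    exact hT4 (hinter b hb e1)
  · by_contra hcon
    push Not at hcon
    have e1 : G1 ≤ T := by
      rw [← hBY]
      refine sup_le hT2 ?_
      rw [span_le]
      intro x hx
      have hx' := hx
      rw [mem_coe, hYdef, mem_filter] at hx
      exact hinter x hx.2.1 (hcon x hx.1 (h2 hx.2.1) hx.2.2)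
    have e2 := Submodule.finrank_mono e1
    omega
  · have e1 : B ⊔ span K {s} ≤ com S Kk (T ⊔ span K {s}) := by
      refine sup_le ?_ ?_
      · rw [hB, com, span_le]
        intro x hx
        have hxB : x ∈ B := by rw [hB, com]; exact subset_span hx
        rw [mem_coe, mem_filter] at hx
        exact mem_com hx.1 hx.2.1 (mem_sup_left (hT2 hxB))
      · rw [span_singleton_le_iff_mem]
        exact mem_com hsS hsK (mem_sup_right (mem_span_singleton_self s))
    have e2 := Submodule.finrank_mono e1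
    rw [finrank_sup_span hsB] at e2
    omega

/-- good corank two subspaces -/
lemma exists_good {S : Finset V} {G Kk : Submodule K V} {k : V} (hG : Sp S G) (hC : Conn S G)
    (hK : Sp S Kk) (hKG : Kk ≤ G) (hr : finrank K Kk + 1 = finrank K G) (hk : k ∈ Kk)
    (hk0 : k ≠ 0) :
    ∃ G1, Split S G Kk k G1 ∧ finrank K (com S Kk G1) + 2 = finrank K G := by
  classical
  -- a first splitting hyperplane
  obtain ⟨y, hyS, hyG, hyK⟩ := hG.exists_notMem (Y := Kk) (by
    intro hle
    have := Submodule.finrank_mono hle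
    omega)
  have hy0 : y ≠ 0 := fun h => hyK (h ▸ Kk.zero_mem)
  obtain ⟨G0, g1, g2, g3, g4, g5⟩ := hC k (hKG hk) y hyG hk0 hy0
  have h0 : Split S G Kk k G0 := ⟨g1, g2, g3, g4, y, hyS, hyG, hyK, g5⟩
  -- upper bound
  have hub : ∀ G1, Split S G Kk k G1 → finrank K (com S Kk G1) + 2 ≤ finrank K G := by
    rintro G1 ⟨-, -, q3, q4, -⟩
    have e1 : com S Kk G1 < G1 := by
      refine lt_of_le_of_ne (com_le_right S Kk G1) fun heq => ?_
      have e2 : G1 ≤ Kk := heq ▸ com_le_left S Kk G1
      have e3 : G1 = Kk := Submodule.eq_of_le_of_finrank_eq e2 (by omega)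
      exact q4 (e3 ▸ hk)
    have := finrank_lt_of_lt e1
    omega
  -- iterate
  have hit : ∀ j : ℕ, (∃ G1, Split S G Kk k G1 ∧ finrank K (com S Kk G1) + 2 = finrank K G) ∨
      ∃ G1, Split S G Kk k G1 ∧ j ≤ finrank K (com S Kk G1) := by
    intro j
    induction j with
    | zero => exact Or.inr ⟨G0, h0, Nat.zero_le _⟩
    | succ j ih =>
      rcases ih with h | ⟨G1, h1, h2⟩
      · exact Or.inl h
      · rcases Nat.lt_or_ge (finrank K (com S Kk G1) + 2) (finrank K G) with h3 | h3
        · obtain ⟨G2, h4, h5⟩ := split_step hK hKG hr hk h1 h3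
          exact Or.inr ⟨G2, h4, by omega⟩
        · exact Or.inl ⟨G1, h1, le_antisymm (hub G1 h1) h3⟩
  rcases hit (finrank K G) with h | ⟨G1, h1, h2⟩
  · exact h
  · have := hub G1 h1
    omega

/-! ### Connected subspaces -/

lemma Conn.step {S : Finset V} (hS : Geometry K S) {X : Submodule K V} (hX : Sp S X)
    (hC : Conn S X) {s t : V} (hs : s ∈ S) (ht : t ∈ S) (hsX : s ∉ X) (htX : t ∉ X) (hst : s ≠ t)
    (hmem : t ∈ X ⊔ span K {s}) : Conn S (X ⊔ span K {s}) := by
  obtain ⟨x0, hx0, c, hc, hxt⟩ := Submodule.mem_sup.1 hmem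
  obtain ⟨α, rfl⟩ := mem_span_singleton.1 hc
  have hx0' : x0 ≠ 0 := by
    rintro rfl
    rw [zero_add] at hxt
    exact (hS s hs).2 t ht (Ne.symm hst) (hxt ▸ smul_mem _ _ (mem_span_singleton_self s))
  have hr := finrank_sup_span hsX
  -- avoiding vectors of `X`
  have key : ∀ B : Submodule K V, B ≤ X → ∀ u ∈ X, u ∉ B → ∀ w, w ∉ X → u ∉ B ⊔ span K {w} := by
    intro B hB u hu huB w hw hmem
    exact hw (sup_span_le hB hu (exch hmem huB))
  -- one vector in `X` and one outside
  have mixed : ∀ u ∈ X, ∀ v ∈ X ⊔ span K {s}, u ≠ 0 → v ∉ X → ∃ B : Submodule K V, Sp S B ∧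
      B ≤ X ⊔ span K {s} ∧ finrank K B + 1 = finrank K (X ⊔ span K {s} : Submodule K V) ∧
      u ∉ B ∧ v ∉ B := by
    intro u hu v hv hu0 hvX
    obtain ⟨B, hB1, hB2, hB3, hB4, hB5⟩ := hC u hu x0 hx0 hu0 hx0'
    have hsB : s ∉ B := fun h => hsX (hB2 h)
    have htB : t ∉ B := fun h => htX (hB2 h)
    by_cases h1 : v ∈ B ⊔ span K {s}
    · refine ⟨B ⊔ span K {t}, hB1.sup ht, sup_span_le (hB2.trans le_sup_left) hmem, ?_,
        key B hB2 u hu hB4 t htX, ?_⟩
      · rw [finrank_sup_span htB, hr, hB3]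
      · intro h2
        have hvB : v ∉ B := fun h => hvX (hB2 h)
        have e1 := exch h1 hvB
        have e2 := exch h2 hvB
        have e3 : x0 ∈ B ⊔ span K {v} := by
          have : x0 = t - α • s := by rw [← hxt]; abel
          rw [this]
          exact sub_mem e2 (smul_mem _ _ e1)
        exact hvX (sup_span_le hB2 hx0 (exch e3 hB5))
    · exact ⟨B ⊔ span K {s}, hB1.sup hs, sup_span_le (hB2.trans le_sup_left)
        (mem_sup_right (mem_span_singleton_self s)), by rw [finrank_sup_span hsB, hr, hB3],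
        key B hB2 u hu hB4 s hsX, h1⟩
  intro u hu v hv hu0 hv0
  by_cases hu1 : u ∈ X
  · by_cases hv1 : v ∈ X
    · obtain ⟨B, hB1, hB2, hB3, hB4, hB5⟩ := hC u hu1 v hv1 hu0 hv0
      have hsB : s ∉ B := fun h => hsX (hB2 h)
      exact ⟨B ⊔ span K {s}, hB1.sup hs, sup_span_le (hB2.trans le_sup_left)
        (mem_sup_right (mem_span_singleton_self s)), by rw [finrank_sup_span hsB, hr, hB3],
        key B hB2 u hu1 hB4 s hsX, key B hB2 v hv1 hB5 s hsX⟩
    · exact mixed u hu1 v hv hu0 hv1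
  · by_cases hv1 : v ∈ X
    · obtain ⟨B, h1, h2, h3, h4, h5⟩ := mixed v hv1 u hu hv0 hu1
      exact ⟨B, h1, h2, h3, h5, h4⟩
    · exact ⟨X, hX, le_sup_left, hr.symm, hu1, hv1⟩

lemma exists_conn {S : Finset V} (hS : Geometry K S) {x : V} (hx : x ∈ S)
    (hns : ∀ X : Submodule K V, Sp S X → x ∈ X → X ≠ ⊤ → ¬ Simp S X) :
    ∀ j : ℕ, j + 1 ≤ finrank K V → ∃ X : Submodule K V, Sp S X ∧ x ∈ X ∧ Conn S X ∧
      finrank K X = j + 1 := by
  classical
  intro j
  induction j with
  | zero =>
    intro _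
    refine ⟨span K {x}, ⟨{x}, singleton_subset_iff.2 hx, by rw [coe_singleton]⟩,
      mem_span_singleton_self x, ?_, finrank_span_singleton (hS x hx).1⟩
    intro u _ v _ hu hv
    refine ⟨⊥, ⟨∅, empty_subset _, by simp⟩, bot_le, ?_, by simpa using hu, by simpa using hv⟩
    rw [finrank_bot, finrank_span_singleton (hS x hx).1]
  | succ j ih =>
    intro hj
    obtain ⟨X, h1, h2, h3, h4⟩ := ih (by omega)
    have h5 : X ≠ ⊤ := by
      rintro rfl
      rw [finrank_top] at h4
      omega
    have h6 := hns X h1 h2 h5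
    unfold Simp at h6
    push Not at h6
    obtain ⟨s, hs, t, ht, hsX, htX, hst, hmem⟩ := h6
    refine ⟨X ⊔ span K {s}, h1.sup hs, mem_sup_left h2, h3.step hS h1 hs ht hsX htX hst hmem, ?_⟩
    rw [finrank_sup_span hsX, h4]

/-! ### Counting mergers -/

open Classical in
/-- elements of `A` that are not alone in their fibre -/
noncomputable def mrg {α β : Type*} (A : Finset α) (f : α → β) : Finset α :=
  A.filter fun a => ∃ b ∈ A, b ≠ a ∧ f b = f a

lemma mem_mrg {α β : Type*} {A : Finset α} {f : α → β} {a : α} :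
    a ∈ mrg A f ↔ a ∈ A ∧ ∃ b ∈ A, b ≠ a ∧ f b = f a := by
  classical
  rw [mrg, mem_filter]

lemma card_mrg {α β : Type*} [DecidableEq β] (A : Finset α) (f : α → β)
    (h : (A.image f).card < A.card) :
    A.card + 1 ≤ (A.image f).card + (mrg A f).card := by
  classical
  have hne : ∃ m, m ∈ mrg A f := by
    by_contra hcon
    push Not at hcon
    have : (A.image f).card = A.card := by
      apply card_image_of_injOn
      intro a ha b hb hab
      by_contra hne
      exact hcon a (mem_mrg.2 ⟨ha, b, hb, Ne.symm hne, hab.symm⟩)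
    omega
  obtain ⟨m, hm⟩ := hne
  have hmA : m ∈ A := (mem_mrg.1 hm).1
  have hsub : mrg A f ⊆ A := fun a ha => (mem_mrg.1 ha).1
  have h1 : (insert m (A \ mrg A f)).card = (A \ mrg A f).card + 1 := by
    rw [card_insert_of_notMem]
    intro h
    exact (mem_sdiff.1 h).2 hm
  have h2 : ((insert m (A \ mrg A f)).image f).card = (insert m (A \ mrg A f)).card := by
    apply card_image_of_injOn
    intro a ha b hb hab
    by_contra hne
    rw [mem_coe, mem_insert, mem_sdiff] at ha hb
    rcases ha with rfl | ha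
    · rcases hb with rfl | hb
      · exact hne rfl
      · exact hb.2 (mem_mrg.2 ⟨hb.1, a, hmA, hne, hab⟩)
    · rcases hb with rfl | hb
      · exact ha.2 (mem_mrg.2 ⟨ha.1, b, hmA, Ne.symm hne, hab.symm⟩)
      · exact hb.2 (mem_mrg.2 ⟨hb.1, a, ha.1, hne, hab⟩)
  have h3 : ((insert m (A \ mrg A f)).image f).card ≤ (A.image f).card := by
    apply card_le_card
    apply image_subset_image
    intro a ha
    rw [mem_insert] at ha
    rcases ha with rfl | ha
    · exact hmA
    · exact (mem_sdiff.1 ha).1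
  have h4 := card_sdiff_add_card_eq_card hsub
  omega

/-! ### Covers outside a hyperplane -/

open Classical in
/-- the covers of `X` by the elements of `O` -/
noncomputable def covO (O : Finset V) (X : Submodule K V) : Finset (Submodule K V) :=
  O.image fun z => X ⊔ span K {z}

lemma mem_covO {O : Finset V} {X p : Submodule K V} :
    p ∈ covO O X ↔ ∃ z ∈ O, X ⊔ span K {z} = p := by
  classical
  rw [covO, mem_image]

lemma covO_image [DecidableEq (Submodule K V)] {O : Finset V} {X Y : Submodule K V} (h : X ≤ Y) :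
    (covO O X).image (fun p => p ⊔ Y) = covO O Y := by
  ext p
  rw [mem_image, mem_covO]
  constructor
  · rintro ⟨r, hr, rfl⟩
    obtain ⟨z, hz, rfl⟩ := mem_covO.1 hr
    exact ⟨z, hz, by rw [sup_right_comm, sup_eq_right.2 h]⟩
  · rintro ⟨z, hz, rfl⟩
    exact ⟨X ⊔ span K {z}, mem_covO.2 ⟨z, hz, rfl⟩, by
      show _ = _
      rw [sup_right_comm, sup_eq_right.2 h]⟩

/-- hyperplanes of `G` spanned by elements of `S` -/
def Hyp (S : Finset V) (G X : Submodule K V) : Prop :=
  Sp S X ∧ X ≤ G ∧ finrank K X + 1 = finrank K G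

lemma card_covO_lt {S : Finset V} {G X : Submodule K V} (hG : Sp S G) (h : Hyp S G X) :
    (covO (out S G) X).card + 1 ≤ (cov S X).card := by
  classical
  obtain ⟨h1, h2, h3⟩ := h
  obtain ⟨s, hs, hsG, hsX⟩ := hG.exists_notMem (Y := X) (by
    intro hle
    have := Submodule.finrank_mono hle
    omega)
  have hGc : X ⊔ span K {s} = G :=
    Submodule.eq_of_le_of_finrank_eq (sup_span_le h2 hsG) (by rw [finrank_sup_span hsX, h3])
  have hGn : G ∉ covO (out S G) X := by
    intro h
    obtain ⟨z, hz, he⟩ := mem_covO.1 h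
    apply (mem_out.1 hz).2
    rw [← he]
    exact mem_sup_right (mem_span_singleton_self z)
  rw [← card_insert_of_notMem hGn]
  apply card_le_card
  intro p hp
  rw [mem_insert] at hp
  rcases hp with rfl | hp
  · exact mem_cov.2 ⟨s, hs, hsX, hGc⟩
  · obtain ⟨z, hz, rfl⟩ := mem_covO.1 hp
    rw [mem_out] at hz
    exact mem_cov.2 ⟨z, hz.1, fun h => hz.2 (h2 h), rfl⟩

lemma hyp_mem_cov {S : Finset V} {G X B : Submodule K V} (h : Hyp S G X) (hBX : B ≤ X)
    (hB : finrank K B + 2 = finrank K G) : X ∈ cov S B := by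
  obtain ⟨h1, h2, h3⟩ := h
  obtain ⟨s, hs, hsX, hsB⟩ := h1.exists_notMem (Y := B) (by
    intro hle
    have := Submodule.finrank_mono hle
    omega)
  refine mem_cov.2 ⟨s, hs, hsB, ?_⟩
  exact Submodule.eq_of_le_of_finrank_eq (sup_span_le hBX hsX) (by
    rw [finrank_sup_span hsB]; omega)

/-- elements merging over a cover `X` of `B` are on long lines with `X` -/
lemma mrg_long {S : Finset V} {G X B : Submodule K V} (h : Hyp S G X) (hBX : B ≤ X) {p : Submodule K V}
    (hp : p ∈ mrg (covO (out S G) B) (fun p => p ⊔ X)) :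
    p ∈ cov S B ∧ ¬ p ≤ G ∧ Long S B p X := by
  obtain ⟨hp1, p', hp', hne, heq⟩ := mem_mrg.1 hp
  have hcov : ∀ r ∈ covO (out S G) B, r ∈ cov S B ∧ ¬ r ≤ G := by
    intro r hr
    obtain ⟨z, hz, rfl⟩ := mem_covO.1 hr
    rw [mem_out] at hz
    refine ⟨mem_cov.2 ⟨z, hz.1, fun h' => hz.2 (h.2.1 (hBX h')), rfl⟩, fun hle => hz.2 ?_⟩
    exact hle (mem_sup_right (mem_span_singleton_self z))
  obtain ⟨c1, c2⟩ := hcov p hp1
  obtain ⟨c3, c4⟩ := hcov p' hp'
  refine ⟨c1, c2, p', c3, hne, ?_, ?_⟩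
  · rintro rfl
    exact c4 h.2.1
  · show p' ≤ p ⊔ X
    have heq' : p' ⊔ X = p ⊔ X := heq
    rw [← heq']
    exact le_sup_left

/-- The core: a connected hyperplane gives a contradiction when lines have at most five points. -/
theorem core_q5 (S : Finset V) (hS : Geometry K S) (q : ℕ) (hq2 : 2 ≤ q) (hq5 : q ≤ 5) (G : Submodule K V) (hG : Sp S G) (hconn : Conn S G)
    (hG2 : 2 ≤ finrank K G) (hGV : finrank K G + 1 = finrank K V)
    (hout : q ≤ (out S G).card)
    (htf : ∀ X : Submodule K V, Sp S X → TriFree S X)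
    (hD : ∀ X : Submodule K V, Sp S X → finrank K X + 2 = finrank K V → (cov S X).card ≤ q) :
    False := by
  classical
  set O := out S G with hO
  have hub : ∀ X, Hyp S G X → (covO O X).card + 1 ≤ q := by
    intro X hX
    exact (card_covO_lt hG hX).trans (hD X hX.1 (by have := hX.2.2; omega))
  -- a hyperplane with the largest number of covers
  obtain ⟨X0, hX0⟩ : ∃ X, Hyp S G X := by
    obtain ⟨u, hu, hu0⟩ : ∃ u ∈ G, u ≠ 0 := by
      apply G.exists_mem_ne_zero_of_ne_bot
      rintro rfl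
      rw [finrank_bot] at hG2
      omega
    obtain ⟨B, h1, h2, h3, -⟩ := hconn u hu u hu hu0 hu0
    exact ⟨B, h1, h2, h3⟩
  obtain ⟨Kk, hK, hmax⟩ : ∃ Kk, Hyp S G Kk ∧ ∀ X, Hyp S G X → (covO O X).card ≤ (covO O Kk).card := by
    have hne : {m : ℕ | ∃ X, Hyp S G X ∧ (covO O X).card = m}.Nonempty := ⟨_, X0, hX0, rfl⟩
    have hbd : BddAbove {m : ℕ | ∃ X, Hyp S G X ∧ (covO O X).card = m} := by
      refine ⟨q, ?_⟩
      rintro _ ⟨X, hX, rfl⟩
      have := hub X hX
      omega
    obtain ⟨Kk, hK, hKe⟩ := Nat.sSup_mem hne hbd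
    refine ⟨Kk, hK, fun X hX => ?_⟩
    rw [hKe]
    exact le_csSup hbd ⟨X, hX, rfl⟩
  have hK1 := hub Kk hK
  -- two elements merging over `Kk`
  obtain ⟨z, hz, z', hz', hzz, hmz⟩ : ∃ z ∈ O, ∃ z' ∈ O, z ≠ z' ∧
      Kk ⊔ span K {z} = Kk ⊔ span K {z'} := by
    apply exists_ne_map_eq_of_card_lt_of_maps_to (t := covO O Kk) (by omega)
    intro z hz
    exact mem_covO.2 ⟨z, hz, rfl⟩
  have hzG : z ∉ G := (mem_out.1 hz).2
  have hz'G : z' ∉ G := (mem_out.1 hz').2
  have hzS : z ∈ S := (mem_out.1 hz).1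
  have hz'S : z' ∈ S := (mem_out.1 hz').1
  have hz'mem : z' ∈ Kk ⊔ span K {z} := by
    rw [hmz]
    exact mem_sup_right (mem_span_singleton_self z')
  obtain ⟨k, hk, c, hc, hkz⟩ := Submodule.mem_sup.1 hz'mem
  obtain ⟨α, rfl⟩ := mem_span_singleton.1 hc
  have hk0 : k ≠ 0 := by
    rintro rfl
    rw [zero_add] at hkz
    exact (hS z hzS).2 z' hz'S (Ne.symm hzz) (hkz ▸ smul_mem _ _ (mem_span_singleton_self z))
  -- the good corank two subspace
  obtain ⟨G1, ⟨g1, g2, g3, g4, y, hy, hyG, hyK, hyG1⟩, hBr⟩ :=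
    exists_good hG hconn hK.1 hK.2.1 hK.2.2 hk hk0
  set B := com S Kk G1 with hB
  have hBK : B ≤ Kk := com_le_left S Kk G1
  have hBG1 : B ≤ G1 := com_le_right S Kk G1
  have hyB : y ∉ B := fun h => hyK (hBK h)
  have hG1 : Hyp S G G1 := ⟨g1, g2, g3⟩
  have hK3 : Hyp S G (B ⊔ span K {y}) :=
    ⟨(sp_com S Kk G1).sup hy, sup_span_le (hBK.trans hK.2.1) hyG, by
      rw [finrank_sup_span hyB]; omega⟩
  -- more covers of `B`
  have hBlt : (covO O Kk).card < (covO O B).card := by
    rw [← covO_image hBK]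
    refine lt_of_le_of_ne card_image_le fun heq => ?_
    have hinj := card_image_iff.1 heq
    have h1 : B ⊔ span K {z} = B ⊔ span K {z'} := by
      apply hinj
      · exact mem_coe.2 (mem_covO.2 ⟨z, hz, rfl⟩)
      · exact mem_coe.2 (mem_covO.2 ⟨z', hz', rfl⟩)
      · show B ⊔ span K {z} ⊔ Kk = B ⊔ span K {z'} ⊔ Kk
        rw [sup_right_comm, sup_eq_right.2 hBK, sup_right_comm, sup_eq_right.2 hBK, hmz]
    have h2 : k ∈ B ⊔ span K {z} := by
      have h3 : z' ∈ B ⊔ span K {z} := by
        rw [h1]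
        exact mem_sup_right (mem_span_singleton_self z')
      have h4 : k = z' - α • z := by rw [← hkz]; abel
      rw [h4]
      exact sub_mem h3 (mem_sup_right (smul_mem _ _ (mem_span_singleton_self z)))
    have h3 := exch h2 (fun h => g4 (hBG1 h))
    exact hzG (hK.2.1 (sup_span_le hBK hk h3))
  -- counting for a hyperplane of `G` above `B`
  have hcount : ∀ X, Hyp S G X → B ≤ X →
      (covO O B).card + 1 ≤ (covO O Kk).card + (mrg (covO O B) (fun p => p ⊔ X)).card := by
    intro X hX hBX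
    have h1 := hmax X hX
    have h2 := card_mrg (covO O B) (fun p => p ⊔ X) (by rw [covO_image hBX]; omega)
    rw [covO_image hBX] at h2
    omega
  have hc1 := hcount Kk hK hBK
  have hc2 := hcount G1 hG1 hBG1
  have hc3 := hcount _ hK3 le_sup_left
  -- disjointness
  have hjoin : ∀ X Y : Submodule K V, Hyp S G X → Hyp S G Y → X ≠ Y → X ⊔ Y = G := by
    intro X Y hX hY hne
    apply Submodule.eq_of_le_of_finrank_eq (sup_le hX.2.1 hY.2.1)
    have h1 : X < X ⊔ Y := by
      refine lt_of_le_of_ne le_sup_left fun h => hne ?_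
      have h2 : Y ≤ X := by rw [h]; exact le_sup_right
      exact (Submodule.eq_of_le_of_finrank_eq h2 (by have := hX.2.2; have := hY.2.2; omega)).symm
    have h2 := finrank_lt_of_lt h1
    have h3 := Submodule.finrank_mono (sup_le hX.2.1 hY.2.1)
    have := hX.2.2
    omega
  have hdisj : ∀ X Y Z : Submodule K V, Hyp S G X → Hyp S G Y → Hyp S G Z → B ≤ X → B ≤ Y →
      B ≤ Z → X ≠ Y → X ≠ Z → Y ≠ Z →
      Disjoint (mrg (covO O B) (fun p => p ⊔ X)) (mrg (covO O B) (fun p => p ⊔ Y)) := by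
    intro X Y Z hX hY hZ hBX hBY hBZ hXY hXZ hYZ
    rw [disjoint_left]
    intro p hp1 hp2
    obtain ⟨a1, a2, a3⟩ := mrg_long hX hBX hp1
    obtain ⟨-, -, b3⟩ := mrg_long hY hBY hp2
    have hXc := hyp_mem_cov hX hBX hBr
    have hYc := hyp_mem_cov hY hBY hBr
    have hZc := hyp_mem_cov hZ hBZ hBr
    refine htf B (sp_com S Kk G1) p a1 X hXc Y hYc ?_ ?_ hXY ?_ ⟨a3, b3, ?_⟩
    · rintro rfl; exact a2 hX.2.1
    · rintro rfl; exact a2 hY.2.1
    · intro hle
      -- then `p ≤ X ⊔ Y`
      have h1 : p ⊔ X = X ⊔ Y := by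
        symm
        have hpX : p ≠ X := by rintro rfl; exact a2 hX.2.1
        apply Submodule.eq_of_le_of_finrank_eq (sup_le le_sup_right hle)
        rw [finrank_join a1 hXc hpX, finrank_join hXc hYc hXY]
      have h2 : p ≤ X ⊔ Y := by rw [← h1]; exact le_sup_left
      rw [hjoin X Y hX hY hXY] at h2
      exact a2 h2
    · refine ⟨Z, hZc, Ne.symm hXZ, Ne.symm hYZ, ?_⟩
      rw [hjoin X Y hX hY hXY]
      exact hZ.2.1
  have hne1 : Kk ≠ G1 := fun h => g4 (h ▸ hk)
  have hyK3 : y ∈ B ⊔ span K {y} := mem_sup_right (mem_span_singleton_self y)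
  have hne2 : Kk ≠ B ⊔ span K {y} := fun h => hyK (h ▸ hyK3)
  have hne3 : G1 ≠ B ⊔ span K {y} := fun h => hyG1 (h ▸ hyK3)
  have hd12 := hdisj Kk G1 _ hK hG1 hK3 hBK hBG1 le_sup_left hne1 hne2 hne3
  have hd13 := hdisj Kk _ G1 hK hK3 hG1 hBK le_sup_left hBG1 hne2 hne1 (Ne.symm hne3)
  have hd23 := hdisj G1 _ Kk hG1 hK3 hK hBG1 le_sup_left hBK hne3 (Ne.symm hne1) (Ne.symm hne2)
  have hsum : (mrg (covO O B) (fun p => p ⊔ Kk)).card + (mrg (covO O B) (fun p => p ⊔ G1)).card +
      (mrg (covO O B) (fun p => p ⊔ (B ⊔ span K {y}))).card ≤ (covO O B).card := by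
    rw [← card_union_of_disjoint hd12, ← card_union_of_disjoint
      (disjoint_union_left.2 ⟨hd13, hd23⟩)]
    apply card_le_card
    refine union_subset (union_subset ?_ ?_) ?_ <;> exact fun a ha => (mem_mrg.1 ha).1
  omega

/-- induction on the dimension -/
theorem vec_q5_aux (q : ℕ) (hq2 : 2 ≤ q) (hq5 : q ≤ 5) {K : Type*} [Field K] : ∀ (n : ℕ)
    (V : Type*) [AddCommGroup V] [Module K V] [FiniteDimensional K V] (S : Finset V),
    finrank K V = n → 1 ≤ n → Geometry K S → span K (S : Set V) = ⊤ →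
    (∀ H : Submodule K V, finrank K (V ⧸ H) = 1 → q ≤ (out S H).card) →
    (∀ X : Finset V, X ⊆ S → TriFree S (span K (X : Set V))) →
    (∀ X : Finset V, X ⊆ S → finrank K (V ⧸ span K (X : Set V)) = 2 →
      (cov S (span K (X : Set V))).card ≤ q) → False := by
  classical
  intro n
  induction n using Nat.strong_induction_on with
  | _ n ih =>
  intro V _ _ _ S hn hn1 hgeo hspan hC htf hD
  have hquot : ∀ X : Submodule K V, finrank K (V ⧸ X) + finrank K X = finrank K V :=
    fun X => Submodule.finrank_quotient_add_finrank X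
  by_cases hsimp : ∃ X0 : Finset V, X0 ⊆ S ∧ X0.Nonempty ∧ span K (X0 : Set V) ≠ ⊤ ∧
      Simp S (span K (X0 : Set V))
  · -- pass to the quotient
    obtain ⟨X0, hX0, ⟨x, hx⟩, htop, hsimp⟩ := hsimp
    set F0 : Submodule K V := span K (X0 : Set V) with hF0
    set S' := quo S F0 with hS'
    have hF1 : 1 ≤ finrank K F0 := by
      have h1 : span K {x} ≤ F0 := by
        rw [span_singleton_le_iff_mem]
        exact subset_span hx
      have h2 := Submodule.finrank_mono h1
      rwa [finrank_span_singleton (hgeo x (hX0 hx)).1] at h2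
    have hF2 : finrank K F0 < finrank K V := Submodule.finrank_lt htop
    have hq0 := hquot F0
    refine ih (finrank K (V ⧸ F0)) (by omega) (V ⧸ F0) S' rfl (by omega) (geometry_quo hsimp)
      (span_quo F0 hspan) ?_ ?_ ?_
    · intro H hH
      have hr' : finrank K (V ⧸ comap F0.mkQ H) = 1 := by rw [finrank_quo_comap, hH]
      have h1 := hC _ hr'
      rwa [card_out_comap hsimp] at h1
    · intro X hX
      obtain ⟨Y, hY, hYe⟩ := comap_span_quo hX0 X hX
      apply triFree_quo
      change TriFree S (comap (span K (X0 : Set V)).mkQ _)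
      rw [hYe]
      exact htf Y hY
    · intro X hX hr
      obtain ⟨Y, hY, hYe⟩ := comap_span_quo hX0 X hX
      have hYe' : comap F0.mkQ (span K (X : Set (V ⧸ F0))) = span K (Y : Set V) := hYe
      rw [← card_cov_comap, hYe']
      apply hD Y hY
      rw [← hYe', finrank_quo_comap, hr]
  · push Not at hsimp
    have hns : ∀ X : Submodule K V, Sp S X → ∀ x ∈ S, x ∈ X → X ≠ ⊤ → ¬ Simp S X := by
      rintro X ⟨Y, hY, rfl⟩ x hx hxX htop
      refine hsimp Y hY ?_ htop
      by_contra hne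
      rw [not_nonempty_iff_eq_empty] at hne
      rw [hne, coe_empty, span_empty, mem_bot] at hxX
      exact (hgeo x hx).1 hxX
    obtain ⟨x, hx⟩ : ∃ x, x ∈ S := by
      by_contra hcon
      push Not at hcon
      have : S = ∅ := eq_empty_of_forall_notMem hcon
      rw [this, coe_empty, span_empty] at hspan
      have h1 := congrArg (fun W : Submodule K V => finrank K W) hspan
      simp only [finrank_bot, finrank_top] at h1
      omega
    -- rank one
    rcases Nat.lt_or_ge n 2 with h2 | h2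
    · have h1 := hC ⊥ (by have := hquot ⊥; rw [finrank_bot] at this; omega)
      obtain ⟨a, ha, b, hb, hab⟩ := one_lt_card.1 (show 1 < (out S (⊥ : Submodule K V)).card by omega)
      rw [mem_out] at ha hb
      have h3 := finrank_sup_span (geom_notMem hgeo ha.1 hb.1 hab)
      rw [finrank_span_singleton (hgeo a ha.1).1] at h3
      have h4 := Submodule.finrank_le (span K {a} ⊔ span K {b} : Submodule K V)
      omega
    rcases Nat.lt_or_ge n 3 with h3 | h3
    · -- rank two
      have h1 := hD ∅ (empty_subset _) (by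
        have := hquot (span K ((∅ : Finset V) : Set V))
        rw [coe_empty, span_empty, finrank_bot] at this
        rw [coe_empty, span_empty]
        omega)
      rw [coe_empty, span_empty] at h1
      have h2' : (out S (⊥ : Submodule K V)).card ≤ (cov S (⊥ : Submodule K V)).card := by
        unfold cov
        rw [card_image_of_injOn]
        intro a ha b hb hab
        rw [mem_coe, mem_out] at ha hb
        exact inj_bot hgeo ha.1 hb.1 hab
      have h4 := hC (span K {x}) (by
        have := hquot (span K {x})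
        rw [finrank_span_singleton (hgeo x hx).1] at this
        omega)
      have h5 : (out S (span K {x})).card < (out S (⊥ : Submodule K V)).card := by
        apply card_lt_card
        rw [ssubset_iff_of_subset]
        · exact ⟨x, mem_out.2 ⟨hx, by rw [mem_bot]; exact (hgeo x hx).1⟩,
            fun h => (mem_out.1 h).2 (mem_span_singleton_self x)⟩
        · intro a ha
          rw [mem_out] at ha ⊢
          exact ⟨ha.1, by rw [mem_bot]; exact (hgeo a ha.1).1⟩
      omega
    -- rank at least three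
    obtain ⟨G, g1, -, g3, g4⟩ := exists_conn hgeo hx (fun X h1 h2 h3 => hns X h1 x hx h2 h3) (n - 2)
      (by omega)
    refine core_q5 S hgeo q hq2 hq5 G g1 g3 (by omega) (by omega)
      (hC G (by have := hquot G; omega)) ?_ ?_
    · rintro X ⟨Y, hY, rfl⟩
      exact htf Y hY
    · rintro X ⟨Y, hY, rfl⟩ hr
      exact hD Y hY (by have := hquot (span K (Y : Set V)); omega)

/-- The main theorem for sets of vectors. -/
theorem vec_q5 {K V : Type*} [Field K] [Fintype K] [AddCommGroup V] [Module K V]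
    [FiniteDimensional K V] (S : Finset V) (hS : Geometry K S) (hspan : span K (S : Set V) = ⊤)
    (hV : 1 ≤ finrank K V) {m : ℕ} (hm2 : 2 ≤ m) (hm5 : m ≤ 5) (hm : m ≤ Fintype.card K)
    (hblock : ∀ f : V →ₗ[K] K, ∃ s ∈ S, f s = 0)
    (haff : ∀ H : Submodule K V, finrank K (V ⧸ H) = 1 →
      ∃ f : V →ₗ[K] K, ∀ s ∈ S, s ∈ H → f s ≠ 0)
    (htf : ∀ X : Finset V, X ⊆ S → TriFree S (span K (X : Set V)))
    (hD : ∀ X : Finset V, X ⊆ S → finrank K (V ⧸ span K (X : Set V)) = 2 →
      (cov S (span K (X : Set V))).card ≤ m) : False :=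
  vec_q5_aux m hm2 hm5 _ V S rfl hV hS hspan
    (fun H hH => hm.trans (C_hyper S hblock H hH (haff H hH))) htf hD

end Pool.Agent.Lib.MP_fdd68d_co
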